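import Pool.Agent.WLW.StL

/-! [Bet] of the campaign WLW (helper45): averaging over the top tuples. -/

set_option autoImplicit false

namespace Pool.Agent.WLW

open Finset Pool.Agent.WLK

/-- the sum of the numbers of the bad partners -/
private theorem Bet_sum {α : Type} [DecidableEq α] {p : ℕ} (E E1 : Finset α) (hE1 : E1 ⊆ E)
    (R : α → α → Fin p → Prop) [∀ t t' i, Decidable (R t t' i)] (Q : α → Prop)
    (hQ : ∀ t ∈ E1, Q t) [DecidablePred Q] (c : ℝ)
    (hc : ∀ i, (((E ×ˢ E).filter fun w => Q w.1 ∧ R w.1 w.2 i).card : ℝ) ≤ c) :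
    ∑ t ∈ E1, ((E.filter fun t' => ∃ i, R t t' i).card : ℝ) ≤ p * c := by
  have h1 : ∀ t ∈ E1, ((E.filter fun t' => ∃ i, R t t' i).card : ℝ) ≤
      ∑ i : Fin p, ((E.filter fun t' => R t t' i).card : ℝ) := by
    intro t _
    have h2 : (E.filter fun t' => ∃ i, R t t' i) ⊆
        (univ : Finset (Fin p)).biUnion fun i => E.filter fun t' => R t t' i := by
      intro t' ht'
      simp only [mem_filter] at ht'
      obtain ⟨h3, i, h4⟩ := ht'
      simp only [mem_biUnion, mem_filter, mem_univ, true_and]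
      exact ⟨i, h3, h4⟩
    have h5 := (card_le_card h2).trans card_biUnion_le
    exact_mod_cast h5
  have h3 : ∀ i : Fin p, ∑ t ∈ E1, ((E.filter fun t' => R t t' i).card : ℝ) ≤ c := by
    intro i
    refine le_trans ?_ (hc i)
    have h4 : ∑ t ∈ E1, (E.filter fun t' => R t t' i).card ≤
        ((E ×ˢ E).filter fun w => Q w.1 ∧ R w.1 w.2 i).card := by
      rw [← card_sigma]
      refine card_le_card_of_injOn (fun x => (x.1, x.2)) ?_ ?_
      · intro x hx
        simp only [coe_sigma, Set.mem_sigma_iff, mem_coe, mem_filter] at hx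
        simp only [coe_filter, mem_product, Set.mem_ofPred_eq]
        exact ⟨⟨hE1 hx.1, hx.2.1⟩, hQ _ hx.1, hx.2.2⟩
      · intro x _ y _ hxy
        simp only [Prod.mk.injEq] at hxy
        obtain ⟨x1, x2⟩ := x
        obtain ⟨y1, y2⟩ := y
        simp only at hxy
        obtain ⟨rfl, rfl⟩ := hxy
        rfl
    exact_mod_cast h4
  calc ∑ t ∈ E1, ((E.filter fun t' => ∃ i, R t t' i).card : ℝ)
      ≤ ∑ t ∈ E1, ∑ i : Fin p, ((E.filter fun t' => R t t' i).card : ℝ) := sum_le_sum h1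
    _ = ∑ i : Fin p, ∑ t ∈ E1, ((E.filter fun t' => R t t' i).card : ℝ) := sum_comm
    _ ≤ ∑ _i : Fin p, c := sum_le_sum fun i _ => h3 i
    _ = p * c := by simp

theorem thm_Bet (hFal : St_Fal) (hEtf : St_Etf) (hRes : St_Res) : St_Bet := by
  classical
  intro p C h hh
  obtain ⟨g, hg0, hg1, hgh⟩ : ∃ g : ℝ, 0 < g ∧ g ≤ 1 ∧ g ≤ h :=
    ⟨min h 1, lt_min hh one_pos, min_le_right _ _, min_le_left _ _⟩
  obtain ⟨P, hP⟩ : ∃ P : ℝ, P = (p : ℝ) + 1 := ⟨_, rfl⟩
  have hp0 : (0 : ℝ) ≤ p := Nat.cast_nonneg p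
  have hP1 : 1 ≤ P := by linarith
  have hP0 : 0 < P := by linarith
  have hc0 : 0 < g ^ 2 / (2 * P ^ 2) := by positivity
  obtain ⟨N, hN⟩ := hFal p C (g ^ 2 / (2 * P ^ 2)) hc0
  have hd0 : 0 < g / (4 * P) := by positivity
  refine ⟨g / (4 * P), max N ⌈4 * P / g⌉₊, hd0, ?_⟩
  intro k m M a T hT hMi hk hkC hLo hG
  obtain ⟨-, -, -, -, -, -, hkm⟩ := hRes k m M a T hT
  obtain ⟨h1, h2, -, -, -, h6, -, -⟩ := hEtf k m M a T hT p _ rfl
  obtain ⟨E, hE⟩ : ∃ E, E = Et a p (Gd m M a T p) := ⟨_, rfl⟩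
  rw [← hE] at h1 h2 h6 ⊢
  have hkN : N ≤ k := le_trans (le_max_left _ _) hk
  have hm4 : 4 * P / g ≤ m := by
    have h3 : 4 * P / g ≤ (⌈4 * P / g⌉₊ : ℝ) := Nat.le_ceil _
    have h4 : ⌈4 * P / g⌉₊ ≤ m := by
      have := le_trans (le_max_right N ⌈4 * P / g⌉₊) hk
      omega
    exact h3.trans (by exact_mod_cast h4)
  have hm4' : 4 * P ≤ g * m := by
    rw [div_le_iff₀ hg0] at hm4
    linarith
  have hm0 : (0 : ℝ) < m := by
    by_contra hcon
    have : g * (m : ℝ) ≤ 0 := mul_nonpos_of_nonneg_of_nonpos hg0.le (not_lt.mp hcon)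
    linarith
  -- the size of E
  have hEc : (1 - g / (4 * P)) * m ≤ (E.card : ℝ) := by
    rw [h1]; exact hG
  obtain ⟨x, hx⟩ : ∃ x : ℝ, x = g * m / P := ⟨_, rfl⟩
  have hxP : x * P = g * m := by rw [hx]; field_simp
  have hx4 : 4 ≤ x := by
    rw [hx, le_div_iff₀ hP0]; linarith
  have hxm : x ≤ m := by
    rw [hx, div_le_iff₀ hP0]
    nlinarith
  have hdx : g / (4 * P) * m = x / 4 := by
    rw [hx]; field_simp
  have hE2 : (m : ℝ) - x / 4 ≤ E.card := by
    have : (1 - g / (4 * P)) * m = m - x / 4 := by rw [sub_mul, hdx, one_mul]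
    linarith
  have hmE : (m : ℝ) ≤ 2 * E.card := by linarith
  have hFi := hN k m M a T hT hMi hkN hkC hLo E hE hmE ⌊x⌋₊
  obtain ⟨e, he⟩ : ∃ e, e = ⌊x⌋₊ := ⟨_, rfl⟩
  rw [← he] at hFi
  have hx0 : 0 ≤ x := by linarith
  have hex : (e : ℝ) ≤ x := by rw [he]; exact Nat.floor_le hx0
  have hxe : x < e + 1 := by rw [he]; exact Nat.lt_floor_add_one x
  have hem : e ≤ m := by
    have : (e : ℝ) ≤ m := hex.trans hxm
    exact_mod_cast this
  have h6e := h6 e hem
  obtain ⟨E1, hE1⟩ : ∃ E1, E1 = E.filter fun t => va a t + m ≤ M + e := ⟨_, rfl⟩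
  rw [← hE1] at h6e
  have h6r : (e : ℝ) + E.card ≤ m + E1.card := by exact_mod_cast h6e
  have hE1c : x / 2 ≤ (E1.card : ℝ) := by linarith
  have hE1s : E1 ⊆ E := by rw [hE1]; exact filter_subset _ _
  have hE1n : E1.Nonempty := by
    rw [← card_pos]
    have : (0 : ℝ) < E1.card := by linarith
    exact_mod_cast this
  have hsum := Bet_sum E E1 hE1s (fun t t' i => a (t' i) + e < a (t i))
    (fun t => va a t + m ≤ M + e) (fun t ht => by rw [hE1, mem_filter] at ht; exact ht.2)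
    (g ^ 2 / (2 * P ^ 2) * (m : ℝ) ^ 2) (fun i => hFi i)
  obtain ⟨t, ht, htB⟩ : ∃ t ∈ E1,
      ((E.filter fun t' => ∃ i, a (t' i) + e < a (t i)).card : ℝ) ≤ g * m := by
    by_contra hcon
    push Not at hcon
    have h7 : ∑ _t ∈ E1, g * (m : ℝ) < ∑ t ∈ E1,
        ((E.filter fun t' => ∃ i, a (t' i) + e < a (t i)).card : ℝ) :=
      sum_lt_sum_of_nonempty hE1n hcon
    rw [sum_const, nsmul_eq_mul] at h7
    have h8 : x / 2 * (g * m) ≤ E1.card * (g * m) :=
      mul_le_mul_of_nonneg_right hE1c (by positivity)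
    have h9 : p * (g ^ 2 / (2 * P ^ 2) * (m : ℝ) ^ 2) ≤ x / 2 * (g * m) := by
      have e1 : (p : ℝ) * (g ^ 2 / (2 * P ^ 2) * (m : ℝ) ^ 2) = p * x ^ 2 / 2 := by
        rw [hx]; field_simp
      have e2 : x / 2 * (g * m) = P * x ^ 2 / 2 := by
        rw [← hxP]; ring
      rw [e1, e2]
      have : (p : ℝ) * x ^ 2 ≤ P * x ^ 2 :=
        mul_le_mul_of_nonneg_right (by linarith) (sq_nonneg x)
      linarith
    linarith
  have htE : t ∈ E := hE1s ht
  have hta : ∀ i, e ≤ a (t i) := fun i => by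
    have := hT.gt (t i)
    omega
  refine ⟨fun i => a (t i) - e, ?_, ?_⟩
  · have h10 : (∑ i, ((a (t i) - e : ℕ) : ℝ)) = (va a t : ℝ) - p * e := by
      unfold va
      push_cast
      have : ∀ i, ((a (t i) - e : ℕ) : ℝ) = (a (t i) : ℝ) - e := fun i => Nat.cast_sub (hta i)
      simp only [this, sum_sub_distrib, sum_const, card_univ, Fintype.card_fin, nsmul_eq_mul]
    rw [h10]
    have h11 : M < va a t + m := (h2 t htE).2
    have h12 : (M : ℝ) < va a t + m := by exact_mod_cast h11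
    have h13 : (p : ℝ) * e ≤ h * m := by
      have h14 : (p : ℝ) * e ≤ p * x := mul_le_mul_of_nonneg_left hex hp0
      have h15 : (p : ℝ) * x ≤ x * P := by rw [hP]; nlinarith
      have h16 : g * (m : ℝ) ≤ h * m := mul_le_mul_of_nonneg_right hgh hm0.le
      linarith
    linarith
  · have h17 : (E.filter fun t' => ¬ ∀ i, a (t i) - e ≤ a (t' i)) ⊆
        E.filter fun t' => ∃ i, a (t' i) + e < a (t i) := by
      intro t' ht'
      simp only [mem_filter, not_forall, not_le] at ht' ⊢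
      obtain ⟨h18, i, h19⟩ := ht'
      exact ⟨h18, i, by omega⟩
    have h20 : ((E.filter fun t' => ¬ ∀ i, a (t i) - e ≤ a (t' i)).card : ℝ) ≤
        ((E.filter fun t' => ∃ i, a (t' i) + e < a (t i)).card : ℝ) := by
      exact_mod_cast card_le_card h17
    have h16 : g * (m : ℝ) ≤ h * m := mul_le_mul_of_nonneg_right hgh hm0.le
    refine le_trans ?_ (h20.trans (htB.trans h16))
    refine le_of_eq ?_
    norm_cast

end Pool.Agent.WLW
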