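import Pool.Agent.WLW.StL

set_option autoImplicit false

namespace Pool.Agent.WLW

open Finset Pool.Agent.WLK

theorem thm_Cil (hBet : St_Bet) (hEnw : St_Enw) (hEtf : St_Etf) : St_Cil := by
  classical
  intro p C ε hp hε
  have hp0 : (0 : ℝ) < 4 * ((p : ℝ) + 2) := by positivity
  set h : ℝ := ε / (4 * ((p : ℝ) + 2)) with hh
  have hh0 : 0 < h := div_pos hε hp0
  have hhε : 4 * ((p : ℝ) + 2) * h = ε := by
    rw [hh]
    field_simp
  obtain ⟨δ, N, hδ, hN⟩ := hBet p C h hh0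
  refine ⟨min δ h, N, lt_min hδ hh0, ?_⟩
  intro k m M a T hT hMi hk hkC hLo hG
  have hm : (0 : ℝ) ≤ m := Nat.cast_nonneg m
  have hG1 : (1 - δ) * m ≤ ((Gd m M a T p).card : ℝ) := by
    have := mul_le_mul_of_nonneg_right (min_le_left δ h) hm
    linarith
  have hG2 : (1 - h) * m ≤ ((Gd m M a T p).card : ℝ) := by
    have := mul_le_mul_of_nonneg_right (min_le_right δ h) hm
    linarith
  obtain ⟨β, hβ, hβ2⟩ := hN k m M a T hT hMi hk hkC hLo hG1
  have hs : (0 : ℝ) ≤ h * m := mul_nonneg hh0.le hm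
  have hE := hEnw k m M a T hT p β (h * m) hp hs hβ
  have hc := (hEtf k m M a T hT p _ rfl).1
  have hsum := Finset.card_filter_add_card_filter_not (s := Et a p (Gd m M a T p))
    (fun t => ∀ i, β i ≤ a (t i))
  rw [hc] at hsum
  have hsum' : (((Et a p (Gd m M a T p)).filter fun t => ∀ i, β i ≤ a (t i)).card : ℝ) +
      (((Et a p (Gd m M a T p)).filter fun t => ¬ ∀ i, β i ≤ a (t i)).card : ℝ) =
      ((Gd m M a T p).card : ℝ) := by
    rw [← hsum]
    push_cast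
    rfl
  have hlow : (m : ℝ) - (((Et a p (Gd m M a T p)).filter fun t => ∀ i, β i ≤ a (t i)).card : ℝ) ≤
      2 * h * m := by
    linarith
  have hmul := mul_le_mul_of_nonneg_left hlow
    (mul_nonneg (by positivity : (0 : ℝ) ≤ (p : ℝ) + 1) hm)
  have hm2 : (0 : ℝ) ≤ (m : ℝ) ^ 2 := sq_nonneg _
  have hfin : h * m * m + ((p : ℝ) + 1) * m * (2 * h * m) ≤ ε * (m : ℝ) ^ 2 := by
    have e1 : h * m * m + ((p : ℝ) + 1) * m * (2 * h * m) =
        (2 * (p : ℝ) + 3) * h * (m : ℝ) ^ 2 := by ring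
    rw [e1, ← hhε]
    refine mul_le_mul_of_nonneg_right ?_ hm2
    refine mul_le_mul_of_nonneg_right ?_ hh0.le
    have : (0 : ℝ) ≤ p := Nat.cast_nonneg p
    linarith
  linarith

end Pool.Agent.WLW
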