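import Pool.Agent.WLW.StL

/-!
# WLW, [Enw]: the bound of `WW` for the tuples above `β`
-/

set_option autoImplicit false

namespace Pool.Agent.WLW

open Finset Pool.Agent.WLK

private lemma Enw_single_le {k p : ℕ} (t : Fin p → Fin k) (j : Fin p) :
    (Pi.single (t j) 1 : Fin k → ℕ) ≤ vc t := by
  intro i
  unfold vc
  rw [Finset.sum_apply]
  exact single_le_sum (f := fun r => (Pi.single (t r) 1 : Fin k → ℕ) i)
    (fun _ _ => Nat.zero_le _) (mem_univ j)

private lemma Enw_sw_add {k : ℕ} (a x y : Fin k → ℕ) : sw a (x + y) = sw a x + sw a y := by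
  unfold sw
  rw [← sum_add_distrib]
  exact sum_congr rfl fun i _ => by rw [Pi.add_apply, mul_add]

private lemma Enw_sw_single {k : ℕ} (a : Fin k → ℕ) (i : Fin k) :
    sw a (Pi.single i 1) = a i := by
  unfold sw
  rw [sum_eq_single i]
  · rw [Pi.single_eq_same, mul_one]
  · intro j _ hj
    rw [Pi.single_eq_of_ne hj, mul_zero]
  · intro h
    exact absurd (mem_univ i) h

private lemma Enw_rr {k p : ℕ} (m M : ℕ) (a : Fin k → ℕ) (t : Fin p → Fin k) (j : Fin p)
    (hsw : sw a (vc t) = va a t) (hM : va a t ≤ M) :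
    rr m M a (vc t - Pi.single (t j) 1) = (M - va a t + a (t j)) % m := by
  have h1 : vc t - Pi.single (t j) 1 + Pi.single (t j) 1 = vc t :=
    tsub_add_cancel_of_le (Enw_single_le t j)
  have h2 := Enw_sw_add a (vc t - Pi.single (t j) 1) (Pi.single (t j) 1)
  rw [h1, hsw, Enw_sw_single] at h2
  unfold rr
  congr 1
  omega

private lemma Enw_mod (m D b c : ℕ) (h : b ≤ c) :
    ((D + c) % m : ℕ) ≤ (c - b) + (D + b) % m := by
  have h1 : D + c = (D + b) + (c - b) := by omega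
  rw [h1, Nat.add_mod]
  refine le_trans (Nat.mod_le _ _) ?_
  have h2 := Nat.mod_le (c - b) m
  omega

open Classical in
/-- the part of the good tuples -/
private lemma Enw_main {k p : ℕ} (m M : ℕ) (a : Fin k → ℕ) (E' : Finset (Fin p → Fin k))
    (β : Fin p → ℕ) (s : ℝ) (hNod : St_Nod) (hs : 0 ≤ s)
    (hM : (M : ℝ) ≤ ∑ i, (β i : ℝ) + m + s)
    (hsw : ∀ t ∈ E', sw a (vc t) = va a t) (hva : ∀ t ∈ E', va a t ≤ M ∧ M < va a t + m)
    (hinj : ∀ t ∈ E', ∀ t' ∈ E', va a t % m = va a t' % m → t = t')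
    (hβ : ∀ t ∈ E', ∀ i, β i ≤ a (t i)) (hc : E'.card ≤ m) :
    ∑ t ∈ E', ∑ j, (rr m M a (vc t - Pi.single (t j) 1) : ℝ) ≤
      (m : ℝ) ^ 2 + s * m + ((p : ℝ) - 1) * (m * ((m : ℝ) - 1) / 2) + m * ((m : ℝ) - E'.card) := by
  have hD : ∀ t ∈ E', ∀ t' ∈ E', M - va a t = M - va a t' → t = t' := by
    intro t ht t' ht' h
    have h1 := hva t ht
    have h2 := hva t' ht'
    apply hinj t ht t' ht'
    congr 1
    omega
  have hlt : ∀ t ∈ E', M - va a t < m := by
    intro t ht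
    have h1 := hva t ht
    omega
  have h1 : ∀ t ∈ E', ∑ j, (rr m M a (vc t - Pi.single (t j) 1) : ℝ) ≤
      ((M : ℝ) - ∑ i, (β i : ℝ)) - ((M - va a t : ℕ) : ℝ) +
        ∑ j, (((M - va a t + β j) % m : ℕ) : ℝ) := by
    intro t ht
    have h2 : ∀ j : Fin p, (rr m M a (vc t - Pi.single (t j) 1) : ℝ) ≤
        ((a (t j) : ℝ) - β j) + (((M - va a t + β j) % m : ℕ) : ℝ) := by
      intro j
      rw [Enw_rr m M a t j (hsw t ht) (hva t ht).1]
      have h3 := Enw_mod m (M - va a t) (β j) (a (t j)) (hβ t ht j)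
      have h4 : (((M - va a t + a (t j)) % m : ℕ) : ℝ) ≤
          ((a (t j) - β j + (M - va a t + β j) % m : ℕ) : ℝ) := by exact_mod_cast h3
      rw [Nat.cast_add, Nat.cast_sub (hβ t ht j)] at h4
      exact h4
    have h5 : ∑ j, (a (t j) : ℝ) = (M : ℝ) - ((M - va a t : ℕ) : ℝ) := by
      rw [Nat.cast_sub (hva t ht).1]
      unfold va
      push_cast
      ring
    calc ∑ j, (rr m M a (vc t - Pi.single (t j) 1) : ℝ)
        ≤ ∑ j, (((a (t j) : ℝ) - β j) + (((M - va a t + β j) % m : ℕ) : ℝ)) :=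
          sum_le_sum fun j _ => h2 j
      _ = (∑ j, (a (t j) : ℝ) - ∑ j, (β j : ℝ)) +
            ∑ j, (((M - va a t + β j) % m : ℕ) : ℝ) := by
          rw [sum_add_distrib, sum_sub_distrib]
      _ = _ := by
          rw [h5]
          ring
  have h6 : ∑ t ∈ E', ∑ j, (rr m M a (vc t - Pi.single (t j) 1) : ℝ) ≤
      E'.card * ((M : ℝ) - ∑ i, (β i : ℝ)) - ∑ t ∈ E', ((M - va a t : ℕ) : ℝ) +
        ∑ j, ∑ t ∈ E', (((M - va a t + β j) % m : ℕ) : ℝ) := by
    refine le_trans (sum_le_sum h1) ?_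
    rw [sum_add_distrib, sum_sub_distrib, sum_const, nsmul_eq_mul, sum_comm]
  have h7 : ∑ j : Fin p, ∑ t ∈ E', (((M - va a t + β j) % m : ℕ) : ℝ) ≤
      p * (m * ((m : ℝ) - 1) / 2) := by
    have h8 : ∀ j : Fin p, ∑ t ∈ E', (((M - va a t + β j) % m : ℕ) : ℝ) ≤
        m * ((m : ℝ) - 1) / 2 := by
      intro j
      have h9 := (hNod _ E' (fun t => M - va a t) m (β j) hlt hD).1
      linarith
    refine le_trans (sum_le_sum fun j _ => h8 j) ?_
    rw [sum_const, card_univ, Fintype.card_fin, nsmul_eq_mul]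
  have h10 := (hNod _ E' (fun t => M - va a t) m 0 hlt hD).2
  have h11 : E'.card * ((M : ℝ) - ∑ i, (β i : ℝ)) ≤ m * (m + s) := by
    have hcc : (E'.card : ℝ) ≤ m := by exact_mod_cast hc
    have h12 : E'.card * ((M : ℝ) - ∑ i, (β i : ℝ)) ≤ E'.card * (m + s) :=
      mul_le_mul_of_nonneg_left (by linarith) (Nat.cast_nonneg _)
    have h13 : (E'.card : ℝ) * (m + s) ≤ m * (m + s) :=
      mul_le_mul_of_nonneg_right hcc (by positivity)
    linarith
  nlinarith [h6, h7, h10, h11]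

theorem thm_Enw (hNod : St_Nod) (hVcf : St_Vcf) (hEtf : St_Etf) : St_Enw := by
  classical
  intro k m M a T hT p β s hp hs hM
  set E : Finset (Fin p → Fin k) := Et a p (Gd m M a T p) with hE
  set E' : Finset (Fin p → Fin k) := E.filter fun t => ∀ i, β i ≤ a (t i) with hE'
  obtain ⟨-, e2, e3, e4, -, -, -, e8⟩ := hEtf k m M a T hT p E hE
  have hm : 0 < m := by
    rw [← hT.card]
    exact card_pos.2 ⟨0, hT.zero⟩
  have hsub : ∀ t ∈ E', t ∈ E := fun t ht => (mem_filter.1 ht).1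
  have hEt : ∀ t ∈ E', StrictMono (fun i => a (t i)) ∧ vc t ∈ Gd m M a T p := by
    intro t ht
    have h1 := hsub t ht
    rw [hE] at h1
    unfold Et at h1
    exact (mem_filter.1 h1).2
  have hc : E'.card ≤ m := le_trans (card_filter_le _ _) e8
  have hinj3 : ∀ t ∈ E', ∀ t' ∈ E', va a t % m = va a t' % m → t = t' := fun t ht t' ht' h =>
    e3 p t (e4 (hsub t ht)) t' (e4 (hsub t' ht')) h
  have hmain := Enw_main m M a E' β s hNod hs hM (fun t _ => (hVcf k p a t).1)
    (fun t ht => e2 t (hsub t ht)) hinj3 (fun t ht => (mem_filter.1 ht).2) hc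
  have hvinj : Set.InjOn (fun t : Fin p → Fin k => vc t) (E' : Set (Fin p → Fin k)) := by
    intro t ht t' ht' h
    refine hinj3 t ht t' ht' ?_
    rw [← (hVcf k p a t).1, ← (hVcf k p a t').1]
    exact congrArg (fun z => sw a z % m) h
  have himg : E'.image (fun t => vc t) ⊆ Tl T p := by
    intro y hy
    obtain ⟨t, ht, rfl⟩ := mem_image.1 hy
    exact (mem_filter.1 (hEt t ht).2).1
  have hcimg : (E'.image (fun t => vc t)).card = E'.card := card_image_of_injOn hvinj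
  have hTl : (Tl T p).card ≤ m := by
    rw [← hT.card]
    exact card_le_card (filter_subset _ _)
  have hfib : ∀ y ∈ Tl T p, ∑ i ∈ su y, (rr m M a (y - Pi.single i 1) : ℝ) ≤ p * m := by
    intro y hy
    have hy2 := (mem_filter.1 hy).2
    have h1 : ∑ i ∈ su y, (rr m M a (y - Pi.single i 1) : ℝ) ≤ ∑ i ∈ su y, (m : ℝ) :=
      sum_le_sum fun i _ => by
        have h2 : rr m M a (y - Pi.single i 1) < m := Nat.mod_lt _ hm
        exact_mod_cast h2.le
    have h3 : (su y).card ≤ p := by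
      rw [← hy2.2, card_eq_sum_ones]
      refine le_trans (sum_le_sum (f := fun _ => 1) (g := fun i => y i) fun i hi => ?_) ?_
      · exact Nat.one_le_iff_ne_zero.2 (mem_filter.1 hi).2
      · exact sum_le_sum_of_subset (subset_univ _)
    rw [sum_const, nsmul_eq_mul] at h1
    refine le_trans h1 ?_
    exact mul_le_mul_of_nonneg_right (by exact_mod_cast h3) (Nat.cast_nonneg _)
  have hsplit : WW m M a T p = ∑ y ∈ E'.image (fun t => vc t), ∑ i ∈ su y,
      (rr m M a (y - Pi.single i 1) : ℝ) + ∑ y ∈ Tl T p \ E'.image (fun t => vc t), ∑ i ∈ su y,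
      (rr m M a (y - Pi.single i 1) : ℝ) := by
    unfold WW
    rw [add_comm, sum_sdiff himg]
  have h1 : ∑ y ∈ E'.image (fun t => vc t), ∑ i ∈ su y,
      (rr m M a (y - Pi.single i 1) : ℝ) =
      ∑ t ∈ E', ∑ j, (rr m M a (vc t - Pi.single (t j) 1) : ℝ) := by
    rw [sum_image hvinj]
    refine sum_congr rfl fun t ht => ?_
    exact ((hVcf k p a t).2 (hEt t ht).1).2.2.2
      (fun i => (rr m M a (vc t - Pi.single i 1) : ℝ))
  have h2 : ∑ y ∈ Tl T p \ E'.image (fun t => vc t), ∑ i ∈ su y,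
      (rr m M a (y - Pi.single i 1) : ℝ) ≤ ((m : ℝ) - E'.card) * (p * m) := by
    refine le_trans (sum_le_sum fun y hy => hfib y (mem_sdiff.1 hy).1) ?_
    rw [sum_const, nsmul_eq_mul]
    refine mul_le_mul_of_nonneg_right ?_ (by positivity)
    rw [card_sdiff_of_subset himg, hcimg, Nat.cast_sub (by
      rw [← hcimg]
      exact card_le_card himg)]
    have h3 : ((Tl T p).card : ℝ) ≤ m := by exact_mod_cast hTl
    linarith
  rw [hsplit, h1]
  have hp' : (1 : ℝ) ≤ p := by exact_mod_cast hp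
  have hm' : (0 : ℝ) ≤ m := Nat.cast_nonneg _
  have h4 : ((p : ℝ) - 1) * (m * ((m : ℝ) - 1) / 2) ≤ ((p : ℝ) - 1) * ((m : ℝ) ^ 2 / 2) := by
    refine mul_le_mul_of_nonneg_left ?_ (by linarith)
    nlinarith
  nlinarith [hmain, h2, h4]

end Pool.Agent.WLW
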