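import Pool.Agent.WLW.StL

/-!
# WLW, [Etf]: facts about the sorted tuples
-/

set_option autoImplicit false

namespace Pool.Agent.WLW

open Finset Pool.Agent.WLK

private lemma Etf_mem {k : ℕ} {a : Fin k → ℕ} {p : ℕ} {G : Finset (Fin k → ℕ)} {t : Fin p → Fin k} :
    t ∈ Et a p G ↔ StrictMono (fun i => a (t i)) ∧ vc t ∈ G := by
  unfold Et
  rw [mem_filter]
  exact ⟨fun h => h.2, fun h => ⟨mem_univ _, h⟩⟩

private lemma Etf_vc {k p : ℕ} (t : Fin p → Fin k) (j : Fin k) :
    vc t j = ∑ i, (Pi.single (t i) 1 : Fin k → ℕ) j := by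
  unfold vc
  rw [Finset.sum_apply]

private lemma Etf_le {k p r : ℕ} (hr : r ≤ p) (t : Fin p → Fin k) :
    vc (fun i : Fin r => t (Fin.castLE hr i)) ≤ vc t := by
  intro j
  rw [Etf_vc, Etf_vc]
  have h : ∑ i : Fin r, (Pi.single (t (Fin.castLE hr i)) 1 : Fin k → ℕ) j =
      ∑ i ∈ (univ : Finset (Fin r)).map (Fin.castLEEmb hr), (Pi.single (t i) 1 : Fin k → ℕ) j := by
    rw [sum_map]
    rfl
  rw [h]
  exact sum_le_sum_of_subset (subset_univ _)

theorem thm_Etf (hVcf : St_Vcf) (hVcu : St_Vcu) (hRes : St_Res) : St_Etf := by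
  intro k m M a T hT p E hE
  have hR := hRes k m M a T hT
  have hinj : Function.Injective a := by
    intro i j hij
    have hs : ∀ i : Fin k, sw a (Pi.single i 1) = a i := by
      intro i
      have h1 := hR.2.2.2.2.2.1 i 0
      rw [zero_add] at h1
      rw [h1]
      simp [sw]
    have h2 := hT.inj _ (hT.one i) _ (hT.one j) (by rw [hs, hs, hij])
    by_contra hne
    have h3 := congrFun h2 i
    rw [Pi.single_eq_same, Pi.single_eq_of_ne hne] at h3
    exact one_ne_zero h3
  have hGT : Gd m M a T p ⊆ T := fun x hx => (mem_filter.1 (mem_filter.1 hx).1).1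
  -- (3)
  have h3 : ∀ (r : ℕ), ∀ Q ∈ Et a r T, ∀ Q' ∈ Et a r T, va a Q % m = va a Q' % m → Q = Q' := by
    intro r Q hQ Q' hQ' h
    rw [Etf_mem] at hQ hQ'
    have h1 := (hVcf k r a Q).1
    have h2 := (hVcf k r a Q').1
    rw [← h1, ← h2] at h
    exact (hVcu k r a hinj).1 Q Q' hQ.1 hQ'.1 (hT.inj _ hQ.2 _ hQ'.2 h)
  -- (4)
  have h4 : E ⊆ Et a p T := by
    intro t ht
    rw [hE, Etf_mem] at ht
    rw [Etf_mem]
    exact ⟨ht.1, hGT ht.2⟩
  -- (1)
  have h1 : E.card = (Gd m M a T p).card := by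
    refine card_bij (fun t _ => vc t) ?_ ?_ ?_
    · intro t ht
      rw [hE, Etf_mem] at ht
      exact ht.2
    · intro t ht t' ht' h
      rw [hE, Etf_mem] at ht ht'
      exact (hVcu k p a hinj).1 t t' ht.1 ht'.1 h
    · intro y hy
      have hy2 := (mem_filter.1 (mem_filter.1 hy).1).2
      obtain ⟨t, ht, hty⟩ := (hVcu k p a hinj).2 y hy2.1 hy2.2
      refine ⟨t, ?_, hty⟩
      rw [hE, Etf_mem, hty]
      exact ⟨ht, hy⟩
  -- (2)
  have h2 : ∀ t ∈ E, va a t ≤ M ∧ M < va a t + m := by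
    intro t ht
    rw [hE, Etf_mem] at ht
    have hx := hR.1 (vc t) (hGT ht.2)
    have hr := hR.2.1 (vc t)
    have hf : ff m M a (vc t) = 0 := (mem_filter.1 ht.2).2
    rw [hf, mul_zero, add_zero, (hVcf k p a t).1] at hx
    omega
  have hDinj : ∀ t ∈ E, ∀ t' ∈ E, M - va a t = M - va a t' → t = t' := by
    intro t ht t' ht' h
    have ha := h2 t ht
    have hb := h2 t' ht'
    refine h3 p t (h4 ht) t' (h4 ht') ?_
    rw [show va a t = va a t' by omega]
  -- (6)
  have h6 : ∀ e : ℕ, e ≤ m → e + E.card ≤ m + (E.filter fun t => va a t + m ≤ M + e).card := by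
    intro e he
    have hc : (E.filter fun t => ¬ va a t + m ≤ M + e).card ≤ m - e := by
      rw [← card_range (m - e)]
      refine card_le_card_of_injOn (fun t => M - va a t) ?_ ?_
      · intro t ht
        have ht1 := mem_filter.1 ht
        have ha := h2 t ht1.1
        have hb := ht1.2
        simp only [coe_range, Set.mem_Iio]
        omega
      · intro t ht t' ht' h
        exact hDinj t (mem_filter.1 ht).1 t' (mem_filter.1 ht').1 h
    have hs := card_filter_add_card_filter_not (s := E) (fun t => va a t + m ≤ M + e)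
    omega
  refine ⟨h1, h2, h3, h4, ?_, h6, ?_, ?_⟩
  · intro r hr t ht
    rw [Etf_mem] at ht ⊢
    refine ⟨?_, hT.down _ ht.2 _ (Etf_le hr t)⟩
    intro i j hij
    exact ht.1 (show Fin.castLE hr i < Fin.castLE hr j from hij)
  · refine le_trans (card_le_univ E) ?_
    rw [Fintype.card_fun, Fintype.card_fin, Fintype.card_fin]
  · rw [h1]
    exact le_trans (card_le_card hGT) (le_of_eq hT.card)

end Pool.Agent.WLW
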