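import Pool.Agent.WLW.StL

/-!
# WLW, module `Fal` (MP_05ec03_nt): few failing pairs (helper39)
-/

set_option autoImplicit false

namespace Pool.Agent.WLW

open Finset Pool.Agent.WLK

private theorem Fal_upd {k p : ℕ} {G : Type} [AddCommGroup G] (f : Fin k → G) (t : Fin p → Fin k)
    (j : Fin p) (x : Fin k) :
    ∑ r, f (Function.update t j x r) = ∑ r, f (t r) - f (t j) + f x := by
  have h1 : ∑ r, f (Function.update t j x r) = f x + ∑ r ∈ univ.erase j, f (t r) := by
    rw [← Finset.add_sum_erase univ _ (mem_univ j), Function.update_self]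
    congr 1
    apply Finset.sum_congr rfl
    intro r hr
    rw [Function.update_of_ne (Finset.ne_of_mem_erase hr)]
  have h2 : ∑ r, f (t r) = f (t j) + ∑ r ∈ univ.erase j, f (t r) :=
    (Finset.add_sum_erase univ _ (mem_univ j)).symm
  rw [h1, h2]
  abel

private theorem Fal_updN {k p : ℕ} (f : Fin k → ℕ) (t : Fin p → Fin k) (j : Fin p) (x : Fin k) :
    ∑ r, f (Function.update t j x r) + f (t j) = ∑ r, f (t r) + f x := by
  have h1 : ∑ r, f (Function.update t j x r) = f x + ∑ r ∈ univ.erase j, f (t r) := by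
    rw [← Finset.add_sum_erase univ _ (mem_univ j), Function.update_self]
    congr 1
    apply Finset.sum_congr rfl
    intro r hr
    rw [Function.update_of_ne (Finset.ne_of_mem_erase hr)]
  have h2 : ∑ r, f (t r) = f (t j) + ∑ r ∈ univ.erase j, f (t r) :=
    (Finset.add_sum_erase univ _ (mem_univ j)).symm
  rw [h1, h2]
  ring

private theorem Fal_card {k p b : ℕ} (hbp : b ≤ p)
    (B : Finset ((Fin p → Fin k) × (Fin p → Fin k))) :
    B.card ≤ (B.image fun w => (w.1, fun l : Fin b => w.2 (Fin.castLE hbp l))).card *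
      k ^ (p - b) := by
  classical
  have h1 : B.card ≤ ((B.image fun w => (w.1, fun l : Fin b => w.2 (Fin.castLE hbp l))) ×ˢ
      (univ : Finset (Fin (p - b) → Fin k))).card := by
    apply Finset.card_le_card_of_injOn
      (fun w => ((w.1, fun l : Fin b => w.2 (Fin.castLE hbp l)),
        fun r : Fin (p - b) => w.2 ⟨b + r.val, by have := r.isLt; omega⟩))
    · intro w hw
      simp only [Finset.coe_product, Set.mem_prod, Finset.mem_coe, Finset.mem_univ, and_true]
      exact Finset.mem_image_of_mem _ hw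
    · intro w _ w' _ heq
      simp only [Prod.mk.injEq] at heq
      obtain ⟨⟨h2, h3⟩, h4⟩ := heq
      refine Prod.ext h2 ?_
      funext j
      by_cases hj : j.val < b
      · have := congrFun h3 ⟨j.val, hj⟩
        simpa [Fin.castLE] using this
      · have h5 : j.val - b < p - b := by have := j.isLt; omega
        have := congrFun h4 ⟨j.val - b, h5⟩
        have h6 : (⟨b + (j.val - b), by have := j.isLt; omega⟩ : Fin p) = j := by
          apply Fin.ext
          simp only
          omega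
        simpa [h6] using this
  refine h1.trans ?_
  rw [Finset.card_product]
  simp

theorem thm_Fal (hKey : St_Key) (hEtf : St_Etf) (hVcf : St_Vcf) (hLor : St_Lor) : St_Fal := by
  classical
  intro p C h hh
  obtain ⟨K, hK⟩ := exists_nat_ge (max 1 (max (C ^ 2 / h) (2 * C)))
  have hK1 : (1 : ℝ) ≤ K := le_trans (le_max_left _ _) hK
  have hK2 : C ^ 2 / h ≤ K := le_trans ((le_max_left _ _).trans (le_max_right _ _)) hK
  have hK3 : 2 * C ≤ K := le_trans ((le_max_right _ _).trans (le_max_right _ _)) hK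
  refine ⟨K ^ (3 * p ^ 2 + 2 * p) + 1, ?_⟩
  intro k m M a T hT hMi hNk hkm hLo E hE hmE e i
  by_contra hcon
  rw [not_le] at hcon
  obtain ⟨hE1, hE2, hE3, hE4, hE5, hE6, hE7, hE8⟩ := hEtf k m M a T hT p E hE
  set B := (E ×ˢ E).filter fun w => va a w.1 + m ≤ M + e ∧ a (w.2 i) + e < a (w.1 i) with hB
  have hbp : i.val + 1 ≤ p := i.isLt
  set Om : Finset ((Fin p → Fin k) × (Fin (i.val + 1) → Fin k)) :=
    B.image fun w => (w.1, fun l : Fin (i.val + 1) => w.2 (Fin.castLE hbp l)) with hOm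
  set al : Fin k → ZMod m := fun j => (a j : ZMod m) with hal
  set V : Finset (ZMod m) := (Lo m M a T).image fun x => ((sw a x : ℕ) : ZMod m) with hV
  have hsum : ∀ {r : ℕ} (t : Fin r → Fin k), ∑ j, al (t j) = ((va a t : ℕ) : ZMod m) := by
    intro r t
    simp only [hal, va]
    push_cast
    rfl
  have hk0 : 0 < k := by
    have := Nat.zero_le (K ^ (3 * p ^ 2 + 2 * p))
    omega
  have hkR : (0 : ℝ) < k := by exact_mod_cast hk0
  have hm0 : 0 < m := by
    rcases Nat.eq_zero_or_pos m with h0 | h0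
    · subst h0
      have : (0 : ℝ) < (k : ℝ) ^ p := by positivity
      simp at hkm
      linarith
    · exact h0
  have hmR : (0 : ℝ) < m := by exact_mod_cast hm0
  have hC0 : 0 < C := by
    have h1 : (0 : ℝ) < C * m := lt_of_lt_of_le (by positivity) hkm
    exact (pos_iff_pos_of_mul_pos h1).2 hmR
  -- the data of an element of `Om`
  have hOmm : ∀ u ∈ Om, ∃ t t' : Fin p → Fin k, t ∈ E ∧ t' ∈ E ∧ va a t + m ≤ M + e ∧
      a (t' i) + e < a (t i) ∧ u = (t, fun l : Fin (i.val + 1) => t' (Fin.castLE hbp l)) := by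
    intro u hu
    rw [hOm, Finset.mem_image] at hu
    obtain ⟨w, hw, rfl⟩ := hu
    rw [hB, Finset.mem_filter, Finset.mem_product] at hw
    exact ⟨w.1, w.2, hw.1.1, hw.1.2, hw.2.1, hw.2.2, rfl⟩
  have hmono : ∀ t ∈ E, StrictMono fun j => a (t j) := by
    intro t ht
    have := hE4 ht
    simp only [Et, Finset.mem_filter] at this
    exact this.2.1
  refine hKey p (i.val + 1) K (by omega) hbp k m al Om V (by omega) ?_ ?_ ?_ ?_ ?_
  · intro u hu v hv huv
    obtain ⟨t, t', ht, ht', -, -, rfl⟩ := hOmm u hu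
    obtain ⟨s, s', hs, hs', -, -, rfl⟩ := hOmm v hv
    simp only at huv ⊢
    rw [hsum, hsum, ZMod.natCast_eq_natCast_iff'] at huv
    exact hE3 p t (hE4 ht) s (hE4 hs) huv
  · intro u hu v hv huv
    obtain ⟨t, t', ht, ht', -, -, rfl⟩ := hOmm u hu
    obtain ⟨s, s', hs, hs', -, -, rfl⟩ := hOmm v hv
    simp only at huv ⊢
    rw [hsum, hsum, ZMod.natCast_eq_natCast_iff'] at huv
    exact hE3 (i.val + 1) _ (hE5 _ hbp t' (hE4 ht')) _ (hE5 _ hbp s' (hE4 hs')) huv
  · -- the density
    have h1 : (B.card : ℝ) ≤ (Om.card : ℝ) * (k : ℝ) ^ (p - (i.val + 1)) := by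
      exact_mod_cast Fal_card hbp B
    have h2 : ((k : ℝ) ^ p) ^ 2 ≤ (C * m) ^ 2 :=
      pow_le_pow_left₀ (by positivity) hkm 2
    have h3 : h * ((k : ℝ) ^ p) ^ 2 < C ^ 2 * ((Om.card : ℝ) * (k : ℝ) ^ (p - (i.val + 1))) := by
      calc h * ((k : ℝ) ^ p) ^ 2 ≤ h * (C * m) ^ 2 := mul_le_mul_of_nonneg_left h2 hh.le
        _ = C ^ 2 * (h * (m : ℝ) ^ 2) := by ring
        _ < C ^ 2 * (B.card : ℝ) := mul_lt_mul_of_pos_left hcon (by positivity)
        _ ≤ _ := mul_le_mul_of_nonneg_left h1 (by positivity)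
    have h4 : ((k : ℝ) ^ p) ^ 2 = (k : ℝ) ^ (p + (i.val + 1)) * (k : ℝ) ^ (p - (i.val + 1)) := by
      rw [← pow_mul, ← pow_add]
      congr 1
      omega
    have h5 : (0 : ℝ) < (k : ℝ) ^ (p - (i.val + 1)) := by positivity
    have h6 : h * (k : ℝ) ^ (p + (i.val + 1)) < C ^ 2 * (Om.card : ℝ) := by
      rw [h4] at h3
      have h7 : h * (k : ℝ) ^ (p + (i.val + 1)) * (k : ℝ) ^ (p - (i.val + 1)) <
          C ^ 2 * (Om.card : ℝ) * (k : ℝ) ^ (p - (i.val + 1)) := by linarith
      exact lt_of_mul_lt_mul_right h7 h5.le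
    have h8 : (k : ℝ) ^ (p + (i.val + 1)) ≤ K * (Om.card : ℝ) := by
      have h9 : C ^ 2 * (Om.card : ℝ) ≤ h * (K * (Om.card : ℝ)) := by
        have h10 : C ^ 2 ≤ K * h := (div_le_iff₀ hh).1 hK2
        have h11 : (0 : ℝ) ≤ (Om.card : ℝ) := by positivity
        nlinarith
      exact (lt_of_mul_lt_mul_left (h6.trans_le h9) hh.le).le
    exact_mod_cast h8
  · have h1 : (V.card : ℝ) ≤ ((Lo m M a T).card : ℝ) := by
      exact_mod_cast Finset.card_image_le
    have h2 : (k : ℝ) * V.card ≤ K * (k : ℝ) ^ p := by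
      have h3 : (E.card : ℝ) ≤ (k : ℝ) ^ p := by exact_mod_cast hE7
      calc (k : ℝ) * V.card ≤ k * ((Lo m M a T).card : ℝ) :=
            mul_le_mul_of_nonneg_left h1 hkR.le
        _ ≤ C * m := hLo
        _ ≤ C * (2 * E.card) := mul_le_mul_of_nonneg_left hmE hC0.le
        _ = 2 * C * E.card := by ring
        _ ≤ 2 * C * (k : ℝ) ^ p := mul_le_mul_of_nonneg_left h3 (by linarith)
        _ ≤ K * (k : ℝ) ^ p := mul_le_mul_of_nonneg_right hK3 (by positivity)
    exact_mod_cast h2
  · intro u hu j hj l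
    obtain ⟨t, t', ht, ht', hte, hte', rfl⟩ := hOmm u hu
    simp only
    rw [← Fal_upd]
    rw [hsum]
    have hz : sw a (vc (Function.update t j (t' (Fin.castLE hbp l)))) =
        va a (Function.update t j (t' (Fin.castLE hbp l))) := (hVcf k p a _).1
    have h1 : va a (Function.update t j (t' (Fin.castLE hbp l))) + a (t j) =
        va a t + a (t' (Fin.castLE hbp l)) := Fal_updN a t j _
    have h2 : a (t i) ≤ a (t j) := (hmono t ht).monotone (by
      rw [Fin.le_def]
      omega)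
    have h3 : a (t' (Fin.castLE hbp l)) ≤ a (t' i) := (hmono t' ht').monotone (by
      rw [Fin.le_def]
      have := l.isLt
      simp only [Fin.val_castLE]
      omega)
    obtain ⟨x, hx, hxz⟩ := hLor k m M a T hT hMi
      (vc (Function.update t j (t' (Fin.castLE hbp l)))) (by rw [hz]; omega)
    rw [hV, Finset.mem_image]
    refine ⟨x, hx, ?_⟩
    rw [ZMod.natCast_eq_natCast_iff', hxz, hz]

end Pool.Agent.WLW
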