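import Pool.Agent.WLW.St

/-! # WLW Ffp (MP_05ec03_nt; helper42) -/

set_option autoImplicit false

namespace Pool.Agent.WLW

open Finset Pool.Agent.WLK

theorem thm_Ffp : St_Ffp := by
  classical
  intro k m M a T _ p
  have hnu : ∀ x, (nu T x : ℝ) ≤ k := by
    intro x
    have h : nu T x ≤ k := by
      unfold nu
      exact (Finset.card_le_univ _).trans (by simp)
    exact_mod_cast h
  set B : Finset (Fin k → ℕ) := (Tl T p \ Gd m M a T p) \ JJ T with hB
  have hcard : (Tl T p).card ≤ (Gd m M a T p).card + (JJ T).card + B.card := by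
    have h1 : Tl T p ⊆ (Gd m M a T p ∪ JJ T) ∪ B := by
      intro x hx
      by_cases h2 : x ∈ Gd m M a T p
      · exact mem_union_left _ (mem_union_left _ h2)
      · by_cases h3 : x ∈ JJ T
        · exact mem_union_left _ (mem_union_right _ h3)
        · exact mem_union_right _ (mem_sdiff.2 ⟨mem_sdiff.2 ⟨hx, h2⟩, h3⟩)
    calc (Tl T p).card ≤ ((Gd m M a T p ∪ JJ T) ∪ B).card := card_le_card h1
      _ ≤ (Gd m M a T p ∪ JJ T).card + B.card := card_union_le _ _
      _ ≤ (Gd m M a T p).card + (JJ T).card + B.card :=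
        Nat.add_le_add_right (card_union_le _ _) _
  have hBT : B ⊆ T := fun x hx => (mem_filter.1 (mem_sdiff.1 (mem_sdiff.1 hx).1).1).1
  have hSS : (k : ℝ) * B.card ≤ SS m M a T := by
    unfold SS
    refine le_trans ?_ (sum_le_sum_of_subset_of_nonneg hBT fun x _ _ =>
      mul_nonneg (sub_nonneg.2 (hnu x)) (Nat.cast_nonneg _))
    rw [mul_comm, ← nsmul_eq_mul]
    refine card_nsmul_le_sum _ _ _ fun x hx => ?_
    obtain ⟨h1, h2⟩ := mem_sdiff.1 hx
    obtain ⟨h3, h4⟩ := mem_sdiff.1 h1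
    have h5 : nu T x = 0 := by
      by_contra hcon
      exact h2 (mem_filter.2 ⟨hBT hx, Nat.pos_of_ne_zero hcon⟩)
    have h6 : 1 ≤ ff m M a x := by
      by_contra hcon
      exact h4 (mem_filter.2 ⟨h3, by omega⟩)
    have h7 : (1 : ℝ) ≤ ff m M a x := by exact_mod_cast h6
    rw [h5, Nat.cast_zero, sub_zero]
    exact le_mul_of_one_le_right (Nat.cast_nonneg _) h7
  have h8 : ((Tl T p).card : ℝ) ≤ (Gd m M a T p).card + (JJ T).card + B.card := by
    exact_mod_cast hcard
  have h9 := mul_le_mul_of_nonneg_left h8 (Nat.cast_nonneg k : (0 : ℝ) ≤ k)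
  linarith

end Pool.Agent.WLW
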