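import Pool.Agent.WLW.StL
import Pool.Agent.WLG.Few

/-!
# WLW FnL: the theorem for large multiplicity, without windows
-/

set_option autoImplicit false

namespace Pool.Agent.WLW

open Finset Pool.Agent.WLK Pool.Agent.Helper60.Wilf Pool.Agent.Helper82.Wilf

/-- the bound for the power of the number of the generators in a window -/
private theorem FnL_pow {ε m d : ℝ} {p : ℕ} (hε : 0 < ε) (hε1 : ε ≤ 1 / 2) (hp : 3 ≤ p) (hm : 0 ≤ m)
    (h : d ^ p < (1 + ε) * ((3 / 2 - 1 / (p : ℝ)) ^ p * ((Nat.factorial p : ℝ) * m))) :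
    d ^ p ≤ (2 ^ (p + 1) * (Nat.factorial p : ℝ)) * m := by
  have hp0 : (0 : ℝ) < p := by
    have : 0 < p := by omega
    exact_mod_cast this
  have hp1 : (1 : ℝ) ≤ p := by
    have : 1 ≤ p := by omega
    exact_mod_cast this
  have h1 : 1 / (p : ℝ) ≤ 1 := by
    rw [div_le_one hp0]
    exact hp1
  have h0 : 0 ≤ 1 / (p : ℝ) := by positivity
  have h2 : (3 / 2 - 1 / (p : ℝ)) ^ p ≤ 2 ^ p :=
    pow_le_pow_left₀ (by linarith) (by linarith) p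
  have h3 : (0 : ℝ) ≤ (Nat.factorial p : ℝ) * m := by positivity
  have h4 : (3 / 2 - 1 / (p : ℝ)) ^ p * ((Nat.factorial p : ℝ) * m) ≤
      2 ^ p * ((Nat.factorial p : ℝ) * m) := mul_le_mul_of_nonneg_right h2 h3
  have h5 : (0 : ℝ) ≤ 2 ^ p * ((Nat.factorial p : ℝ) * m) := by positivity
  have h6 : (1 + ε) * ((3 / 2 - 1 / (p : ℝ)) ^ p * ((Nat.factorial p : ℝ) * m)) ≤
      2 * (2 ^ p * ((Nat.factorial p : ℝ) * m)) := by
    calc (1 + ε) * ((3 / 2 - 1 / (p : ℝ)) ^ p * ((Nat.factorial p : ℝ) * m))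
        ≤ (1 + ε) * (2 ^ p * ((Nat.factorial p : ℝ) * m)) :=
          mul_le_mul_of_nonneg_left h4 (by linarith)
      _ ≤ 2 * (2 ^ p * ((Nat.factorial p : ℝ) * m)) :=
          mul_le_mul_of_nonneg_right (by linarith) h5
  have h7 : 2 * (2 ^ p * ((Nat.factorial p : ℝ) * m)) =
      (2 ^ (p + 1) * (Nat.factorial p : ℝ)) * m := by ring
  linarith

theorem thm_FnL (hGrw : St_Grw) (hPrL : St_PrL) (hSel : St_Sel) (hLim : St_Lim) (hPro : St_Pro)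
    (hTwo : St_Two) : St_FnL := by
  intro ε hε
  by_cases h : ε ≤ 1 / 2
  · obtain ⟨η, hη0, hη1, H⟩ := hLim ε hε h
    obtain ⟨N₂, hN₂⟩ := hTwo
    have hP : ∀ p : ℕ, ∃ N : ℕ, 2 ≤ p → ∀ (k m M : ℕ) (a : Fin k → ℕ) (T : Finset (Fin k → ℕ)),
        Ty m M a T →
        N * (Nat.log 2 m + 1) ^ 3 ≤ k → (N * (Nat.log 2 m + 1)) ^ (p + 1) * m < k ^ (p + 1) →
        ((1 + η) * (3 / 2 - 1 / (p : ℝ))) ^ p * ((Nat.factorial p : ℝ) * m) ≤ (k : ℝ) ^ p →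
        (k : ℝ) ^ (p - 1) ≤ (1 - η) * ((Nat.factorial (p - 1) : ℝ) * m) → 0 < wil k m M a T := by
      intro p
      by_cases hp : 2 ≤ p
      · obtain ⟨N, hN⟩ := hPro p η hp hη0 hη1
        exact ⟨N, fun _ => hN⟩
      · exact ⟨0, fun h => absurd h hp⟩
    have hQ : ∀ p : ℕ, ∃ N : ℕ, 3 ≤ p →
        ∀ (k m M : ℕ) (a : Fin k → ℕ) (T : Finset (Fin k → ℕ)), Ty m M a T → Mi m a T →
        N * (Nat.log 2 m + 1) ^ 3 ≤ k → (N * (Nat.log 2 m + 1)) ^ (p + 1) * m < k ^ (p + 1) →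
        (k : ℝ) ^ p ≤ (2 ^ (p + 1) * (Nat.factorial p : ℝ)) * m → 0 < wil k m M a T := by
      intro p
      by_cases hp : 3 ≤ p
      · obtain ⟨N, hN⟩ := hPrL p hp (2 ^ (p + 1) * (Nat.factorial p : ℝ))
        exact ⟨N, fun _ => hN⟩
      · exact ⟨0, fun h => absurd h hp⟩
    choose N₁ hN₁ using hP
    choose N₃ hN₃ using hQ
    obtain ⟨m₀, hm₀⟩ := H N₂ N₁
    obtain ⟨m₁, hm₁⟩ := hGrw ε hε h N₃
    refine ⟨max m₀ m₁, fun S c m A hS hA hc hne hm hd => ?_⟩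
    have hm0 : m₀ ≤ m := le_trans (le_max_left _ _) hm
    have hm1 : m₁ ≤ m := le_trans (le_max_right _ _) hm
    have hA1 : 0 < A.card := card_pos.2 ⟨m, (hA m).2 hS.prim_m⟩
    obtain ⟨a, T, hT, hMi, hW⟩ := hSel S c m (A.card - 1) A hS hA (by omega) hc
    by_cases hwin : Win ε m A.card
    · obtain ⟨p, hp3, hpε, hlo, hhi⟩ := hwin
      obtain ⟨g1, g2⟩ := hm₁ m A.card p hm1 hd hp3 hpε hlo
      refine hW (hN₃ p hp3 _ m _ a T hT hMi g1 g2 ?_)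
      have hd0 : ((A.card - 1 : ℕ) : ℝ) ≤ (A.card : ℝ) := by
        exact_mod_cast Nat.sub_le _ _
      refine (pow_le_pow_left₀ (Nat.cast_nonneg _) hd0 p).trans ?_
      exact FnL_pow hε h hp3 (Nat.cast_nonneg m) hhi
    · rcases hm₀ m A.card hm0 hd hwin with h1 | ⟨h1, h2, h3⟩ | ⟨p, hp, h1, h2, h3, h4⟩
      · exact WLG.thm_G8 hS hA hc hne h1
      · exact hW (hN₂ _ m _ a T hT h1 h2 h3)
      · exact hW (hN₁ p (by omega) _ m _ a T hT h1 h2 h3 h4)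
  · have h2 : 0 < 2 * ε - 1 := by
      push Not at h
      linarith
    obtain ⟨m₀, hm₀⟩ := (Filter.tendsto_atTop.1 ((tendsto_rpow_atTop h2).comp
      tendsto_natCast_atTop_atTop) (8 : ℝ)).exists_forall_of_atTop
    refine ⟨m₀, fun S c m A hS hA hc hne hm hd => ?_⟩
    refine WLG.thm_G8 hS hA hc hne ?_
    have hm1 : (0 : ℝ) < m := by exact_mod_cast hS.hm0
    have h3 : (8 : ℝ) ≤ (m : ℝ) ^ (2 * ε - 1) := hm₀ m hm
    have h4 : (8 : ℝ) * m ≤ (m : ℝ) ^ (2 * ε) := by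
      calc (8 : ℝ) * m ≤ (m : ℝ) ^ (2 * ε - 1) * m := by
            exact mul_le_mul_of_nonneg_right h3 hm1.le
        _ = (m : ℝ) ^ (2 * ε) := by
            rw [← Real.rpow_add_one hm1.ne', sub_add_cancel]
    have h5 : (m : ℝ) ^ (2 * ε) = ((m : ℝ) ^ ε) ^ 2 := by
      rw [mul_comm, Real.rpow_mul hm1.le]
      norm_num
    have h6 : ((m : ℝ) ^ ε) ^ 2 ≤ (A.card : ℝ) ^ 2 :=
      pow_le_pow_left₀ (Real.rpow_nonneg hm1.le _) hd 2
    exact_mod_cast (h4.trans (h5.le.trans h6) : (8 : ℝ) * m ≤ (A.card : ℝ) ^ 2)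

end Pool.Agent.WLW
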