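import Pool.Agent.WLW.St

/-! Module Grw of WLW: growth conditions (model: `Pool/Agent/WLK/Lim.lean`). -/

set_option autoImplicit false

namespace Pool.Agent.WLW

open Finset Pool.Agent.WLK

/-- `(d - 1) ^ q ≥ d ^ q (1 - δ)` when `q / d ≤ δ` -/
private lemma Grw_bern {d q : ℕ} {δ : ℝ} (hd : 1 ≤ d) (h : (q : ℝ) ≤ δ * d) :
    (d : ℝ) ^ q * (1 - δ) ≤ ((d - 1 : ℕ) : ℝ) ^ q := by
  have hdR : (1 : ℝ) ≤ d := by exact_mod_cast hd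
  have h1 : ((d - 1 : ℕ) : ℝ) = (d : ℝ) * (1 + -(1 / d)) := by
    push_cast [hd]
    field_simp
    ring
  rw [h1, mul_pow]
  apply mul_le_mul_of_nonneg_left _ (by positivity)
  have h2 : (-2 : ℝ) ≤ -(1 / d) := by
    have : (1 : ℝ) / d ≤ 1 := by
      rw [div_le_one (by linarith)]; exact hdR
    linarith
  have h3 := one_add_mul_le_pow h2 q
  have h4 : (q : ℝ) * (1 / d) ≤ δ := by
    rw [mul_one_div, div_le_iff₀ (by linarith)]; exact h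
  linarith

private lemma Grw_n3 {a m : ℝ} (ha : 0 < a) (hm : 0 < m) : a / 16 * m < m / 4 * (a / 2) := by
  have : 0 < a * m := mul_pos ha hm
  nlinarith

private lemma Grw_n9 {ε m f : ℝ} (he : ε ≤ 1 / 2) (hm : 0 < m) (hf : 1 ≤ f) :
    m / 2 ≤ (1 - ε) * (f * m) := by
  have h2 : m ≤ f * m := by nlinarith
  nlinarith

private lemma Grw_n10 {ε x : ℝ} (he : ε ≤ 1 / 2) (hx : 0 ≤ x) :
    x / 2 ≤ x * (1 - ε / 4) := by
  nlinarith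

theorem thm_Grw (hGro : St_Gro) : St_Grw := by
  intro ε h0 h12 N₃
  set Q : ℕ := ⌊3 / ε⌋₊ with hQdef
  set N : ℕ := 1 + ∑ q ∈ range (Q + 1), N₃ q with hNdef
  have hN1 : 1 ≤ N := by omega
  have hNq : ∀ q ≤ Q, N₃ q ≤ N := by
    intro q hq
    have : N₃ q ≤ ∑ q ∈ range (Q + 1), N₃ q :=
      Finset.single_le_sum (f := N₃) (fun i _ => Nat.zero_le _) (mem_range.2 (by omega))
    omega
  obtain ⟨m₁, hm₁⟩ := hGro ε (16 * N ^ (Q + 3)) (Q + 3) h0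
  obtain ⟨m₂, hm₂⟩ := hGro ε (⌈4 * (Q : ℝ) / ε⌉₊ + 4) 0 h0
  refine ⟨max (max m₁ m₂) 64, fun m d p hm hd hp3 hpQ hlt => ?_⟩
  have hmm1 : m₁ ≤ m := le_trans (le_trans (le_max_left _ _) (le_max_left _ _)) hm
  have hmm2 : m₂ ≤ m := le_trans (le_trans (le_max_right _ _) (le_max_left _ _)) hm
  have hm64 : 64 ≤ m := le_trans (le_max_right _ _) hm
  have hmR : (64 : ℝ) ≤ m := by exact_mod_cast hm64
  have hpQ' : p ≤ Q := Nat.le_floor hpQ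
  have hA := hm₁ m hmm1
  have hB := hm₂ m hmm2
  rw [pow_zero, mul_one] at hB
  push_cast at hA hB
  set L : ℝ := (Nat.log 2 m : ℝ) + 1 with hL
  have hL1 : 1 ≤ L := by rw [hL]; linarith [Nat.cast_nonneg (α := ℝ) (Nat.log 2 m)]
  have hNR : (1 : ℝ) ≤ N := by exact_mod_cast hN1
  have hNL : 1 ≤ (N : ℝ) * L := one_le_mul_of_one_le_of_one_le hNR hL1
  have hA' : 16 * ((N : ℝ) * L) ^ (Q + 3) ≤ (m : ℝ) ^ ε := by
    rw [mul_pow, ← mul_assoc]; exact hA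
  have hceil : (0 : ℝ) ≤ (⌈4 * (Q : ℝ) / ε⌉₊ : ℝ) := Nat.cast_nonneg _
  have h4Q : 4 * (Q : ℝ) / ε ≤ (m : ℝ) ^ ε := by
    have h1 := Nat.le_ceil (4 * (Q : ℝ) / ε)
    linarith
  have hme4 : 4 ≤ (m : ℝ) ^ ε := by linarith
  have hd4 : (4 : ℝ) ≤ d := hme4.trans hd
  have hd1 : 1 ≤ d := by
    have : (1 : ℝ) ≤ d := by linarith
    exact_mod_cast this
  have hkR : ((d - 1 : ℕ) : ℝ) = (d : ℝ) - 1 := by push_cast [hd1]; ring
  have hk2 : (m : ℝ) ^ ε / 2 ≤ ((d - 1 : ℕ) : ℝ) := by rw [hkR]; linarith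
  have hk0 : (0 : ℝ) ≤ ((d - 1 : ℕ) : ℝ) := Nat.cast_nonneg _
  have hqd : (p : ℝ) ≤ ε / 4 * d := by
    have h1 : (p : ℝ) ≤ Q := by exact_mod_cast hpQ'
    have h2 : 4 * (Q : ℝ) / ε ≤ d := h4Q.trans hd
    rw [div_le_iff₀ h0] at h2
    linarith
  have hm0 : (0 : ℝ) < m := by linarith
  have hme0 : 0 < (m : ℝ) ^ ε := by linarith
  have hnR : (N₃ p : ℝ) ≤ N := by exact_mod_cast hNq p hpQ'
  have hn0 : (0 : ℝ) ≤ (N₃ p : ℝ) := Nat.cast_nonneg _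
  have hpow : (m : ℝ) / 4 ≤ ((d - 1 : ℕ) : ℝ) ^ p := by
    have hb := Grw_bern (δ := ε / 4) hd1 hqd
    have hfq : (1 : ℝ) ≤ (Nat.factorial p : ℝ) := by
      exact_mod_cast Nat.succ_le_of_lt (Nat.factorial_pos p)
    have hdq0 : (0 : ℝ) ≤ (d : ℝ) ^ p := by positivity
    have h1 : (m : ℝ) / 2 ≤ (1 - ε) * ((Nat.factorial p : ℝ) * m) := Grw_n9 h12 hm0 hfq
    have h3 : (d : ℝ) ^ p / 2 ≤ (d : ℝ) ^ p * (1 - ε / 4) := Grw_n10 h12 hdq0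
    linarith
  constructor
  · have h1 : (N₃ p : ℝ) * L ^ 3 ≤ (N * L) ^ 3 := by
      rw [mul_pow]
      apply mul_le_mul_of_nonneg_right _ (by positivity)
      calc (N₃ p : ℝ) ≤ N := hnR
        _ = (N : ℝ) ^ 1 := (pow_one _).symm
        _ ≤ (N : ℝ) ^ 3 := pow_le_pow_right₀ hNR (by norm_num)
    have h2 : ((N : ℝ) * L) ^ 3 ≤ ((N : ℝ) * L) ^ (Q + 3) := pow_le_pow_right₀ hNL (by omega)
    have h3 : (N₃ p : ℝ) * L ^ 3 ≤ ((d - 1 : ℕ) : ℝ) := by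
      have : (0 : ℝ) ≤ ((N : ℝ) * L) ^ (Q + 3) := by positivity
      linarith
    rw [hL] at h3
    exact_mod_cast h3
  · have h1 : ((N₃ p : ℝ) * L) ^ (p + 1) ≤ ((N : ℝ) * L) ^ (p + 1) :=
      pow_le_pow_left₀ (mul_nonneg hn0 (by linarith))
        (mul_le_mul_of_nonneg_right hnR (by linarith)) _
    have h2 : ((N : ℝ) * L) ^ (p + 1) ≤ ((N : ℝ) * L) ^ (Q + 3) :=
      pow_le_pow_right₀ hNL (by omega)
    have h3 : ((N₃ p : ℝ) * L) ^ (p + 1) ≤ (m : ℝ) ^ ε / 16 := by linarith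
    have h4 : ((N₃ p : ℝ) * L) ^ (p + 1) * m < ((d - 1 : ℕ) : ℝ) ^ (p + 1) := by
      calc ((N₃ p : ℝ) * L) ^ (p + 1) * m ≤ (m : ℝ) ^ ε / 16 * m :=
            mul_le_mul_of_nonneg_right h3 hm0.le
        _ < (m : ℝ) / 4 * ((m : ℝ) ^ ε / 2) := Grw_n3 hme0 hm0
        _ ≤ ((d - 1 : ℕ) : ℝ) ^ p * ((d - 1 : ℕ) : ℝ) :=
            mul_le_mul hpow hk2 (by positivity) (by positivity)
        _ = ((d - 1 : ℕ) : ℝ) ^ (p + 1) := (pow_succ _ _).symm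
    rw [hL] at h4
    exact_mod_cast h4

end Pool.Agent.WLW
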