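import Pool.Agent.WLW.St

/-! helper8, module JLP: double count of the pairs `(x, i)`, `x` squarefree of degree `p - 1`. -/

set_option autoImplicit false

namespace Pool.Agent.WLW

open Finset Pool.Agent.WLK

private theorem Jlp_su {k : ℕ} (y : Fin k → ℕ) (h : ∀ i, y i ≤ 1) : (su y).card = ∑ i, y i := by
  rw [su, card_filter]
  refine sum_congr rfl fun i _ => ?_
  have := h i
  by_cases h0 : y i = 0
  · simp [h0]
  · rw [if_pos h0]
    omega

private theorem Jlp_sum {k : ℕ} (x : Fin k → ℕ) (i : Fin k) :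
    ∑ j, (x + Pi.single i 1 : Fin k → ℕ) j = ∑ j, x j + 1 := by
  have h1 : ∑ j, (x + Pi.single i 1 : Fin k → ℕ) j = ∑ j, x j + ∑ j, (Pi.single i 1 : Fin k → ℕ) j := by
    rw [← sum_add_distrib]
    rfl
  rw [h1]
  congr 1
  rw [sum_eq_single i]
  · simp
  · intro j _ hj
    simp [hj]
  · simp

private theorem Jlp_count {k : ℕ} (T : Finset (Fin k → ℕ)) (p : ℕ) (hp : 1 ≤ p) :
    ∑ x ∈ Jl T (p - 1), nu T x ≤ p * (Tl T p).card + (Ns T).card := by
  classical
  have hJ : ∀ x ∈ Jl T (p - 1), (∀ i, x i ≤ 1) ∧ ∑ i, x i = p - 1 := fun x hx =>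
    (mem_filter.1 hx).2
  have hup : ∀ (x : Fin k → ℕ) (i : Fin k), i ∈ up T x → x + Pi.single i 1 ∈ T := fun x i hi =>
    (mem_filter.1 hi).2
  set P : Finset (Σ _ : Fin k → ℕ, Fin k) := (Jl T (p - 1)).sigma (fun x => up T x) with hPdef
  have hP : ∑ x ∈ Jl T (p - 1), nu T x = P.card := by
    rw [hPdef, card_sigma]
    rfl
  have hmem : ∀ q ∈ P, q.1 ∈ Jl T (p - 1) ∧ q.2 ∈ up T q.1 := fun q hq => mem_sigma.1 hq
  have hsplit : P.card = (P.filter fun q => q.1 q.2 = 0).card +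
      (P.filter fun q => ¬ q.1 q.2 = 0).card :=
    (card_filter_add_card_filter_not (s := P) (fun q => q.1 q.2 = 0)).symm
  have h0 : (P.filter fun q => q.1 q.2 = 0).card ≤ ((Tl T p).sigma (fun y => su y)).card := by
    refine card_le_card_of_injOn (fun q => ⟨q.1 + Pi.single q.2 1, q.2⟩) ?_ ?_
    · intro q hq
      obtain ⟨hq, hz⟩ := mem_filter.1 hq
      obtain ⟨hx, hi⟩ := hmem q hq
      obtain ⟨h1, h2⟩ := hJ _ hx
      refine mem_sigma.2 ⟨mem_filter.2 ⟨hup _ _ hi, fun j => ?_, ?_⟩, ?_⟩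
      · show q.1 j + (Pi.single q.2 1 : Fin k → ℕ) j ≤ 1
        by_cases hj : j = q.2
        · subst hj
          rw [hz]
          simp
        · rw [Pi.single_eq_of_ne hj]
          exact h1 j
      · show ∑ j, (q.1 + Pi.single q.2 1 : Fin k → ℕ) j = p
        rw [Jlp_sum, h2]
        omega
      · refine mem_filter.2 ⟨mem_univ _, ?_⟩
        show q.1 q.2 + (Pi.single q.2 1 : Fin k → ℕ) q.2 ≠ 0
        simp
    · rintro ⟨x, i⟩ _ ⟨x', i'⟩ _ h
      have h1 : x + Pi.single i 1 = x' + Pi.single i' 1 := congrArg Sigma.fst h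
      have h2 : i = i' := congrArg (fun q : (Σ _ : Fin k → ℕ, Fin k) => q.2) h
      subst h2
      have h3 : x = x' := add_right_cancel h1
      subst h3
      rfl
  have h0' : ((Tl T p).sigma (fun y => su y)).card = p * (Tl T p).card := by
    rw [card_sigma, sum_congr rfl (g := fun _ => p), sum_const, smul_eq_mul, mul_comm]
    intro y hy
    obtain ⟨h1, h2⟩ := (mem_filter.1 hy).2
    rw [Jlp_su y h1, h2]
  have h1 : (P.filter fun q => ¬ q.1 q.2 = 0).card ≤ (Ns T).card := by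
    refine card_le_card_of_injOn (fun q => q.1 + Pi.single q.2 1) ?_ ?_
    · intro q hq
      obtain ⟨hq, hz⟩ := mem_filter.1 hq
      obtain ⟨hx, hi⟩ := hmem q hq
      refine mem_filter.2 ⟨hup _ _ hi, fun hc => ?_⟩
      have h5 : (q.1 + Pi.single q.2 1 : Fin k → ℕ) q.2 ≤ 1 := hc q.2
      have h4 : (q.1 + Pi.single q.2 1 : Fin k → ℕ) q.2 = q.1 q.2 + 1 := by simp
      have h6 : ¬ q.1 q.2 = 0 := hz
      omega
    · rintro ⟨x, i⟩ hq ⟨x', i'⟩ hq' h
      have h3 : x + Pi.single i 1 = x' + Pi.single i' 1 := h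
      obtain ⟨hq, hz⟩ := mem_filter.1 (mem_coe.1 hq)
      obtain ⟨hq', hz'⟩ := mem_filter.1 (mem_coe.1 hq')
      have h5 := (hJ _ (hmem _ hq').1).1 i
      have h6 : x i + 1 = x' i + (Pi.single i' 1 : Fin k → ℕ) i := by
        have := congrFun h3 i
        simpa using this
      have hii : i = i' := by
        by_contra hne
        rw [Pi.single_eq_of_ne hne] at h6
        have hz2 : ¬ x i = 0 := hz
        have h5' : x' i ≤ 1 := h5
        omega
      subst hii
      have h7 : x = x' := add_right_cancel h3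
      subst h7
      rfl
  rw [hP, hsplit]
  exact Nat.add_le_add (h0.trans h0'.le) h1

theorem thm_Jlp (hRes : St_Res) : St_Jlp := by
  intro k m M a T hT p hp
  obtain ⟨_, _, _, _, hff, _, _⟩ := hRes k m M a T hT
  have hnu : ∀ x : Fin k → ℕ, (nu T x : ℝ) ≤ k := fun x => by
    have : nu T x ≤ k := (card_le_univ _).trans (by simp)
    exact_mod_cast this
  have hsub : Jl T (p - 1) ⊆ T := fun x hx =>
    (mem_filter.1 (mem_filter.1 hx).1).1
  have hA : ∑ x ∈ Jl T (p - 1), ((k : ℝ) - nu T x) ≤ SS m M a T := by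
    calc ∑ x ∈ Jl T (p - 1), ((k : ℝ) - nu T x)
        ≤ ∑ x ∈ Jl T (p - 1), ((k : ℝ) - nu T x) * ff m M a x := by
          refine sum_le_sum fun x hx => ?_
          have h1 : 1 ≤ ff m M a x := hff x (hsub hx) (mem_filter.1 (mem_filter.1 hx).1).2
          have h2 : (1 : ℝ) ≤ (ff m M a x : ℝ) := by exact_mod_cast h1
          have h3 := hnu x
          nlinarith
      _ ≤ SS m M a T := by
          refine sum_le_sum_of_subset_of_nonneg hsub fun x _ _ => ?_
          exact mul_nonneg (sub_nonneg.2 (hnu x)) (Nat.cast_nonneg _)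
  have hB : (∑ x ∈ Jl T (p - 1), (nu T x : ℝ)) ≤ p * ((Tl T p).card : ℝ) + (Ns T).card := by
    have := Jlp_count T p hp
    exact_mod_cast this
  have hC : (k : ℝ) * ((Jl T (p - 1)).card : ℝ) =
      ∑ x ∈ Jl T (p - 1), ((k : ℝ) - nu T x) + ∑ x ∈ Jl T (p - 1), (nu T x : ℝ) := by
    rw [← sum_add_distrib]
    simp [mul_comm]
  rw [hC]
  linarith

end Pool.Agent.WLW
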