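import Pool.Agent.WLW.St

/-!
# WLW: a consequence of the theorem of Kruskal and Katona
-/

set_option autoImplicit false

namespace Pool.Agent.WLW

open Finset Pool.Agent.WLK

private theorem KKp_ar (p : ℕ) (h : ℝ) (hp : 2 ≤ p) (hh : 0 < h) : ∃ (c : ℝ), 1 < c ∧
    c ^ p = 1 + h := by
  refine ⟨(1 + h) ^ ((p : ℝ)⁻¹), ?_, ?_⟩
  · refine Real.one_lt_rpow (by linarith) ?_
    have : (0 : ℝ) < p := by
      have : 0 < p := by omega
      exact_mod_cast this
    positivity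
  · exact Real.rpow_inv_natCast_pow (by linarith) (by omega)

/-- **KKp** -/
theorem thm_KKp (hShd : St_Shd) (hJlp : St_Jlp) : St_KKp := by
  intro p h hp hh
  obtain ⟨c, hc1, hcp⟩ := KKp_ar p h hp hh
  have hp' : (2 : ℝ) ≤ p := by exact_mod_cast hp
  obtain ⟨N, hN⟩ := exists_nat_ge (c * p * (c + 1) / (c - 1))
  refine ⟨min ((c - 1) / 4) (1 / 4), N, ?_, ?_⟩
  · exact lt_min (by linarith) (by norm_num)
  intro k m M a T hT hNk h1 h2 h3
  set δ : ℝ := min ((c - 1) / 4) (1 / 4) with hδ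
  have hδ0 : 0 < δ := lt_min (by linarith) (by norm_num)
  have hδ1 : δ ≤ (c - 1) / 4 := min_le_left _ _
  have hδ2 : δ ≤ 1 / 4 := min_le_right _ _
  have hm : 0 < m := by
    rw [← hT.card]
    exact Finset.card_pos.2 ⟨0, hT.zero⟩
  have hm' : (0 : ℝ) < m := by exact_mod_cast hm
  have htm : ((Tl T p).card : ℝ) ≤ m := by
    have : (Tl T p).card ≤ m := by
      rw [← hT.card]
      exact Finset.card_le_card (Finset.filter_subset _ _)
    exact_mod_cast this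
  obtain ⟨x, hxk, hx1, hx2⟩ := hShd k T hT.down p (by omega)
  have hJ := hJlp k m M a T hT p (by omega)
  have hx1' : (x.choose p : ℝ) ≤ ((Tl T p).card : ℝ) := by exact_mod_cast hx1
  have hx2' : (p : ℝ) * ((Tl T p).card : ℝ) ≤ ((x : ℝ) + 1) * ((Jl T (p - 1)).card : ℝ) := by
    exact_mod_cast hx2
  set t : ℝ := ((Tl T p).card : ℝ) with ht
  set J : ℝ := ((Jl T (p - 1)).card : ℝ) with hJd
  have hJ0 : 0 ≤ J := Nat.cast_nonneg _
  have ht0 : 0 < t := by nlinarith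
  have hpt : (m : ℝ) ≤ p * t := by nlinarith
  have hkJ : (k : ℝ) * J ≤ p * t * (1 + 2 * δ) := by nlinarith
  have hx0 : (0 : ℝ) ≤ (x : ℝ) + 1 := by positivity
  have hk1 : (k : ℝ) * (p * t) ≤ ((x : ℝ) + 1) * (1 + 2 * δ) * (p * t) := by
    have e1 : (k : ℝ) * (p * t) ≤ k * (((x : ℝ) + 1) * J) :=
      mul_le_mul_of_nonneg_left hx2' (Nat.cast_nonneg _)
    have e2 : ((x : ℝ) + 1) * (k * J) ≤ ((x : ℝ) + 1) * (p * t * (1 + 2 * δ)) :=
      mul_le_mul_of_nonneg_left hkJ hx0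
    nlinarith
  have hpt0 : 0 < (p : ℝ) * t := by linarith
  have hk2 : (k : ℝ) ≤ ((x : ℝ) + 1) * (1 + 2 * δ) := le_of_mul_le_mul_right hk1 hpt0
  have hk3 : (k : ℝ) ≤ ((x : ℝ) + 1) * ((1 + c) / 2) :=
    hk2.trans (mul_le_mul_of_nonneg_left (by linarith) hx0)
  set y : ℝ := ((x + 1 - p : ℕ) : ℝ) with hy
  have hy0 : 0 ≤ y := Nat.cast_nonneg _
  have hy1 : (x : ℝ) + 1 - p ≤ y := by
    have : x + 1 ≤ (x + 1 - p) + p := by omega
    have : ((x + 1 : ℕ) : ℝ) ≤ ((x + 1 - p : ℕ) : ℝ) + p := by exact_mod_cast this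
    push_cast at this
    linarith
  have hy2 : y ^ p ≤ (Nat.factorial p : ℝ) * m := by
    have e1 : (x + 1 - p) ^ p ≤ x.descFactorial p := Nat.pow_sub_le_descFactorial x p
    have e2 : x.descFactorial p = p.factorial * x.choose p := Nat.descFactorial_eq_factorial_mul_choose x p
    have e3 : y ^ p ≤ (Nat.factorial p : ℝ) * (x.choose p : ℝ) := by
      rw [e2] at e1
      rw [hy]
      exact_mod_cast e1
    refine e3.trans (mul_le_mul_of_nonneg_left (hx1'.trans htm) (Nat.cast_nonneg _))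
  have hky : (k : ℝ) ≤ c * y := by
    have e1 : c * p * (c + 1) / (c - 1) ≤ (k : ℝ) := hN.trans (by exact_mod_cast hNk)
    rw [div_le_iff₀ (by linarith)] at e1
    have e2 : c * ((x : ℝ) + 1 - p) ≤ c * y := mul_le_mul_of_nonneg_left hy1 (by linarith)
    have e3 : c * (k : ℝ) ≤ c * (((x : ℝ) + 1) * ((1 + c) / 2)) :=
      mul_le_mul_of_nonneg_left hk3 (by linarith)
    have e4 : (c + 1) * (k : ℝ) ≤ (c + 1) * (c * ((x : ℝ) + 1 - p)) := by nlinarith
    exact (le_of_mul_le_mul_left e4 (by linarith)).trans e2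
  calc (k : ℝ) ^ p ≤ (c * y) ^ p := pow_le_pow_left₀ (Nat.cast_nonneg _) hky p
    _ = (1 + h) * y ^ p := by rw [mul_pow, hcp]
    _ ≤ (1 + h) * ((Nat.factorial p : ℝ) * m) := mul_le_mul_of_nonneg_left hy2 (by linarith)

end Pool.Agent.WLW
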