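import Pool.Agent.WLW.Ent

/-!
# WLW: the key lemma on sums of letters (MP_05ec03_nt)
-/

set_option autoImplicit false

namespace Pool.Agent.WLW.Ent

open Finset Classical

variable {J ι G : Type*} [Fintype J] [DecidableEq J] [Fintype ι] [AddCommGroup G]

/-- the letters with index in `S` -/
def rs (S : Finset J) (w : J → ι) : S → ι := fun j => w j

/-- the sum of the values of the letters with index in `S` -/
def sg (v : ι → G) (S : Finset J) (w : J → ι) : G := ∑ j ∈ S, v (w j)

theorem rs_eq {S : Finset J} {u w : J → ι} : rs S u = rs S w ↔ ∀ j ∈ S, u j = w j := by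
  unfold rs
  constructor
  · intro h j hj
    exact congrFun h ⟨j, hj⟩
  · intro h
    funext j
    exact h j.1 j.2

theorem sg_congr (v : ι → G) {S : Finset J} {u w : J → ι} (h : ∀ j ∈ S, u j = w j) :
    sg v S u = sg v S w := sum_congr rfl fun j hj => by rw [h j hj]

theorem sg_union (v : ι → G) {S S' : Finset J} (h : Disjoint S S') (w : J → ι) :
    sg v (S ∪ S') w = sg v S w + sg v S' w := sum_union h

section
variable {Ω : Finset (J → ι)} (hΩ : Ω.Nonempty) {K B : ℝ} (hK : K = Real.log (Fintype.card ι))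
  (hB : (Fintype.card J : ℝ) * K - B ≤ Real.log Ω.card)
include hΩ hK

theorem H_rs_le (S : Finset J) : H Ω (rs S) ≤ S.card * K := by
  have := H_le_log hΩ (rs S) univ (fun _ _ => mem_univ _)
  rw [card_univ, Fintype.card_fun, Fintype.card_coe] at this
  push_cast at this
  rw [Real.log_pow] at this
  rw [hK]
  exact this

include hB

theorem H_rs_ge (S : Finset J) : S.card * K - B ≤ H Ω (rs S) := by
  have h1 : H Ω (fun w : J → ι => w) = Real.log Ω.card := H_inj _ (fun _ _ _ _ h => h)
  have h2 : H Ω (fun w : J → ι => w) ≤ H Ω (fun w => (rs S w, rs Sᶜ w)) := by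
    apply H_mono hΩ
    intro u _ w _ h
    rw [Prod.mk.injEq, rs_eq, rs_eq] at h
    funext j
    by_cases hj : j ∈ S
    · exact h.1 j hj
    · exact h.2 j (mem_compl.2 hj)
  have h3 := H_pair_le hΩ (rs S : (J → ι) → _) (rs Sᶜ)
  have h4 := H_rs_le hΩ hK Sᶜ
  have h5 : (Sᶜ.card : ℝ) = Fintype.card J - S.card := by
    rw [card_compl, Nat.cast_sub (card_le_univ _)]
  rw [h5] at h4
  nlinarith

theorem H_ge_of {γ : Type*} (g : (J → ι) → γ) (S S' : Finset J)
    (h : ∀ u ∈ Ω, ∀ w ∈ Ω, g u = g w → rs S' u = rs S' w → ∀ j ∈ S, u j = w j) :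
    S.card * K - B - S'.card * K ≤ H Ω g := by
  have h1 := H_rs_ge hΩ hK hB S
  have h2 : H Ω (rs S) ≤ H Ω (fun w => (g w, rs S' w)) := by
    apply H_mono hΩ
    intro u hu w hw e
    rw [Prod.mk.injEq] at e
    rw [rs_eq]
    exact h u hu w hw e.1 e.2
  have h3 := H_pair_le hΩ g (rs S')
  have h4 := H_rs_le hΩ hK S'
  linarith

theorem H_sub (v : ι → G) (S0 S1 S2 : Finset J) (h01 : Disjoint S0 S1) (h02 : Disjoint S0 S2)
    (h12 : Disjoint S1 S2) :
    H Ω (sg v (S0 ∪ S1 ∪ S2)) + H Ω (sg v S0) ≤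
      H Ω (sg v (S0 ∪ S1)) + H Ω (sg v (S0 ∪ S2)) + B := by
  have h012 : Disjoint (S0 ∪ S1) S2 := disjoint_union_left.2 ⟨h02, h12⟩
  -- first application
  have a1 := H_submod hΩ (fun w => (rs S1 w, sg v (S0 ∪ S2) w)) (fun w => (rs S2 w, sg v (S0 ∪ S1) w))
    (sg v (S0 ∪ S1 ∪ S2))
    (by
      intro u _ w _ e
      rw [Prod.mk.injEq, rs_eq] at e
      have e2 : sg v (S0 ∪ S1 ∪ S2) = fun w => sg v (S0 ∪ S2) w + sg v S1 w := by
        funext x
        rw [sg_union v h012, sg_union v h01, sg_union v h02]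
        abel
      rw [e2]
      simp only
      rw [e.2, sg_congr v e.1])
    (by
      intro u _ w _ e
      rw [Prod.mk.injEq, rs_eq] at e
      rw [sg_union v h012, sg_union v h012, e.2, sg_congr v e.1])
  have a2 := H_pair_le hΩ (rs S1) (sg v (S0 ∪ S2))
  have a3 := H_pair_le hΩ (rs S2) (sg v (S0 ∪ S1))
  have a4 := H_rs_le hΩ hK S1
  have a5 := H_rs_le hΩ hK S2
  -- the pair determines `rs (S1 ∪ S2)` and `sg S0`
  have a6 : H Ω (fun w => (rs (S1 ∪ S2) w, sg v S0 w)) ≤
      H Ω (fun w => ((rs S1 w, sg v (S0 ∪ S2) w), (rs S2 w, sg v (S0 ∪ S1) w))) := by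
    apply H_mono hΩ
    intro u _ w _ e
    simp only [Prod.mk.injEq, rs_eq] at e ⊢
    refine ⟨?_, ?_⟩
    · intro j hj
      rcases mem_union.1 hj with h | h
      · exact e.1.1 j h
      · exact e.2.1 j h
    · have e3 := e.2.2
      rw [sg_union v h01, sg_union v h01, sg_congr v e.1.1] at e3
      exact add_right_cancel e3
  have a7 := H_submod hΩ (fun w => (rs (S1 ∪ S2) w, sg v S0 w)) (rs S0) (sg v S0)
    (by
      intro u _ w _ e
      exact (Prod.mk.injEq _ _ _ _ ▸ e).2)
    (by
      intro u _ w _ e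
      rw [rs_eq] at e
      exact sg_congr v e)
  have a8 := H_rs_le hΩ hK S0
  have a9 : H Ω (rs (S0 ∪ S1 ∪ S2)) ≤
      H Ω (fun w => ((rs (S1 ∪ S2) w, sg v S0 w), rs S0 w)) := by
    apply H_mono hΩ
    intro u _ w _ e
    simp only [Prod.mk.injEq, rs_eq] at e ⊢
    intro j hj
    rcases mem_union.1 hj with h | h
    · rcases mem_union.1 h with h | h
      · exact e.2 j h
      · exact e.1.1 j (mem_union_left _ h)
    · exact e.1.1 j (mem_union_right _ h)
  have a10 := H_rs_ge hΩ hK hB (S0 ∪ S1 ∪ S2)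
  have a11 : ((S0 ∪ S1 ∪ S2).card : ℝ) = S0.card + S1.card + S2.card := by
    rw [card_union_of_disjoint h012, card_union_of_disjoint h01]; push_cast; ring
  rw [a11] at a10
  nlinarith

end

section
variable {p q k : ℕ} {v : Fin k → G}

/-- the first `n` letters -/
def lo (p n : ℕ) : Finset (Fin p) := univ.filter fun r => r.val < n

theorem card_lo {n : ℕ} (h : n ≤ p) : (lo p n).card = n := by
  rw [← card_map Fin.valEmbedding]
  have : (lo p n).map Fin.valEmbedding = range n := by
    ext x
    simp only [lo, mem_map, mem_filter, mem_univ, true_and, Fin.valEmbedding_apply, mem_range]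
    constructor
    · rintro ⟨r, hr, rfl⟩
      exact hr
    · intro hx
      exact ⟨⟨x, by omega⟩, hx, rfl⟩
  rw [this, card_range]

theorem sg_disj (S : Finset (Fin p)) (T : Finset (Fin q)) (w : Fin p ⊕ Fin q → Fin k) :
    sg v (S.disjSum T) w = ∑ i ∈ S, v (w (Sum.inl i)) + ∑ l ∈ T, v (w (Sum.inr l)) := by
  unfold sg
  rw [sum_disjSum]

theorem KL_aux (hq : 1 ≤ q) (hqp : q ≤ p) (Ω : Finset (Fin p ⊕ Fin q → Fin k)) (V : Finset G)
    (hΩ : Ω.Nonempty)
    (inX : ∀ u ∈ Ω, ∀ w ∈ Ω, ∑ i, v (u (Sum.inl i)) = ∑ i, v (w (Sum.inl i)) →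
      ∀ i, u (Sum.inl i) = w (Sum.inl i))
    (inY : ∀ u ∈ Ω, ∀ w ∈ Ω, ∑ i, v (u (Sum.inr i)) = ∑ i, v (w (Sum.inr i)) →
      ∀ i, u (Sum.inr i) = w (Sum.inr i))
    (hL : ∀ w ∈ Ω, ∀ i : Fin p, ∀ l : Fin q, q ≤ i.val + 1 →
      (∑ r, v (w (Sum.inl r))) - v (w (Sum.inl i)) + v (w (Sum.inr l)) ∈ V)
    (K B a : ℝ) (hK : K = Real.log k) (h1 : ((p : ℝ) + q) * K - B ≤ Real.log Ω.card)
    (h3 : Real.log V.card ≤ ((p : ℝ) - 1) * K + a) :
    K ≤ q * (((p : ℝ) - q + 1) * (a + B) + ((p : ℝ) - q) * B) + 2 * q * B := by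
  have hK' : K = Real.log (Fintype.card (Fin k)) := by rw [Fintype.card_fin]; exact hK
  have hB : (Fintype.card (Fin p ⊕ Fin q) : ℝ) * K - B ≤ Real.log Ω.card := by
    rw [Fintype.card_sum, Fintype.card_fin, Fintype.card_fin]
    push_cast
    exact h1
  -- lower bounds
  have low1 : ∀ l : Fin q, p * K - B ≤ H Ω (sg v ((univ : Finset (Fin p)).disjSum {l})) := by
    intro l
    have := H_ge_of hΩ hK' hB (sg v ((univ : Finset (Fin p)).disjSum ({l} : Finset (Fin q))))
      ((univ : Finset (Fin p)).disjSum {l}) ((∅ : Finset (Fin p)).disjSum {l})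
      (by
        intro u hu w hw e1 e2 j hj
        rw [rs_eq] at e2
        rw [sg_disj, sg_disj, sum_singleton, sum_singleton] at e1
        have e3 : u (Sum.inr l) = w (Sum.inr l) := e2 _ (by simp)
        rw [e3] at e1
        have e4 := add_right_cancel e1
        rcases j with i | l'
        · exact inX u hu w hw e4 i
        · simp only [inr_mem_disjSum, mem_singleton] at hj
          rw [hj]; exact e3)
    rw [card_disjSum, card_disjSum, card_univ, Fintype.card_fin, card_singleton, card_empty] at this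
    push_cast at this
    linarith
  have hq1 : ((q - 1 : ℕ) : ℝ) = (q : ℝ) - 1 := by rw [Nat.cast_sub hq]; simp
  set R : Finset (Fin p) := lo p (q - 1) with hR
  have cR : (R.card : ℝ) = (q : ℝ) - 1 := by rw [hR, card_lo (by omega), hq1]
  have cRc : (Rᶜ.card : ℝ) = (p : ℝ) - q + 1 := by
    rw [card_compl, Fintype.card_fin, Nat.cast_sub (by rw [hR, card_lo (by omega)]; omega), cR]; ring
  have low2 : ((q : ℝ) - 1) * K - B ≤ H Ω (sg v (R.disjSum (∅ : Finset (Fin q)))) := by
    have := H_ge_of hΩ hK' hB (sg v (R.disjSum (∅ : Finset (Fin q))))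
      ((univ : Finset (Fin p)).disjSum ∅) (Rᶜ.disjSum ∅)
      (by
        intro u hu w hw e1 e2 j hj
        rw [rs_eq] at e2
        rw [sg_disj, sg_disj, sum_empty, sum_empty, add_zero, add_zero] at e1
        have e3 : ∀ i ∈ Rᶜ, v (u (Sum.inl i)) = v (w (Sum.inl i)) := by
          intro i hi
          rw [e2 (Sum.inl i) (by simpa using hi)]
        have e4 : ∑ i, v (u (Sum.inl i)) = ∑ i, v (w (Sum.inl i)) := by
          rw [← sum_add_sum_compl R, ← sum_add_sum_compl R (fun i => v (w (Sum.inl i))), e1,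
            sum_congr rfl e3]
        rcases j with i | l'
        · exact inX u hu w hw e4 i
        · simp at hj)
    rw [card_disjSum, card_disjSum, card_univ, Fintype.card_fin, card_empty] at this
    push_cast at this
    rw [cRc] at this
    linarith
  have low3 : (q : ℝ) * K - B ≤ H Ω (sg v (R.disjSum (univ : Finset (Fin q)))) := by
    have := H_ge_of hΩ hK' hB (sg v (R.disjSum (univ : Finset (Fin q))))
      (R.disjSum univ) (R.disjSum ∅)
      (by
        intro u hu w hw e1 e2 j hj
        rw [rs_eq] at e2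
        rw [sg_disj, sg_disj] at e1
        have e3 : ∀ i ∈ R, u (Sum.inl i) = w (Sum.inl i) := by
          intro i hi
          rw [e2 (Sum.inl i) (by simpa using hi)]
        rw [sum_congr rfl (fun i hi => by rw [e3 i hi] : ∀ i ∈ R, v (u (Sum.inl i)) =
          v (w (Sum.inl i)))] at e1
        have e4 := add_left_cancel e1
        rcases j with i | l'
        · exact e3 i (by simpa using hj)
        · exact inY u hu w hw e4 l')
    rw [card_disjSum, card_disjSum, card_univ, Fintype.card_fin, card_empty] at this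
    push_cast at this
    rw [cR] at this
    linarith
  -- phase 1
  set LL := Real.log V.card with hLL
  have ph1 : ∀ (l : Fin q) (d n : ℕ), n + d = p → q ≤ n + 1 →
      H Ω (sg v ((lo p n).disjSum {l})) ≤ H Ω (sg v ((univ : Finset (Fin p)).disjSum {l})) +
        d * (LL - H Ω (sg v ((univ : Finset (Fin p)).disjSum {l})) + B) := by
    intro l d
    induction d with
    | zero =>
      intro n hn _
      have : lo p n = univ := by
        ext r
        simp only [lo, mem_filter, mem_univ, true_and, iff_true]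
        omega
      rw [this]
      simp
    | succ d ih =>
      intro n hn hqn
      have hnp : n < p := by omega
      have ih1 := ih (n + 1) (by omega) (by omega)
      set i : Fin p := ⟨n, hnp⟩ with hi
      set S1 : Finset (Fin p) := univ.filter fun r => n < r.val with hS1
      have hs := H_sub hΩ hK' hB v ((lo p n).disjSum ({l} : Finset (Fin q)))
        (S1.disjSum (∅ : Finset (Fin q))) (({i} : Finset (Fin p)).disjSum (∅ : Finset (Fin q)))
        (by
          rw [disjoint_left]
          rintro (r | r) h1 h2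
          · simp [lo, hS1] at h1 h2; omega
          · simp at h2)
        (by
          rw [disjoint_left]
          rintro (r | r) h1 h2
          · simp [lo, hi] at h1 h2; rw [h2] at h1; simp at h1
          · simp at h2)
        (by
          rw [disjoint_left]
          rintro (r | r) h1 h2
          · simp [hS1, hi] at h1 h2; rw [h2] at h1; simp at h1
          · simp at h2)
      have u1 : (lo p n).disjSum ({l} : Finset (Fin q)) ∪ S1.disjSum ∅ ∪ ({i} : Finset (Fin p)).disjSum ∅
          = (univ : Finset (Fin p)).disjSum {l} := by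
        ext j
        rcases j with r | r
        · simp only [mem_union, inl_mem_disjSum, lo, hS1, mem_filter, mem_univ, true_and,
            mem_singleton, iff_true, hi, Fin.ext_iff]
          omega
        · simp
      have u2 : (lo p n).disjSum ({l} : Finset (Fin q)) ∪ ({i} : Finset (Fin p)).disjSum ∅
          = (lo p (n + 1)).disjSum {l} := by
        ext j
        rcases j with r | r
        · simp only [mem_union, inl_mem_disjSum, lo, mem_filter, mem_univ, true_and,
            mem_singleton, hi, Fin.ext_iff]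
          omega
        · simp
      have u3 : (lo p n).disjSum ({l} : Finset (Fin q)) ∪ S1.disjSum ∅
          = (univ.erase i).disjSum {l} := by
        ext j
        rcases j with r | r
        · simp only [mem_union, inl_mem_disjSum, lo, hS1, mem_filter, mem_univ, true_and,
            mem_erase, hi, Fin.ext_iff, ne_eq, and_true]
          omega
        · simp
      rw [u1, u2, u3] at hs
      have hle : H Ω (sg v ((univ.erase i).disjSum ({l} : Finset (Fin q)))) ≤ LL := by
        apply H_le_log hΩ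
        intro w hw
        rw [sg_disj, sum_singleton]
        have := hL w hw i l (by simpa [hi] using hqn)
        rw [sum_erase_eq_sub (mem_univ i)]
        exact this
      push_cast
      linarith
  set A := ((p : ℝ) - q + 1) * (LL + B) - ((p : ℝ) - q) * (p * K - B) with hA
  have hqR : (1 : ℝ) ≤ q := by exact_mod_cast hq
  have hqpR : (q : ℝ) ≤ p := by exact_mod_cast hqp
  have ph1' : ∀ l : Fin q, H Ω (sg v (R.disjSum {l})) ≤ A := by
    intro l
    have := ph1 l (p - (q - 1)) (q - 1) (by omega) (by omega)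
    have e : ((p - (q - 1) : ℕ) : ℝ) = (p : ℝ) - q + 1 := by
      rw [Nat.cast_sub (by omega), hq1]; ring
    rw [e] at this
    have h5 := low1 l
    have h6 : ((p : ℝ) - q) * (p * K - B) ≤
        ((p : ℝ) - q) * H Ω (sg v ((univ : Finset (Fin p)).disjSum {l})) :=
      mul_le_mul_of_nonneg_left h5 (by linarith)
    refine this.trans ?_
    rw [hA]
    linarith
  -- phase 2
  set hh := H Ω (sg v (R.disjSum (∅ : Finset (Fin q)))) with hhh
  have ph2 : ∀ T : Finset (Fin q), H Ω (sg v (R.disjSum T)) ≤ hh + T.card * (A - hh + B) := by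
    intro T
    induction T using Finset.induction_on with
    | empty => simp [hhh]
    | insert l T hl ih =>
      have hs := H_sub hΩ hK' hB v (R.disjSum (∅ : Finset (Fin q)))
        ((∅ : Finset (Fin p)).disjSum T) ((∅ : Finset (Fin p)).disjSum {l})
        (by
          rw [disjoint_left]
          rintro (r | r) h1 h2
          · simp at h2
          · simp at h1)
        (by
          rw [disjoint_left]
          rintro (r | r) h1 h2
          · simp at h2
          · simp at h1)
        (by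
          rw [disjoint_left]
          rintro (r | r) h1 h2
          · simp at h2
          · simp at h1 h2; rw [h2] at h1; exact hl h1)
      have u1 : R.disjSum (∅ : Finset (Fin q)) ∪ (∅ : Finset (Fin p)).disjSum T ∪
          (∅ : Finset (Fin p)).disjSum {l} = R.disjSum (insert l T) := by
        ext j
        rcases j with r | r
        · simp
        · simp only [mem_union, inr_mem_disjSum, notMem_empty, false_or, mem_singleton, mem_insert]
          tauto
      have u2 : R.disjSum (∅ : Finset (Fin q)) ∪ (∅ : Finset (Fin p)).disjSum T = R.disjSum T := by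
        ext j
        rcases j with r | r <;> simp
      have u3 : R.disjSum (∅ : Finset (Fin q)) ∪ (∅ : Finset (Fin p)).disjSum {l} =
          R.disjSum {l} := by
        ext j
        rcases j with r | r <;> simp
      rw [u1, u2, u3] at hs
      have := ph1' l
      rw [card_insert_of_notMem hl]
      push_cast
      nlinarith
  have h5 := ph2 univ
  rw [card_univ, Fintype.card_fin] at h5
  have h6 : A ≤ ((q : ℝ) - 1) * K + (((p : ℝ) - q + 1) * (a + B) + ((p : ℝ) - q) * B) := by
    rw [hA]
    have : ((p : ℝ) - q + 1) * (LL + B) ≤ ((p : ℝ) - q + 1) * (((p : ℝ) - 1) * K + a + B) := by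
      apply mul_le_mul_of_nonneg_left _ (by linarith)
      linarith
    nlinarith
  have h7 : (q : ℝ) * A ≤
      q * (((q : ℝ) - 1) * K + (((p : ℝ) - q + 1) * (a + B) + ((p : ℝ) - q) * B)) :=
    mul_le_mul_of_nonneg_left h6 (by linarith)
  have h8 : ((q : ℝ) - 1) * (((q : ℝ) - 1) * K - B) ≤ ((q : ℝ) - 1) * hh :=
    mul_le_mul_of_nonneg_left low2 (by linarith)
  nlinarith

end

/-- **The key lemma.** -/
theorem thm_Key (p b C : ℕ) (hb : 1 ≤ b) (hbp : b ≤ p) {G : Type} [AddCommGroup G] {k : ℕ}
    (al : Fin k → G) (Om : Finset ((Fin p → Fin k) × (Fin b → Fin k))) (V : Finset G)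
    (hk : C ^ (3 * p ^ 2 + 2 * p) < k)
    (hX : ∀ u ∈ Om, ∀ w ∈ Om, ∑ i, al (u.1 i) = ∑ i, al (w.1 i) → u.1 = w.1)
    (hY : ∀ u ∈ Om, ∀ w ∈ Om, ∑ i, al (u.2 i) = ∑ i, al (w.2 i) → u.2 = w.2)
    (c1 : k ^ (p + b) ≤ C * Om.card) (c2 : k * V.card ≤ C * k ^ p)
    (hL : ∀ u ∈ Om, ∀ i : Fin p, ∀ l : Fin b, b ≤ i.val + 1 →
      (∑ r, al (u.1 r)) - al (u.1 i) + al (u.2 l) ∈ V) : False := by
  have hk0 : 0 < k := by omega
  have hkR : (0 : ℝ) < k := by exact_mod_cast hk0
  have hC : 0 < C := by
    rcases Nat.eq_zero_or_pos C with h | h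
    · rw [h] at c1
      have : 0 < k ^ (p + b) := pow_pos hk0 _
      omega
    · exact h
  have hOc : 0 < Om.card := by
    rcases Nat.eq_zero_or_pos Om.card with h | h
    · rw [h] at c1
      have : 0 < k ^ (p + b) := pow_pos hk0 _
      omega
    · exact h
  obtain ⟨u0, hu0⟩ := card_pos.1 hOc
  have hVc : 0 < V.card :=
    card_pos.2 ⟨_, hL u0 hu0 ⟨p - 1, by omega⟩ ⟨0, by omega⟩ (by simp; omega)⟩
  set E := (Equiv.sumArrowEquivProdArrow (Fin p) (Fin b) (Fin k)).symm with hE
  set Ω := Om.map E.toEmbedding with hΩ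
  have mem : ∀ w ∈ Ω, ((fun i => w (Sum.inl i)), (fun l => w (Sum.inr l))) ∈ Om := by
    intro w hw
    rw [hΩ, mem_map_equiv] at hw
    exact hw
  have cΩ : Ω.card = Om.card := card_map _
  set K := Real.log k with hKd
  set c := Real.log C with hc
  have hCR : (0 : ℝ) < C := by exact_mod_cast hC
  have hc0 : 0 ≤ c := Real.log_natCast_nonneg C
  have l1 : ((p : ℝ) + b) * K - c ≤ Real.log Ω.card := by
    have h := Real.log_le_log (by positivity : (0 : ℝ) < (k : ℝ) ^ (p + b))
      (by exact_mod_cast c1 : (k : ℝ) ^ (p + b) ≤ C * Om.card)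
    rw [Real.log_pow, Real.log_mul hCR.ne' (by exact_mod_cast hOc.ne')] at h
    push_cast at h
    rw [cΩ]
    linarith
  have l4 : Real.log V.card ≤ ((p : ℝ) - 1) * K + c := by
    have h := Real.log_le_log (by positivity : (0 : ℝ) < (k : ℝ) * V.card)
      (by exact_mod_cast c2 : (k : ℝ) * V.card ≤ C * (k : ℝ) ^ p)
    rw [Real.log_mul hCR.ne' (by positivity), Real.log_pow,
      Real.log_mul hkR.ne' (by exact_mod_cast hVc.ne')] at h
    linarith
  have main := KL_aux (v := al) hb hbp Ω V (by rw [← card_pos, cΩ]; exact hOc)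
    (fun u hu w hw e i => congrFun (hX _ (mem u hu) _ (mem w hw) e) i)
    (fun u hu w hw e i => congrFun (hY _ (mem u hu) _ (mem w hw) e) i)
    (fun w hw i l h => hL _ (mem w hw) i l h) K c c hKd l1 l4
  have hbR : (1 : ℝ) ≤ b := by exact_mod_cast hb
  have hbpR : (b : ℝ) ≤ p := by exact_mod_cast hbp
  have m1 : K ≤ (3 * (p : ℝ) ^ 2 + 2 * p) * c := by
    have e1 : (b : ℝ) * (((p : ℝ) - b + 1) * (c + c) + ((p : ℝ) - b) * c) + 2 * b * c =
        (b * (3 * ((p : ℝ) - b) + 2) + 2 * b) * c := by ring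
    rw [e1] at main
    refine main.trans (mul_le_mul_of_nonneg_right ?_ hc0)
    have h9 : (b : ℝ) * ((p : ℝ) - b + 1) ≤ p * p := by
      apply mul_le_mul hbpR (by linarith) (by linarith) (by linarith)
    nlinarith
  have m2 : (k : ℝ) ≤ (C : ℝ) ^ (3 * p ^ 2 + 2 * p) := by
    rw [← Real.log_le_log_iff hkR (by positivity), Real.log_pow]
    push_cast
    exact m1
  have m3 : k ≤ C ^ (3 * p ^ 2 + 2 * p) := by exact_mod_cast m2
  omega

/-- The key lemma for a product set. -/
theorem thm_KL (p q : ℕ) (hq : 1 ≤ q) (hqp : q ≤ p) (C : ℕ) : ∃ N : ℕ,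
    ∀ (G : Type) [AddCommGroup G] (k : ℕ) (t : Fin k → G)
      (XX : Finset (Fin p → Fin k)) (YY : Finset (Fin q → Fin k)) (Lo : Finset G), N ≤ k →
      Set.InjOn (fun x : Fin p → Fin k => ∑ i, t (x i)) XX →
      Set.InjOn (fun y : Fin q → Fin k => ∑ l, t (y l)) YY →
      k ^ p ≤ C * XX.card → k ^ q ≤ C * YY.card → k * Lo.card ≤ C * k ^ p →
      (∀ x ∈ XX, ∀ y ∈ YY, ∀ i : Fin p, ∀ l : Fin q, q ≤ i.val + 1 →
        (∑ r, t (x r)) - t (x i) + t (y l) ∈ Lo) → False := by
  refine ⟨(C * C) ^ (3 * p ^ 2 + 2 * p) + 1, ?_⟩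
  intro G _ k t XX YY Lo hN hX hY c1 c2 c4 hL
  have hk : 0 < k := by omega
  have hC : 0 < C := by
    rcases Nat.eq_zero_or_pos C with h | h
    · rw [h] at c1
      have : 0 < k ^ p := pow_pos hk p
      omega
    · exact h
  refine thm_Key p q (C * C) hq hqp t (XX ×ˢ YY) Lo (by omega) ?_ ?_ ?_ ?_ ?_
  · intro u hu w hw e
    rw [mem_product] at hu hw
    exact hX hu.1 hw.1 e
  · intro u hu w hw e
    rw [mem_product] at hu hw
    exact hY hu.2 hw.2 e
  · rw [card_product, pow_add]
    calc k ^ p * k ^ q ≤ (C * XX.card) * (C * YY.card) := Nat.mul_le_mul c1 c2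
      _ = C * C * (XX.card * YY.card) := by ring
  · exact c4.trans (Nat.mul_le_mul_right _ (Nat.le_mul_of_pos_left C hC))
  · intro u hu i l hil
    rw [mem_product] at hu
    exact hL _ hu.1 _ hu.2 i l hil

end Pool.Agent.WLW.Ent
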