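import Pool.Agent.WLW.StL
import Pool.Agent.WLW.KLm

/-!
# WLW KeyL: the key lemma for the group `ZMod m` (adapter for `Ent.thm_Key`)
-/

set_option autoImplicit false

namespace Pool.Agent.WLW

open Finset Pool.Agent.WLK

theorem thm_Key : St_Key := by
  intro p b C hb hbp k m al Ω V hk hX hY hO hV hL
  exact Ent.thm_Key p b C hb hbp al Ω V hk hX hY hO hV (fun u hu i l hi => hL u hu i hi l)

end Pool.Agent.WLW
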