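import Pool.Agent.WLW.St

/-! WLW: three counts of sets with `p` elements. -/

set_option autoImplicit false

namespace Pool.Agent.WLW

open Finset Pool.Agent.WLK

private theorem LPa_card {k p : ℕ} {y : Fin k → ℕ} (h1 : ∀ i, y i ≤ 1) (h2 : ∑ i, y i = p) :
    (su y).card = p := by
  unfold su
  rw [Finset.card_filter, ← h2]
  refine Finset.sum_congr rfl fun i _ => ?_
  have := h1 i
  by_cases h : y i = 0
  · simp [h]
  · rw [if_pos h]
    omega

private theorem LPa_inj {k : ℕ} {y z : Fin k → ℕ} (h1 : ∀ i, y i ≤ 1) (h2 : ∀ i, z i ≤ 1)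
    (h : su y = su z) : y = z := by
  funext i
  have h3 := congrArg (fun s : Finset (Fin k) => i ∈ s) h
  simp only [su, Finset.mem_filter, Finset.mem_univ, true_and, eq_iff_iff] at h3
  have h4 := h1 i
  have h5 := h2 i
  by_cases hy : y i = 0
  · have : z i = 0 := by
      by_contra hz
      exact (h3.2 hz) hy
    omega
  · have : z i ≠ 0 := h3.1 hy
    omega

theorem thm_LPa : St_LPa := by
  intro k p G hG
  have hinj : ∀ H : Finset (Fin k → ℕ), H ⊆ G → Set.InjOn su (H : Set (Fin k → ℕ)) := by
    intro H hH y hy z hz h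
    exact LPa_inj (hG y (hH hy)).1 (hG z (hH hz)).1 h
  have hcard : ∀ y ∈ G, (su y).card = p := fun y hy => LPa_card (hG y hy).1 (hG y hy).2
  refine ⟨fun Z => ?_, fun Z hZ => ?_, fun Z hp => ?_⟩
  · rw [← Finset.card_powersetCard p Z]
    refine Finset.card_le_card_of_injOn su ?_ (hinj _ (Finset.filter_subset _ _))
    intro y hy
    have hy' := Finset.mem_filter.1 (Finset.mem_coe.1 hy)
    exact Finset.mem_coe.2 (Finset.mem_powersetCard.2 ⟨hy'.2, hcard y hy'.1⟩)
  · have h1 : (G.image su).card = G.card := Finset.card_image_of_injOn (hinj G (Finset.Subset.refl _))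
    have h2 : Disjoint (Finset.powersetCard p Z) (G.image su) := by
      rw [Finset.disjoint_left]
      intro s hs hs'
      obtain ⟨y, hy, rfl⟩ := Finset.mem_image.1 hs'
      exact hZ y hy (Finset.mem_powersetCard.1 hs).1
    have h3 : Finset.powersetCard p Z ∪ G.image su ⊆
        Finset.powersetCard p (Finset.univ : Finset (Fin k)) := by
      intro s hs
      rcases Finset.mem_union.1 hs with hs | hs
      · exact Finset.mem_powersetCard.2 ⟨Finset.subset_univ _, (Finset.mem_powersetCard.1 hs).2⟩
      · obtain ⟨y, hy, rfl⟩ := Finset.mem_image.1 hs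
        exact Finset.mem_powersetCard.2 ⟨Finset.subset_univ _, hcard y hy⟩
    have h4 := Finset.card_le_card h3
    rw [Finset.card_union_of_disjoint h2, Finset.card_powersetCard, Finset.card_powersetCard, h1,
      Finset.card_univ, Fintype.card_fin] at h4
    exact h4
  · have h1 : (G.filter fun y => ¬ Disjoint (su y) Z) ⊆
        Z.biUnion fun z => G.filter fun y => z ∈ su y := by
      intro y hy
      obtain ⟨hy1, hy2⟩ := Finset.mem_filter.1 hy
      rw [Finset.not_disjoint_iff] at hy2
      obtain ⟨z, hz1, hz2⟩ := hy2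
      exact Finset.mem_biUnion.2 ⟨z, hz2, Finset.mem_filter.2 ⟨hy1, hz1⟩⟩
    refine (Finset.card_le_card h1).trans ?_
    refine Finset.card_biUnion_le_card_mul Z _ (k ^ (p - 1)) fun z _ => ?_
    have h2 : (G.filter fun y => z ∈ su y).card ≤
        (Finset.powersetCard (p - 1) (Finset.univ : Finset (Fin k))).card := by
      refine Finset.card_le_card_of_injOn (fun y => (su y).erase z) ?_ ?_
      · intro y hy
        obtain ⟨hy1, hy2⟩ := Finset.mem_filter.1 (Finset.mem_coe.1 hy)
        refine Finset.mem_coe.2 (Finset.mem_powersetCard.2 ⟨Finset.subset_univ _, ?_⟩)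
        rw [Finset.card_erase_of_mem hy2, hcard y hy1]
      · intro y hy w hw h
        obtain ⟨hy1, hy2⟩ := Finset.mem_filter.1 (Finset.mem_coe.1 hy)
        obtain ⟨hw1, hw2⟩ := Finset.mem_filter.1 (Finset.mem_coe.1 hw)
        have h' : (su y).erase z = (su w).erase z := h
        have h3 : su y = su w := by
          rw [← Finset.insert_erase hy2, h', Finset.insert_erase hw2]
        exact hinj G (Finset.Subset.refl _) (Finset.mem_coe.2 hy1) (Finset.mem_coe.2 hw1) h3
    refine h2.trans ?_
    rw [Finset.card_powersetCard, Finset.card_univ, Fintype.card_fin]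
    exact Nat.choose_le_pow k (p - 1)

end Pool.Agent.WLW
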