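import Pool.Agent.WLW.St

/-! LPB: letters below and above the average: the counts. -/

set_option autoImplicit false

namespace Pool.Agent.WLW

open Finset Pool.Agent.WLK Pool.Agent.Helper60.Wilf Pool.Agent.Helper82.Wilf

theorem LPb_cnt (m p : ℕ) (hp : 1 ≤ p) (P : ℕ → Prop) [DecidablePred P] (f : ℕ → ℕ)
    (hf : Set.InjOn f (range (m / (2 * p)) : Finset ℕ))
    (h : ∀ j, j < m / (2 * p) → f j < m ∧ P (f j)) :
    (m : ℝ) / (2 * p) - 1 ≤ ((range m).filter P).card := by
  have h1 : m / (2 * p) ≤ ((range m).filter P).card := by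
    rw [← card_range (m / (2 * p)), ← card_image_of_injOn hf]
    refine card_le_card ?_
    intro x hx
    obtain ⟨j, hj, rfl⟩ := mem_image.1 hx
    have := h j (mem_range.1 hj)
    exact mem_filter.2 ⟨mem_range.2 this.1, this.2⟩
  have h2 : m < 2 * p * (m / (2 * p) + 1) := Nat.lt_mul_div_succ m (by omega)
  have h3 : (m : ℝ) < 2 * p * ((m / (2 * p) : ℕ) + 1) := by exact_mod_cast h2
  have hp' : (0 : ℝ) < 2 * p := by
    have : (1 : ℝ) ≤ p := by exact_mod_cast hp
    linarith
  have h4 : (m : ℝ) / (2 * p) < ((m / (2 * p) : ℕ) : ℝ) + 1 := by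
    rw [div_lt_iff₀ hp']
    linarith
  have h5 : ((m / (2 * p) : ℕ) : ℝ) ≤ ((range m).filter P).card := by exact_mod_cast h1
  linarith

theorem LPb_G (hRes : St_Res) {k m M : ℕ} {a : Fin k → ℕ} {T : Finset (Fin k → ℕ)}
    (h : Ty m M a T) (p : ℕ) (P : ℕ → Prop) [DecidablePred P] :
    (((range m).filter P).card : ℝ) - (m - (Gd m M a T p).card) ≤
      ((Gd m M a T p).filter fun y => P (rr m M a y)).card := by
  have h3 := (hRes k m M a T h).2.2.1 (fun j => if P j then 1 else 0)
  rw [sum_boole, sum_boole] at h3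
  have hs : Gd m M a T p ⊆ T := fun y hy => (mem_filter.1 (mem_filter.1 hy).1).1
  have h4 : (T.filter fun y => P (rr m M a y)) ⊆
      ((Gd m M a T p).filter fun y => P (rr m M a y)) ∪ (T \ Gd m M a T p) := by
    intro y hy
    have hy' := mem_filter.1 hy
    by_cases hG : y ∈ Gd m M a T p
    · exact mem_union_left _ (mem_filter.2 ⟨hG, hy'.2⟩)
    · exact mem_union_right _ (mem_sdiff.2 ⟨hy'.1, hG⟩)
  have h5 := (card_le_card h4).trans (card_union_le _ _)
  have h6 : (T \ Gd m M a T p).card + (Gd m M a T p).card = m := by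
    rw [card_sdiff_add_card_eq_card hs, h.card]
  have h7 : ((T.filter fun y => P (rr m M a y)).card : ℝ) ≤
      ((Gd m M a T p).filter fun y => P (rr m M a y)).card + (T \ Gd m M a T p).card := by
    exact_mod_cast h5
  have h8 : ((T \ Gd m M a T p).card : ℝ) + (Gd m M a T p).card = m := by exact_mod_cast h6
  linarith

theorem LPb_sum (hRes : St_Res) {k m M : ℕ} {a : Fin k → ℕ} {T : Finset (Fin k → ℕ)}
    (h : Ty m M a T) (p : ℕ) : ∀ y ∈ Gd m M a T p,
    (su y).card = p ∧ rr m M a y < m ∧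
      ∑ i ∈ su y, ((p : ℤ) * a i - M + m) = p * (m - rr m M a y) := by
  intro y hy
  obtain ⟨hy1, hff⟩ := mem_filter.1 hy
  obtain ⟨hyT, hy1, hyp⟩ := mem_filter.1 hy1
  have h1 := (hRes k m M a T h).1 y hyT
  rw [hff, mul_zero, add_zero] at h1
  have hv : ∀ i, y i = if i ∈ su y then 1 else 0 := by
    intro i
    have := hy1 i
    by_cases hi : i ∈ su y
    · rw [if_pos hi]
      have := (mem_filter.1 hi).2
      omega
    · rw [if_neg hi]
      by_contra hne
      exact hi (mem_filter.2 ⟨mem_univ i, hne⟩)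
  have hc : (su y).card = p := by
    rw [← hyp, card_eq_sum_ones, ← sum_filter_add_sum_filter_not univ (fun i => y i ≠ 0)]
    have e1 : ∑ i ∈ univ.filter (fun i => ¬ y i ≠ 0), y i = 0 :=
      sum_eq_zero fun i hi => not_not.1 (mem_filter.1 hi).2
    rw [e1, add_zero]
    exact sum_congr rfl fun i hi => by
      rw [hv i]
      exact (if_pos hi).symm
  have hsw : sw a y = ∑ i ∈ su y, a i := by
    unfold sw
    rw [← sum_filter_add_sum_filter_not univ (fun i => y i ≠ 0)]
    have e1 : ∑ i ∈ univ.filter (fun i => ¬ y i ≠ 0), a i * y i = 0 :=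
      sum_eq_zero fun i hi => by rw [not_not.1 (mem_filter.1 hi).2, mul_zero]
    rw [e1, add_zero]
    exact sum_congr rfl fun i hi => by rw [hv i, if_pos hi, mul_one]
  refine ⟨hc, (hRes k m M a T h).2.1 y, ?_⟩
  rw [sum_add_distrib, sum_sub_distrib, ← mul_sum, sum_const, sum_const, hc]
  have h2 : ((∑ i ∈ su y, (a i : ℤ)) : ℤ) = (sw a y : ℕ) := by
    rw [hsw]
    push_cast
    rfl
  rw [h2]
  have h3 : ((sw a y : ℕ) : ℤ) + (rr m M a y : ℕ) = (M : ℤ) := by exact_mod_cast h1
  rw [← h3]
  simp only [nsmul_eq_mul]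
  ring

theorem thm_LPb (hLPa : St_LPa) (hRes : St_Res) : St_LPb := by
  intro k m M a T h p hp _
  have hG := LPb_sum hRes h p
  set G := Gd m M a T p with hGd
  obtain ⟨l1, l2, l3⟩ := hLPa k p G (fun y hy => (mem_filter.1 (mem_filter.1 hy).1).2)
  let b : Fin k → ℤ := fun i => (p : ℤ) * a i - M + m
  have hS : ∀ y ∈ G, ∑ i ∈ su y, b i = p * (m - rr m M a y) := fun y hy => (hG y hy).2.2
  let Lo : Finset (Fin k) := univ.filter fun i => b i ≤ 0
  let Hi : Finset (Fin k) := univ.filter fun i => (m : ℤ) < b i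
  let A : Finset (Fin k) := univ.filter fun i => 0 < b i ∧ 2 * b i ≤ m
  let B : Finset (Fin k) := univ.filter fun i => (m : ℤ) < 2 * b i ∧ b i ≤ m
  have hle : ∀ Z : Finset (Fin k), Z.card ≤ k := by
    intro Z
    have := card_le_univ Z
    rwa [Fintype.card_fin] at this
  have hp0 : (1 : ℤ) ≤ p := by exact_mod_cast hp
  refine ⟨Lo.card, Hi.card, A.card, B.card, ?_, hle _, hle _, l2 Lo ?_, l2 Hi ?_, ?_, ?_⟩
  · rw [← card_union_of_disjoint]
    · exact hle _
    · rw [disjoint_left]
      intro i hi hi'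
      have h1 := (mem_filter.1 hi).2
      have h2 := (mem_filter.1 hi').2
      linarith [h1.2, h2.1]
  · intro y hy hs
    have h1 := hS y hy
    have h2 : ∑ i ∈ su y, b i ≤ 0 := sum_nonpos fun i hi => (mem_filter.1 (hs hi)).2
    have h3 : (1 : ℤ) ≤ m - rr m M a y := by
      have := (hG y hy).2.1
      omega
    rw [h1] at h2
    nlinarith
  · intro y hy hs
    have h1 := hS y hy
    have h2 : ∑ i ∈ su y, ((m : ℤ) + 1) ≤ ∑ i ∈ su y, b i :=
      sum_le_sum fun i hi => (mem_filter.1 (hs hi)).2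
    rw [sum_const, (hG y hy).1, nsmul_eq_mul, h1] at h2
    have h3 : (0 : ℤ) ≤ rr m M a y := Int.natCast_nonneg _
    nlinarith
  · have c1 : (m : ℝ) / (2 * p) - 1 ≤ ((range m).filter fun j => 2 * p * (m - j) ≤ m).card := by
      refine LPb_cnt m p hp _ (fun j => m - (j + 1)) ?_ ?_
      · intro x hx y hy hxy
        have hx' : x < m / (2 * p) := by simpa using hx
        have hy' : y < m / (2 * p) := by simpa using hy
        have h1 : m / (2 * p) ≤ m := Nat.div_le_self _ _
        have h2 : m - (x + 1) = m - (y + 1) := hxy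
        omega
      · intro j hj
        have h1 : m / (2 * p) ≤ m := Nat.div_le_self _ _
        refine ⟨by omega, ?_⟩
        have h2 : m - (m - (j + 1)) = j + 1 := by omega
        show 2 * p * (m - (m - (j + 1))) ≤ m
        rw [h2]
        exact (Nat.mul_le_mul_left _ (by omega : j + 1 ≤ m / (2 * p))).trans
          (Nat.mul_div_le _ _)
    have c2 := LPb_G hRes h p (fun j => 2 * p * (m - j) ≤ m)
    have c3 : (G.filter fun y => 2 * p * (m - rr m M a y) ≤ m) ⊆
        (G.filter fun y => su y ⊆ A) ∪ (G.filter fun y => ¬ Disjoint (su y) Lo) := by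
      intro y hy
      obtain ⟨hy1, hy2⟩ := mem_filter.1 hy
      by_cases hd : Disjoint (su y) Lo
      · refine mem_union_left _ (mem_filter.2 ⟨hy1, fun i hi => ?_⟩)
        have hpos : ∀ j ∈ su y, 0 < b j := by
          intro j hj
          by_contra hn
          exact disjoint_left.1 hd hj (mem_filter.2 ⟨mem_univ j, not_lt.1 hn⟩)
        have h1 : b i ≤ ∑ j ∈ su y, b j :=
          single_le_sum (f := b) (fun j hj => (hpos j hj).le) hi
        rw [hS y hy1] at h1
        have h2 : (2 : ℤ) * p * (m - rr m M a y) ≤ m := by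
          have h3 := (hG y hy1).2.1
          zify [h3.le] at hy2
          exact hy2
        refine mem_filter.2 ⟨mem_univ i, hpos i hi, ?_⟩
        linarith
      · exact mem_union_right _ (mem_filter.2 ⟨hy1, hd⟩)
    have c4 := (card_le_card c3).trans (card_union_le _ _)
    have c5 := c4.trans (Nat.add_le_add (l1 A) (l3 Lo hp))
    have c6 : ((G.filter fun y => 2 * p * (m - rr m M a y) ≤ m).card : ℝ) ≤
        A.card.choose p + Lo.card * (k : ℝ) ^ (p - 1) := by exact_mod_cast c5
    linarith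
  · have c1 : (m : ℝ) / (2 * p) - 1 ≤ ((range m).filter fun j => 2 * p * j < m).card := by
      refine LPb_cnt m p hp _ (fun j => j) (fun x _ y _ hxy => hxy) ?_
      intro j hj
      have h1 : m / (2 * p) ≤ m := Nat.div_le_self _ _
      refine ⟨by omega, ?_⟩
      show 2 * p * j < m
      have h2 : 2 * p * (j + 1) ≤ m :=
        (Nat.mul_le_mul_left _ (by omega : j + 1 ≤ m / (2 * p))).trans (Nat.mul_div_le _ _)
      have h3 : 2 * p * j < 2 * p * (j + 1) := Nat.mul_lt_mul_of_pos_left (by omega) (by omega)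
      omega
    have c2 := LPb_G hRes h p (fun j => 2 * p * j < m)
    have c3 : (G.filter fun y => 2 * p * rr m M a y < m) ⊆
        (G.filter fun y => su y ⊆ B) ∪ (G.filter fun y => ¬ Disjoint (su y) Hi) := by
      intro y hy
      obtain ⟨hy1, hy2⟩ := mem_filter.1 hy
      by_cases hd : Disjoint (su y) Hi
      · refine mem_union_left _ (mem_filter.2 ⟨hy1, fun i hi => ?_⟩)
        have hle' : ∀ j ∈ su y, b j ≤ m := by
          intro j hj
          by_contra hn
          exact disjoint_left.1 hd hj (mem_filter.2 ⟨mem_univ j, not_le.1 hn⟩)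
        have h1 : b i + ∑ j ∈ (su y).erase i, b j = ∑ j ∈ su y, b j := add_sum_erase _ _ hi
        have h2 : ∑ j ∈ (su y).erase i, b j ≤ ∑ j ∈ (su y).erase i, (m : ℤ) :=
          sum_le_sum fun j hj => hle' j (mem_of_mem_erase hj)
        rw [sum_const, card_erase_of_mem hi, (hG y hy1).1, nsmul_eq_mul,
          Nat.cast_sub hp] at h2
        rw [hS y hy1] at h1
        have h3 : (2 : ℤ) * p * rr m M a y < m := by exact_mod_cast hy2
        refine mem_filter.2 ⟨mem_univ i, ?_, hle' i hi⟩
        push_cast at h2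
        nlinarith
      · exact mem_union_right _ (mem_filter.2 ⟨hy1, hd⟩)
    have c4 := (card_le_card c3).trans (card_union_le _ _)
    have c5 := c4.trans (Nat.add_le_add (l1 B) (l3 Hi hp))
    have c6 : ((G.filter fun y => 2 * p * rr m M a y < m).card : ℝ) ≤
        B.card.choose p + Hi.card * (k : ℝ) ^ (p - 1) := by exact_mod_cast c5
    linarith

end Pool.Agent.WLW
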