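import Pool.Agent.WLW.St

/-!
# WLW, module LPc: arithmetic with binomials
-/

set_option autoImplicit false

namespace Pool.Agent.WLW

open Finset Pool.Agent.WLK

/-- the bound of `lo * k ^ (p - 1)` -/
private lemma LPc_lo (p k m l : ℕ) (g h η : ℝ) (hp : 3 ≤ p) (hη : η = 1 / (100 * p * (p.factorial : ℝ)))
    (hh : h = η ^ p / 4) (hk : 100 * p ^ 2 * p.factorial ≤ k)
    (hkm : (k : ℝ) ^ p ≤ (1 + h) * ((p.factorial : ℝ) * m)) (hg : (1 - h) * m ≤ g)
    (hl : (l.choose p : ℝ) + g ≤ k.choose p) :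
    (l : ℝ) * (k : ℝ) ^ (p - 1) ≤ m / (20 * p) := by
  have hp0 : (3 : ℝ) ≤ p := by exact_mod_cast hp
  have hP : (6 : ℝ) ≤ (p.factorial : ℝ) := by
    have := Nat.factorial_le hp
    have h6 : (3 : ℕ).factorial = 6 := rfl
    rw [h6] at this
    exact_mod_cast this
  set P : ℝ := (p.factorial : ℝ) with hPdef
  have hη0 : 0 < η := by rw [hη]; positivity
  have hη1 : η ≤ 1 / 100 := by
    rw [hη]
    refine div_le_div_of_nonneg_left (by norm_num) (by norm_num) ?_
    nlinarith
  have hηp : η ^ p ≤ η := pow_le_of_le_one hη0.le (by linarith) (by omega)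
  have hh0 : 0 < h := by rw [hh]; positivity
  have hh1 : h ≤ 1 / 400 := by rw [hh]; linarith
  have hm0 : (0 : ℝ) ≤ m := by positivity
  have hkR : (100 * p ^ 2 * P : ℝ) ≤ k := by
    have : ((100 * p ^ 2 * p.factorial : ℕ) : ℝ) ≤ k := by exact_mod_cast hk
    push_cast at this
    exact this
  have hk0 : (0 : ℝ) < k := by
    have : (0 : ℝ) < 100 * p ^ 2 * P := by positivity
    linarith
  have hch : (k.choose p : ℝ) ≤ (k : ℝ) ^ p / P := Nat.choose_le_pow_div p k
  have hPpos : 0 < P := by linarith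
  have hkP : (k : ℝ) ^ p / P ≤ (1 + h) * m := by
    rw [div_le_iff₀ hPpos]
    nlinarith
  have hlc : (l.choose p : ℝ) ≤ 2 * h * m := by
    have : (1 + h) * m - (1 - h) * m = 2 * h * m := by ring
    linarith
  have hl0 : (0 : ℝ) ≤ (l.choose p : ℝ) := by positivity
  have hPm : P * m ≤ 2 * (k : ℝ) ^ p := by
    have h1 : (1 - h) * m ≤ (k : ℝ) ^ p / P := by linarith
    rw [le_div_iff₀ hPpos] at h1
    have h2 : (1 / 2 : ℝ) * (m * P) ≤ (1 - h) * m * P := by
      have : (0 : ℝ) ≤ m * P := by positivity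
      nlinarith
    nlinarith
  have hle : (l : ℝ) ≤ p + η * k := by
    rcases lt_or_ge l p with hlp | hlp
    · have : (l : ℝ) ≤ p := by exact_mod_cast hlp.le
      have : 0 ≤ η * k := by positivity
      linarith
    · have h1 : (l + 1 - p) ^ p ≤ l.descFactorial p := Nat.pow_sub_le_descFactorial l p
      have h2 : l.descFactorial p = p.factorial * l.choose p :=
        Nat.descFactorial_eq_factorial_mul_choose l p
      rw [h2] at h1
      have h3 : ((l + 1 - p : ℕ) : ℝ) ^ p ≤ P * (l.choose p : ℝ) := by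
        rw [hPdef]
        exact_mod_cast h1
      have h4 : P * (l.choose p : ℝ) ≤ (η * k) ^ p := by
        calc P * (l.choose p : ℝ) ≤ P * (2 * h * m) := by
              exact mul_le_mul_of_nonneg_left hlc hPpos.le
          _ = 2 * h * (P * m) := by ring
          _ ≤ 2 * h * (2 * (k : ℝ) ^ p) := by
              exact mul_le_mul_of_nonneg_left hPm (by positivity)
          _ = η ^ p * (k : ℝ) ^ p := by rw [hh]; ring
          _ = (η * k) ^ p := by rw [mul_pow]
      have h5 : ((l + 1 - p : ℕ) : ℝ) ≤ η * k := by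
        refine le_of_pow_le_pow_left₀ (by omega) (by positivity) (h3.trans h4)
      have h6 : ((l + 1 - p : ℕ) : ℝ) = (l : ℝ) + 1 - p := by
        rw [Nat.cast_sub (by omega)]
        push_cast
        ring
      rw [h6] at h5
      linarith
  have hsp : (k : ℝ) ^ p = k * (k : ℝ) ^ (p - 1) := by
    rw [← pow_succ']
    rw [show p - 1 + 1 = p by omega]
  have hk1 : (0 : ℝ) < (k : ℝ) ^ (p - 1) := by positivity
  have hkp2 : (k : ℝ) ^ p ≤ 2 * (P * m) := by
    have : (0 : ℝ) ≤ P * m := by positivity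
    nlinarith
  have h7 : (l : ℝ) * (k : ℝ) ^ (p - 1) ≤ p * (k : ℝ) ^ (p - 1) + η * (k : ℝ) ^ p := by
    rw [hsp]
    have := mul_le_mul_of_nonneg_right hle hk1.le
    nlinarith
  have h8 : p * (k : ℝ) ^ (p - 1) ≤ η * (k : ℝ) ^ p := by
    rw [hsp]
    have h9 : (p : ℝ) ≤ η * k := by
      have : η * (100 * p ^ 2 * P) = p := by
        rw [hη]
        field_simp
      have h10 := mul_le_mul_of_nonneg_left hkR hη0.le
      linarith
    have := mul_le_mul_of_nonneg_right h9 hk1.le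
    nlinarith
  have h11 : 2 * η * (k : ℝ) ^ p ≤ m / (20 * p) := by
    have h12 : 2 * η * (k : ℝ) ^ p ≤ 2 * η * (2 * (P * m)) :=
      mul_le_mul_of_nonneg_left hkp2 (by positivity)
    have h13 : 2 * η * (2 * (P * m)) = m / (25 * p) := by
      rw [hη]
      field_simp
      ring
    have h14 : (m : ℝ) / (25 * p) ≤ m / (20 * p) := by
      refine div_le_div_of_nonneg_left hm0 (by positivity) ?_
      nlinarith
    linarith
  linarith

/-- the lower bound of `X ^ p` -/
private lemma LPc_up (p k m l X : ℕ) (g h : ℝ) (hp : 3 ≤ p)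
    (hh1 : h ≤ 1 / (100 * p)) (hm : 100 * p ≤ m) (hg : (1 - h) * m ≤ g)
    (hl : (l : ℝ) * (k : ℝ) ^ (p - 1) ≤ m / (20 * p))
    (hX : (m : ℝ) / (2 * p) - 1 - (m - g) ≤ X.choose p + l * (k : ℝ) ^ (p - 1)) :
    17 / 20 * ((p.factorial : ℝ) * m / (2 * p)) ≤ (X : ℝ) ^ p := by
  have hp0 : (3 : ℝ) ≤ p := by exact_mod_cast hp
  have hm0 : (0 : ℝ) ≤ m := by positivity
  have hmR : (100 * p : ℝ) ≤ m := by exact_mod_cast hm
  have hPpos : (0 : ℝ) < (p.factorial : ℝ) := by positivity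
  have hch : (X.choose p : ℝ) ≤ (X : ℝ) ^ p / (p.factorial : ℝ) := Nat.choose_le_pow_div p X
  have h1 : (1 : ℝ) ≤ m / (100 * p) := by
    rw [le_div_iff₀ (by positivity)]
    linarith
  have h2 : h * m ≤ m / (100 * p) := by
    have := mul_le_mul_of_nonneg_right hh1 hm0
    calc h * m ≤ 1 / (100 * p) * m := this
      _ = m / (100 * p) := by ring
  have h3 : 17 / 20 * ((m : ℝ) / (2 * p)) ≤ X.choose p := by
    have e1 : (m : ℝ) / (2 * p) = 50 * (m / (100 * p)) := by field_simp; ring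
    have e2 : (m : ℝ) / (20 * p) = 5 * (m / (100 * p)) := by field_simp; ring
    rw [e1] at hX ⊢
    rw [e2] at hl
    have : (1 - h) * (m : ℝ) = m - h * m := by ring
    linarith
  have h4 : 17 / 20 * ((m : ℝ) / (2 * p)) ≤ (X : ℝ) ^ p / (p.factorial : ℝ) := h3.trans hch
  rw [le_div_iff₀ hPpos] at h4
  calc 17 / 20 * ((p.factorial : ℝ) * m / (2 * p))
      = 17 / 20 * ((m : ℝ) / (2 * p)) * (p.factorial : ℝ) := by ring
    _ ≤ _ := h4

private lemma LPc_two (p : ℕ) (hp : 3 ≤ p) : (4 / 3 : ℝ) * (2 * p) ≤ 2 ^ p := by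
  induction p, hp using Nat.le_induction with
  | base => norm_num
  | succ n hn ih =>
    rw [pow_succ]
    have : (3 : ℝ) ≤ n := by exact_mod_cast hn
    push_cast
    nlinarith

/-- The arithmetic of the binomials. -/
theorem thm_LPc : St_LPc := by
  intro p hp
  have hp0 : (3 : ℝ) ≤ p := by exact_mod_cast hp
  have hP : (6 : ℝ) ≤ (p.factorial : ℝ) := by
    have := Nat.factorial_le hp
    have h6 : (3 : ℕ).factorial = 6 := rfl
    rw [h6] at this
    exact_mod_cast this
  obtain ⟨η, hη⟩ : ∃ η : ℝ, η = 1 / (100 * p * (p.factorial : ℝ)) := ⟨_, rfl⟩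
  obtain ⟨h, hh⟩ : ∃ h : ℝ, h = η ^ p / 4 := ⟨_, rfl⟩
  have hη0 : 0 < η := by rw [hη]; positivity
  have hη1 : η ≤ 1 / (100 * p) := by
    rw [hη]
    refine div_le_div_of_nonneg_left (by norm_num) (by positivity) ?_
    nlinarith
  have h300 : (1 : ℝ) / (100 * p) ≤ 1 / 300 :=
    div_le_div_of_nonneg_left (by norm_num) (by norm_num) (by nlinarith)
  have hηp : η ^ p ≤ η := pow_le_of_le_one hη0.le (by linarith) (by omega)
  have hh0 : 0 < h := by rw [hh]; positivity
  have hh1 : h ≤ 1 / (100 * p) := by rw [hh]; linarith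
  refine ⟨h, 100 * p ^ 2 * p.factorial, hh0, ?_⟩
  intro k m lo hi A B g hk hm hkm hg hAB hlo hhi hl1 hl2 hA hB
  have hm' : 100 * p ≤ m := by
    refine le_trans ?_ hm
    have h1 : 1 ≤ p.factorial := Nat.factorial_pos p
    nlinarith [Nat.mul_le_mul (Nat.mul_le_mul (le_refl 100) (show p ≤ p ^ 2 by nlinarith)) h1]
  have b1 := LPc_lo p k m lo g h η hp hη hh hk hkm hg hl1
  have b2 := LPc_lo p k m hi g h η hp hη hh hk hkm hg hl2
  have c1 := LPc_up p k m lo A g h hp hh1 hm' hg b1 hA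
  have c2 := LPc_up p k m hi B g h hp hh1 hm' hg b2 hB
  have hC : 17 / 20 * ((p.factorial : ℝ) * m / (2 * p)) ≤ ((min A B : ℕ) : ℝ) ^ p := by
    rcases le_total A B with hh | hh
    · rw [min_eq_left hh]; exact c1
    · rw [min_eq_right hh]; exact c2
  have hCk : (2 : ℝ) * ((min A B : ℕ) : ℝ) ≤ k := by
    have : 2 * min A B ≤ k := by omega
    exact_mod_cast this
  have hCp : (2 : ℝ) ^ p * ((min A B : ℕ) : ℝ) ^ p ≤ (k : ℝ) ^ p := by
    rw [← mul_pow]
    exact pow_le_pow_left₀ (by positivity) hCk p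
  have hmR : (0 : ℝ) < m := by
    have : 0 < m := by omega
    exact_mod_cast this
  have hPm : (0 : ℝ) < (p.factorial : ℝ) * m := by positivity
  have h2 := LPc_two p hp
  have hfin : 17 / 15 * ((p.factorial : ℝ) * m) ≤ (k : ℝ) ^ p := by
    calc 17 / 15 * ((p.factorial : ℝ) * m)
        = (4 / 3 : ℝ) * (2 * p) * (17 / 20 * ((p.factorial : ℝ) * m / (2 * p))) := by
          field_simp
          ring
      _ ≤ 2 ^ p * (17 / 20 * ((p.factorial : ℝ) * m / (2 * p))) := by
          exact mul_le_mul_of_nonneg_right h2 (by positivity)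
      _ ≤ 2 ^ p * ((min A B : ℕ) : ℝ) ^ p := by
          exact mul_le_mul_of_nonneg_left hC (by positivity)
      _ ≤ (k : ℝ) ^ p := hCp
  have : (1 + h) * ((p.factorial : ℝ) * m) < 17 / 15 * ((p.factorial : ℝ) * m) := by
    refine mul_lt_mul_of_pos_right ?_ hPm
    linarith
  linarith

end Pool.Agent.WLW
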