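import Pool.Agent.WLW.StL

/-! # WLW Lov (MP_05ec03_nt; helper52) -/

set_option autoImplicit false

namespace Pool.Agent.WLW

open Finset Pool.Agent.WLK

theorem thm_Lov : St_Lov := by
  classical
  intro k m M a T _
  have hnu : ∀ x, (nu T x : ℝ) ≤ k := by
    intro x
    have h : nu T x ≤ k := by
      unfold nu
      exact (Finset.card_le_univ _).trans (by simp)
    exact_mod_cast h
  set B : Finset (Fin k → ℕ) := Lo m M a T \ JJ T with hB
  have hcard : (Lo m M a T).card ≤ (JJ T).card + B.card := by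
    have h1 : Lo m M a T ⊆ JJ T ∪ B := by
      intro x hx
      by_cases h3 : x ∈ JJ T
      · exact mem_union_left _ h3
      · exact mem_union_right _ (mem_sdiff.2 ⟨hx, h3⟩)
    exact (card_le_card h1).trans (card_union_le _ _)
  have hBT : B ⊆ T := fun x hx => (mem_filter.1 (mem_sdiff.1 hx).1).1
  have hSS : (k : ℝ) * B.card ≤ SS m M a T := by
    unfold SS
    refine le_trans ?_ (sum_le_sum_of_subset_of_nonneg hBT fun x _ _ =>
      mul_nonneg (sub_nonneg.2 (hnu x)) (Nat.cast_nonneg _))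
    rw [mul_comm, ← nsmul_eq_mul]
    refine card_nsmul_le_sum _ _ _ fun x hx => ?_
    obtain ⟨h1, h2⟩ := mem_sdiff.1 hx
    have h5 : nu T x = 0 := by
      by_contra hcon
      exact h2 (mem_filter.2 ⟨hBT hx, Nat.pos_of_ne_zero hcon⟩)
    have h7 : (1 : ℝ) ≤ ff m M a x := by exact_mod_cast (mem_filter.1 h1).2
    rw [h5, Nat.cast_zero, sub_zero]
    exact le_mul_of_one_le_right (Nat.cast_nonneg _) h7
  have h8 : ((Lo m M a T).card : ℝ) ≤ (JJ T).card + B.card := by
    exact_mod_cast hcard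
  have h9 := mul_le_mul_of_nonneg_left h8 (Nat.cast_nonneg k : (0 : ℝ) ≤ k)
  linarith

end Pool.Agent.WLW
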