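import Pool.Agent.WLW.St

/-! [Lwp] of the campaign WLW (helper95). -/

set_option autoImplicit false

namespace Pool.Agent.WLW

open Finset Pool.Agent.WLK

theorem thm_Lwp (hLPb : St_LPb) (hLPc : St_LPc) (hRes : St_Res) : St_Lwp := by
  intro p hp
  obtain ⟨h, N, hh, H⟩ := hLPc p hp
  refine ⟨h, max N 1, hh, ?_⟩
  intro k m M a T hT hN hk hG
  have hNk : N ≤ k := le_trans (le_max_left _ _) hN
  have h1 : 1 ≤ k := le_trans (le_max_right _ _) hN
  obtain ⟨-, -, -, -, -, -, hkm⟩ := hRes k m M a T hT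
  obtain ⟨lo, hi, A, B, hAB, hlo, hhi, c1, c2, c3, c4⟩ := hLPb k m M a T hT p (by omega) h1
  exact H k m lo hi A B _ hNk (by omega) hk hG hAB hlo hhi (by exact_mod_cast c1)
    (by exact_mod_cast c2) c3 c4

end Pool.Agent.WLW
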