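import Pool.Agent.WLW.StL

/-! WLW: module Nod, sums of different residues. -/

set_option autoImplicit false

namespace Pool.Agent.WLW

open Finset

private theorem Nod_sum (m : ℕ) : 2 * (∑ r ∈ range m, (r : ℝ)) = m * ((m : ℝ) - 1) := by
  induction m with
  | zero => simp
  | succ m ih =>
    rw [sum_range_succ, mul_add, ih]
    push_cast
    ring

private theorem Nod_inj {ι : Type} {E : Finset ι} {f : ι → ℕ} {m : ℕ} (h : ∀ t ∈ E, f t < m)
    (hi : ∀ t ∈ E, ∀ t' ∈ E, f t = f t' → t = t') :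
    ∃ s : Finset ℕ, s ⊆ range m ∧ s.card = E.card ∧ ∑ r ∈ s, (r : ℝ) = ∑ t ∈ E, (f t : ℝ) := by
  classical
  refine ⟨E.image f, ?_, ?_, ?_⟩
  · intro r hr
    obtain ⟨t, ht, rfl⟩ := mem_image.1 hr
    exact mem_range.2 (h t ht)
  · exact card_image_of_injOn fun t ht t' ht' hh => hi t ht t' ht' hh
  · rw [sum_image fun t ht t' ht' hh => hi t ht t' ht' hh]

theorem thm_Nod : St_Nod := by
  classical
  intro ι E D m b hD hinj
  rcases E.eq_empty_or_nonempty with rfl | ⟨t₀, ht₀⟩
  · simp only [sum_empty, mul_zero, card_empty, Nat.cast_zero, sub_zero]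
    have h1 := Nod_sum m
    have h2 : (0 : ℝ) ≤ ∑ r ∈ range m, (r : ℝ) := sum_nonneg fun r _ => Nat.cast_nonneg r
    have h3 : (0 : ℝ) ≤ m := Nat.cast_nonneg m
    constructor
    · linarith
    · nlinarith
  have hm : 0 < m := lt_of_le_of_lt (Nat.zero_le _) (hD t₀ ht₀)
  constructor
  · obtain ⟨s, hs, -, hsum⟩ := Nod_inj (E := E) (f := fun t => (D t + b) % m) (m := m)
      (fun t _ => Nat.mod_lt _ hm) (by
        intro t ht t' ht' h
        have h1 : D t + b ≡ D t' + b [MOD m] := h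
        have h2 : D t ≡ D t' [MOD m] := Nat.ModEq.add_right_cancel' b h1
        exact hinj t ht t' ht' (Nat.ModEq.eq_of_lt_of_lt h2 (hD t ht) (hD t' ht')))
    rw [← hsum, ← Nod_sum m]
    have h3 : ∑ r ∈ s, (r : ℝ) ≤ ∑ r ∈ range m, (r : ℝ) :=
      sum_le_sum_of_subset_of_nonneg hs fun r _ _ => Nat.cast_nonneg r
    linarith
  · obtain ⟨s, hs, hcard, hsum⟩ := Nod_inj hD hinj
    rw [← hsum, ← Nod_sum m, ← hcard, ← sum_sdiff hs]
    have h4 : ∑ r ∈ range m \ s, (r : ℝ) ≤ ∑ _r ∈ range m \ s, (m : ℝ) :=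
      sum_le_sum fun r hr => by
        have := mem_range.1 (mem_sdiff.1 hr).1
        exact_mod_cast this.le
    have h5 : ((range m \ s).card : ℝ) = (m : ℝ) - s.card := by
      rw [card_sdiff_of_subset hs, card_range,
        Nat.cast_sub (by have := card_le_card hs; rwa [card_range] at this)]
    rw [sum_const, nsmul_eq_mul, h5] at h4
    nlinarith

end Pool.Agent.WLW
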