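import Pool.Agent.WLW.St

/-!
# WLW.Qsm (helper2): the error terms of the windows are small
-/

set_option autoImplicit false

namespace Pool.Agent.WLW

open Finset Pool.Agent.WLK Pool.Agent.Helper60.Wilf Pool.Agent.Helper82.Wilf

/-- there are at most `m` letters -/
private theorem Qsm_km {k m M : ℕ} {a : Fin k → ℕ} {T : Finset (Fin k → ℕ)} (hTy : Ty m M a T) :
    k ≤ m := by
  rw [← hTy.card]
  have hinj : Function.Injective (fun i : Fin k => (Pi.single i 1 : Fin k → ℕ)) := by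
    intro i j hij
    by_contra hne
    have h1 := congrFun hij i
    simp only [Pi.single_eq_same] at h1
    rw [Pi.single_eq_of_ne hne] at h1
    exact one_ne_zero h1
  have hsub : (univ.image (fun i : Fin k => (Pi.single i 1 : Fin k → ℕ))) ⊆ T := by
    intro x hx
    obtain ⟨i, -, rfl⟩ := mem_image.1 hx
    exact hTy.one i
  calc k = (univ : Finset (Fin k)).card := by rw [card_univ, Fintype.card_fin]
    _ = (univ.image (fun i : Fin k => (Pi.single i 1 : Fin k → ℕ))).card :=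
      (card_image_of_injective _ hinj).symm
    _ ≤ T.card := card_le_card hsub

/-- the size of the support of a squarefree element is its degree -/
private theorem Qsm_sp {k : ℕ} (y : Fin k → ℕ) (hy : ∀ i, y i ≤ 1) : sp y = ∑ i, y i := by
  rw [sp, su, card_filter]
  refine sum_congr rfl fun i _ => ?_
  have := hy i
  split_ifs with h
  · omega
  · omega

/-- the sum over a subset as a sum with an indicator -/
private theorem Qsm_ind {α : Type*} [DecidableEq α] (T S : Finset α) (h : S ⊆ T) (f : α → ℝ) :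
    ∑ y ∈ T, (if y ∈ S then f y else 0) = ∑ y ∈ S, f y := by
  rw [sum_ite_mem, inter_eq_right.mpr h]

/-- the step `cQ` of `Pool/Agent/WLK/Err.lean` -/
private theorem Qsm_cQ {k m M : ℕ} {a : Fin k → ℕ} {T : Finset (Fin k → ℕ)} (hSup : St_Sup)
    (hT : Ty m M a T) (p : ℕ) :
    ∑ y ∈ Qs T p, ((sp y : ℝ) + p) ≤ ((Nat.log 2 m : ℕ) + (p : ℝ)) * (Ns T).card +
      2 * p * (Lw T p).card + 2 * (∑ y ∈ Hg T p, (sp y : ℝ)) + 2 * p * (JJ T).card := by
  have hD : Dn T := hT.down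
  set L : ℝ := ((Nat.log 2 m : ℕ) : ℝ) with hL
  have hsp : ∀ y ∈ T, (sp y : ℝ) ≤ L := by
    intro y hy
    rw [hL, ← hT.card]
    exact_mod_cast (hSup k T hD y hy).2
  have sJ : JJ T ⊆ T := filter_subset _ _
  have sN : Ns T ⊆ T := filter_subset _ _
  have sL : Lw T p ⊆ T := filter_subset _ _
  have sH : Hg T p ⊆ T := filter_subset _ _
  have hL0 : 0 ≤ L := Nat.cast_nonneg _
  have hp0 : (0 : ℝ) ≤ p := Nat.cast_nonneg _
  have hcase : ∀ y ∈ T, y ∈ Ns T ∨ (y ∈ Lw T p ∧ sp y < p) ∨ (y ∈ Tl T p ∧ sp y = p) ∨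
      (y ∈ Hg T p ∧ p < sp y) := by
    intro y hy
    by_cases h : ∀ i, y i ≤ 1
    · right
      have hs := Qsm_sp y h
      rcases lt_trichotomy (∑ i, y i) p with h1 | h1 | h1
      · left
        exact ⟨mem_filter.mpr ⟨hy, h, h1⟩, by omega⟩
      · right; left
        exact ⟨mem_filter.mpr ⟨hy, h, h1⟩, by omega⟩
      · right; right
        exact ⟨mem_filter.mpr ⟨hy, h, h1⟩, by omega⟩
    · left
      exact mem_filter.mpr ⟨hy, h⟩
  have g0 : ∀ y, (0 : ℝ) ≤ (if y ∈ Ns T then L + p else 0) := by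
    intro y
    split_ifs
    · positivity
    · exact le_rfl
  have g1 : ∀ y, (0 : ℝ) ≤ (if y ∈ Lw T p then 2 * (p : ℝ) else 0) := by
    intro y
    split_ifs
    · positivity
    · exact le_rfl
  have g2 : ∀ y, (0 : ℝ) ≤ (if y ∈ Hg T p then 2 * (sp y : ℝ) else 0) := by
    intro y
    split_ifs
    · positivity
    · exact le_rfl
  have g3 : ∀ y, (0 : ℝ) ≤ (if y ∈ JJ T then 2 * (p : ℝ) else 0) := by
    intro y
    split_ifs
    · positivity
    · exact le_rfl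
  calc ∑ y ∈ Qs T p, ((sp y : ℝ) + p)
      ≤ ∑ y ∈ Qs T p, ((if y ∈ Ns T then L + p else 0) + (if y ∈ Lw T p then 2 * (p : ℝ) else 0) +
        (if y ∈ Hg T p then 2 * (sp y : ℝ) else 0) + (if y ∈ JJ T then 2 * (p : ℝ) else 0)) := by
        refine sum_le_sum fun y hy => ?_
        obtain ⟨hyT, hyQ⟩ := mem_filter.mp hy
        rcases hcase y hyT with h | ⟨h, h'⟩ | ⟨h, h'⟩ | ⟨h, h'⟩
        · rw [if_pos h]
          linarith [hsp y hyT, g1 y, g2 y, g3 y]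
        · have : (sp y : ℝ) ≤ p := by exact_mod_cast h'.le
          rw [if_pos h]
          linarith [g0 y, g2 y, g3 y]
        · have hn : y ∈ JJ T := by
            refine mem_filter.mpr ⟨hyT, ?_⟩
            obtain ⟨-, q1, q2⟩ := mem_filter.mp h
            by_contra hc
            exact hyQ ⟨q1, q2, by omega⟩
          have h'' : (sp y : ℝ) = p := by exact_mod_cast h'
          rw [if_pos hn]
          linarith [g0 y, g1 y, g2 y]
        · have : (p : ℝ) ≤ sp y := by exact_mod_cast h'.le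
          rw [if_pos h]
          linarith [g0 y, g1 y, g3 y]
    _ ≤ ∑ y ∈ T, ((if y ∈ Ns T then L + p else 0) + (if y ∈ Lw T p then 2 * (p : ℝ) else 0) +
        (if y ∈ Hg T p then 2 * (sp y : ℝ) else 0) + (if y ∈ JJ T then 2 * (p : ℝ) else 0)) := by
        refine sum_le_sum_of_subset_of_nonneg (filter_subset _ _) fun y _ _ => ?_
        linarith [g0 y, g1 y, g2 y, g3 y]
    _ = (L + p) * (Ns T).card + 2 * p * (Lw T p).card + 2 * (∑ y ∈ Hg T p, (sp y : ℝ)) +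
        2 * p * (JJ T).card := by
        rw [sum_add_distrib, sum_add_distrib, sum_add_distrib, Qsm_ind T _ sN, Qsm_ind T _ sL,
          Qsm_ind T _ sH, Qsm_ind T _ sJ, sum_const, sum_const, sum_const, nsmul_eq_mul,
          nsmul_eq_mul, nsmul_eq_mul, ← mul_sum]
        ring

/-- the arithmetic with real numbers -/
private theorem Qsm_ar (p δ k m J N₁ Lo B L K N Q : ℝ) (hp : 2 ≤ p) (hδ : 0 < δ) (hδ1 : δ ≤ 1)
    (hJ : 0 ≤ J) (hN₁ : 0 ≤ N₁) (hB : 0 ≤ B) (hL : 0 ≤ L) (hN0 : 0 ≤ N)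
    (hK : 20 * (p + 1) ≤ (K - 2) * δ) (hN : 100 * (p + 2) ≤ N * δ) (hk : N * (L + 1) ^ 3 ≤ k)
    (hkm : k ≤ m)
    (h1 : k * J ≤ 2 * (L * m)) (h2 : N₁ ≤ L * J)
    (h4 : (K - 2) * B ≤ 2 * (p * m + L * N₁))
    (hQ : Q ≤ (L + p) * N₁ + 2 * p * Lo + 2 * B + 2 * p * J) :
    Q ≤ δ * m + 2 * p * Lo := by
  have hL1 : 1 ≤ L + 1 := by linarith
  have hL1' : 0 < L + 1 := by linarith
  have hcube : 1 ≤ (L + 1) ^ 3 := one_le_pow₀ hL1
  have hNk : N ≤ k := by nlinarith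
  have hm0 : 0 ≤ m := le_trans hN0 (le_trans hNk hkm)
  have hδm : 0 ≤ δ * m := mul_nonneg hδ.le hm0
  have hδm1 : δ * m ≤ m := by nlinarith
  have b1 : N * (L + 1) ^ 2 * J ≤ 2 * m := by
    have e1 : N * (L + 1) ^ 3 * J ≤ 2 * (L * m) := (mul_le_mul_of_nonneg_right hk hJ).trans h1
    have e2 : (L + 1) * (N * (L + 1) ^ 2 * J) ≤ (L + 1) * (2 * m) := by
      have e3 : (L + 1) * (N * (L + 1) ^ 2 * J) = N * (L + 1) ^ 3 * J := by ring
      rw [e3]
      linarith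
    exact le_of_mul_le_mul_left e2 hL1'
  have b2 : 100 * (p + 2) * ((L + 1) ^ 2 * J) ≤ 2 * (δ * m) := by
    have hq : 0 ≤ (L + 1) ^ 2 * J := by positivity
    have e1 : 100 * (p + 2) * ((L + 1) ^ 2 * J) ≤ N * δ * ((L + 1) ^ 2 * J) :=
      mul_le_mul_of_nonneg_right hN hq
    have e2 : N * δ * ((L + 1) ^ 2 * J) = δ * (N * (L + 1) ^ 2 * J) := by ring
    have e3 : δ * (N * (L + 1) ^ 2 * J) ≤ δ * (2 * m) := mul_le_mul_of_nonneg_left b1 hδ.le
    linarith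
  have b4 : (p + 2) * J ≤ δ * m / 50 := by
    have e1 : J ≤ (L + 1) ^ 2 * J := by
      have : 1 ≤ (L + 1) ^ 2 := one_le_pow₀ hL1
      nlinarith
    have e2 : (p + 2) * J ≤ (p + 2) * ((L + 1) ^ 2 * J) :=
      mul_le_mul_of_nonneg_left e1 (by linarith)
    linarith
  have b5 : (p + 2) * ((L + 1) * N₁) ≤ δ * m / 50 := by
    have e1 : (L + 1) * N₁ ≤ (L + 1) ^ 2 * J := by
      have f1 : (L + 1) * N₁ ≤ (L + 1) * (L * J) := mul_le_mul_of_nonneg_left h2 hL1'.le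
      have f2 : (L + 1) ^ 2 * J - (L + 1) * (L * J) = (L + 1) * J := by ring
      have f3 : 0 ≤ (L + 1) * J := mul_nonneg hL1'.le hJ
      linarith
    have e2 : (p + 2) * ((L + 1) * N₁) ≤ (p + 2) * ((L + 1) ^ 2 * J) :=
      mul_le_mul_of_nonneg_left e1 (by linarith)
    linarith
  have hLN : 0 ≤ L * N₁ := mul_nonneg hL hN₁
  have hpN : 0 ≤ p * N₁ := mul_nonneg (by linarith) hN₁
  have hpLN : 0 ≤ p * (L * N₁) := mul_nonneg (by linarith) hLN
  have b5' : p * (L * N₁) + p * N₁ + 2 * (L * N₁) + 2 * N₁ ≤ δ * m / 50 := by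
    have e1 : (p + 2) * ((L + 1) * N₁) = p * (L * N₁) + p * N₁ + 2 * (L * N₁) + 2 * N₁ := by ring
    rw [← e1]
    exact b5
  have b4' : p * J + 2 * J ≤ δ * m / 50 := by
    have e1 : (p + 2) * J = p * J + 2 * J := by ring
    rw [← e1]
    exact b4
  have hpJ : 0 ≤ p * J := mul_nonneg (by linarith) hJ
  have b6 : B ≤ δ * m / 10 := by
    have e1 : 20 * (p + 1) * B ≤ (K - 2) * δ * B := mul_le_mul_of_nonneg_right hK hB
    have e2 : (K - 2) * δ * B = δ * ((K - 2) * B) := by ring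
    have e3 : δ * ((K - 2) * B) ≤ δ * (2 * (p * m + L * N₁)) := mul_le_mul_of_nonneg_left h4 hδ.le
    have e4 : L * N₁ ≤ m := by linarith
    have e5 : δ * (2 * (p * m + L * N₁)) ≤ δ * (2 * (p * m + m)) :=
      mul_le_mul_of_nonneg_left (by linarith) hδ.le
    have e6 : (20 * (p + 1)) * B ≤ (20 * (p + 1)) * (δ * m / 10) := by
      have e7 : (20 * (p + 1)) * (δ * m / 10) = δ * (2 * (p * m + m)) := by ring
      rw [e7]
      linarith
    exact le_of_mul_le_mul_left e6 (by linarith)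
  have g7 : (L + p) * N₁ = L * N₁ + p * N₁ := by ring
  have g9 : 2 * p * J = 2 * (p * J) := by ring
  rw [g7, g9] at hQ
  linarith

theorem thm_Qsm (hErr : St_Err) (hCnd : St_Cnd) (hSup : St_Sup) (_hRes : St_Res) : St_Qsm := by
  intro p δ hp hδ hδ1
  obtain ⟨K₀, hK₀⟩ := exists_nat_ge (20 * ((p : ℝ) + 1) / δ)
  obtain ⟨N₀, hN₀⟩ := exists_nat_ge (100 * ((p : ℝ) + 2) / δ)
  refine ⟨N₀ + 2 * (K₀ + 3), ?_⟩
  intro k m M a T hTy hw hk1 hk2
  have hm1 : 1 ≤ m := by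
    rw [← hTy.card]
    exact Finset.card_pos.2 ⟨0, hTy.zero⟩
  have hkm : k ≤ m := Qsm_km hTy
  have hcond : ∀ l x : ℕ, p < l → l ≤ Nat.log 2 m → x.choose l ≤ m → (x + 1) * (K₀ + 3) ≤ k := by
    refine hCnd k m p (K₀ + 3) hm1 (by omega) (lt_of_le_of_lt ?_ hk2)
    refine Nat.mul_le_mul_right _ (Nat.pow_le_pow_left (Nat.mul_le_mul_right _ ?_) _)
    omega
  obtain ⟨h1, h2, -, h4, -, -, -⟩ := hErr k m M a T hTy hw p (K₀ + 3) hp (by omega) hcond
    (JJ T).card (Ns T).card (Lw T p).card (∑ y ∈ Hg T p, (sp y : ℝ)) (Nat.log 2 m)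
    rfl rfl rfl rfl rfl
  have hp' : (2 : ℝ) ≤ p := by exact_mod_cast hp
  have hKr : 20 * ((p : ℝ) + 1) ≤ (((K₀ + 3 : ℕ) : ℝ) - 2) * δ := by
    rw [div_le_iff₀ hδ] at hK₀
    push_cast
    nlinarith
  have hNr : 100 * ((p : ℝ) + 2) ≤ ((N₀ + 2 * (K₀ + 3) : ℕ) : ℝ) * δ := by
    rw [div_le_iff₀ hδ] at hN₀
    have hK0 : (0 : ℝ) ≤ (K₀ : ℝ) := Nat.cast_nonneg _
    have e1 : (0 : ℝ) ≤ (K₀ : ℝ) * δ := mul_nonneg hK0 hδ.le
    push_cast
    nlinarith
  have hkr : ((N₀ + 2 * (K₀ + 3) : ℕ) : ℝ) * (((Nat.log 2 m : ℕ) : ℝ) + 1) ^ 3 ≤ (k : ℝ) := by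
    exact_mod_cast hk1
  exact Qsm_ar p δ k m (JJ T).card (Ns T).card (Lw T p).card (∑ y ∈ Hg T p, (sp y : ℝ))
    (Nat.log 2 m) ((K₀ + 3 : ℕ) : ℝ) ((N₀ + 2 * (K₀ + 3) : ℕ) : ℝ)
    (∑ y ∈ Qs T p, ((sp y : ℝ) + p)) hp' hδ hδ1
    (Nat.cast_nonneg _) (Nat.cast_nonneg _) (Finset.sum_nonneg fun _ _ => Nat.cast_nonneg _)
    (Nat.cast_nonneg _) (Nat.cast_nonneg _) hKr hNr hkr (by exact_mod_cast hkm)
    h1 h2 h4 (Qsm_cQ hSup hTy p)

end Pool.Agent.WLW
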