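import Pool.Agent.WLW.St

/-!
# WLW, module RB2 (MP_05ec03_nt)
-/

set_option autoImplicit false

namespace Pool.Agent.WLW

open Finset Pool.Agent.WLK

theorem thm_Rb2 (hIdn : St_Idn) (hDbl : St_Dbl) (hRes : St_Res) : St_Rb2 := by
  classical
  intro k m M a T hT p
  obtain ⟨R1, R2, R3, R4, -, -, R7⟩ := hRes k m M a T hT
  have hI := hIdn k m M a T hT
  have hDn : Dn T := hT.down
  have R1' : ∀ x ∈ T, (M : ℝ) - sw a x = m * ff m M a x + rr m M a x := fun x hx => by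
    have h2 : ((sw a x + m * ff m M a x + rr m M a x : ℕ) : ℝ) = M := by rw [R1 x hx]
    push_cast at h2
    linarith
  have R2' : ∀ x, (rr m M a x : ℝ) ≤ m := fun x => by exact_mod_cast (R2 x).le
  have hp0 : (0 : ℝ) ≤ p := by positivity
  -- the last sums
  have hA : ∀ y ∈ T, (p : ℝ) * rr m M a y -
      (if ¬ ((∀ i, y i ≤ 1) ∧ ∑ i, y i = p ∧ nu T y = 0) then (p : ℝ) * m else 0) ≤
      ∑ i ∈ (up T y)ᶜ, (y i : ℝ) * ((M : ℝ) - sw a y) := by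
    intro y hy
    rw [R1' y hy]
    have h0 : (0 : ℝ) ≤ m * ff m M a y := by positivity
    by_cases h : (∀ i, y i ≤ 1) ∧ ∑ i, y i = p ∧ nu T y = 0
    · rw [if_neg (not_not.2 h)]
      obtain ⟨h1, h2, h3⟩ := h
      have hup : up T y = ∅ := Finset.card_eq_zero.1 h3
      rw [hup, Finset.compl_empty, ← Finset.sum_mul, ← Nat.cast_sum, h2]
      nlinarith [mul_nonneg hp0 h0]
    · rw [if_pos h]
      have h4 : (0 : ℝ) ≤ ∑ i ∈ (up T y)ᶜ, (y i : ℝ) * (m * ff m M a y + rr m M a y) :=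
        Finset.sum_nonneg fun i _ => by positivity
      have h5 := mul_le_mul_of_nonneg_left (R2' y) hp0
      linarith
  -- the double sum
  have hB1 : ∑ x ∈ T, (nu T x : ℝ) * rr m M a x =
      ∑ y ∈ T, ∑ i ∈ su y, (rr m M a (y - Pi.single i 1) : ℝ) := by
    rw [← hDbl k T (fun _ x => (rr m M a x : ℝ)) hDn]
    refine Finset.sum_congr rfl fun x _ => ?_
    rw [Finset.sum_const, nsmul_eq_mul]
    rfl
  have hB2 : ∀ y ∈ T, ∑ i ∈ su y, (rr m M a (y - Pi.single i 1) : ℝ) ≤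
      (if ((∀ i, y i ≤ 1) ∧ ∑ i, y i = p) then
        ∑ i ∈ su y, (rr m M a (y - Pi.single i 1) : ℝ) else 0) +
      (if ¬ ((∀ i, y i ≤ 1) ∧ ∑ i, y i = p ∧ nu T y = 0) then (m : ℝ) * sp y else 0) := by
    intro y hy
    have h3 : (0 : ℝ) ≤ (m : ℝ) * sp y := by positivity
    have h4 : (0 : ℝ) ≤ ∑ i ∈ su y, (rr m M a (y - Pi.single i 1) : ℝ) :=
      Finset.sum_nonneg fun i _ => by positivity
    by_cases h : (∀ i, y i ≤ 1) ∧ ∑ i, y i = p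
    · rw [if_pos h]
      have h5 : (0 : ℝ) ≤ (if ¬ ((∀ i, y i ≤ 1) ∧ ∑ i, y i = p ∧ nu T y = 0) then
          (m : ℝ) * sp y else 0) := by
        split_ifs <;> first | exact h3 | exact le_refl _
      linarith
    · rw [if_neg h, if_pos fun h' => h ⟨h'.1, h'.2.1⟩, zero_add]
      have h1 : ∑ i ∈ su y, (rr m M a (y - Pi.single i 1) : ℝ) ≤ (su y).card • (m : ℝ) :=
        Finset.sum_le_card_nsmul _ _ _ fun i _ => R2' _
      rw [nsmul_eq_mul] at h1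
      have h2 : ((su y).card : ℝ) = sp y := rfl
      rw [h2] at h1
      linarith
  have hQ1 : ∑ y ∈ T, (if ¬ ((∀ i, y i ≤ 1) ∧ ∑ i, y i = p ∧ nu T y = 0) then (m : ℝ) * sp y else 0) =
      m * ∑ y ∈ Qs T p, (sp y : ℝ) := by
    rw [← Finset.sum_filter, Finset.mul_sum]
    rfl
  have hQ2 : ∑ y ∈ T, (if ¬ ((∀ i, y i ≤ 1) ∧ ∑ i, y i = p ∧ nu T y = 0) then (p : ℝ) * m else 0) =
      m * ∑ y ∈ Qs T p, (p : ℝ) := by
    rw [← Finset.sum_filter, Finset.mul_sum]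
    refine Finset.sum_congr rfl fun y _ => mul_comm _ _
  have hQ4 : ∑ y ∈ T, (if ((∀ i, y i ≤ 1) ∧ ∑ i, y i = p) then
        ∑ i ∈ su y, (rr m M a (y - Pi.single i 1) : ℝ) else 0) = WW m M a T p := by
    rw [← Finset.sum_filter]
    rfl
  have hB : ∑ x ∈ T, (nu T x : ℝ) * rr m M a x ≤ WW m M a T p + m * ∑ y ∈ Qs T p, (sp y : ℝ) := by
    rw [hB1]
    refine (Finset.sum_le_sum hB2).trans (le_of_eq ?_)
    rw [Finset.sum_add_distrib, hQ1, hQ4]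
  have hC : p * ∑ y ∈ T, (rr m M a y : ℝ) - m * ∑ y ∈ Qs T p, (p : ℝ) ≤
      ∑ y ∈ T, ∑ i ∈ (up T y)ᶜ, (y i : ℝ) * ((M : ℝ) - sw a y) := by
    refine le_trans (le_of_eq ?_) (Finset.sum_le_sum hA)
    rw [Finset.sum_sub_distrib, hQ2, Finset.mul_sum]
  have hS : ∑ x ∈ T, (((k : ℝ) - nu T x) * (m * ff m M a x) -
      ((nu T x : ℝ) - 1) * rr m M a x + ∑ i ∈ (up T x)ᶜ, (x i : ℝ) * ((M : ℝ) - sw a x)) =
      m * SS m M a T - ∑ x ∈ T, (nu T x : ℝ) * rr m M a x +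
      ∑ x ∈ T, (rr m M a x : ℝ) +
      ∑ y ∈ T, ∑ i ∈ (up T y)ᶜ, (y i : ℝ) * ((M : ℝ) - sw a y) := by
    rw [SS, Finset.mul_sum, ← Finset.sum_sub_distrib, ← Finset.sum_add_distrib,
      ← Finset.sum_add_distrib]
    refine Finset.sum_congr rfl fun x _ => ?_
    ring
  rw [hS] at hI
  have hR : ∑ x ∈ T, (rr m M a x : ℝ) = m * ((m : ℝ) - 1) / 2 := by linarith
  rw [hR] at hI hC
  have hQ3 : ∑ y ∈ Qs T p, ((sp y : ℝ) + p) = ∑ y ∈ Qs T p, (sp y : ℝ) + ∑ y ∈ Qs T p, (p : ℝ) :=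
    Finset.sum_add_distrib
  rw [hQ3, hI]
  linarith

end Pool.Agent.WLW
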