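import Pool.Agent.WLW.St

/-!
# WLW: Wilf's inequality without windows (MP_05ec03_nt; proof found by helper39 and helper2, sorted form)

Frozen statements of the modules. Every module `Pool/Agent/WLW/<X>.lean` imports this file and proves
`theorem thm_<X> : St_<X>`, with the hypotheses named in the docstring (e.g. `(hKey : St_Key)`). The
docstrings contain the proofs. `e_i = Pi.single i 1`, `D x = M - sw a x = m ff x + rr x`.

Idea. If Wilf's inequality fails, then nearly all elements of `T` are squarefree of degree `p` with `D < m`, and the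
set `Lo` of the elements with `D ≥ m` has only `O(m / k)` elements. By the minimality of the weights of `T`
(`Mi`), every vector of weight `≤ M - m` has the residue of an element of `Lo`. An argument with entropy
(`Key`) shows that two good elements `x, x'` with `D x ≥ m - e` nearly always satisfy `a_(i)(x') ≥ a_(i)(x) - e` for
the sorted weights, and this gives the bound of `WW`.
-/

set_option autoImplicit false

namespace Pool.Agent.WLW

open Finset Pool.Agent.WLK Pool.Agent.Helper60.Wilf Pool.Agent.Helper82.Wilf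

/-! ### The key lemma -/

/-- **KEY** (helper39: `Pool/Agent/WLW/KLm.lean`, `Pool/Agent/WLW/Ent.lean`).  PROOF.  Entropies for the uniform distribution on `Ω`, `L = log k`,
`c = log C`; `S = {i | b ≤ i + 1}`, `W` = the sum of the letters of `u.1` outside `S`, `τ_l = ∑ al (u.1 j) + al (u.2 l)`.
(1) `H(τ_l) ≥ p L - c` (its fibres have at most `k ^ b` elements), `H(u.1 j, τ_l) ≤ log (k |V|) ≤ p L + c` for `j ∈ S`; submodularity
gives `H(u.1 on S, τ_l) ≤ p L + 2 p c`.  (2) For `t ⊆ Fin b`: `H(u.1 on S, W + ∑ l ∈ t, al (u.2 l)) ≤ p L + |t| (2 p + 1) c`, by induction on `t` with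
submodularity.  (3) For `t = univ` the fibres have at most `k ^ (b - 1)` elements, so `(p + 1) L - c ≤ p L + b (2 p + 1) c`. -/
def St_Key : Prop := ∀ (p b C : ℕ), 1 ≤ b → b ≤ p → ∀ (k m : ℕ) (al : Fin k → ZMod m)
  (Ω : Finset ((Fin p → Fin k) × (Fin b → Fin k))) (V : Finset (ZMod m)),
  C ^ (3 * p ^ 2 + 2 * p) < k →
  (∀ u ∈ Ω, ∀ v ∈ Ω, ∑ i, al (u.1 i) = ∑ i, al (v.1 i) → u.1 = v.1) →
  (∀ u ∈ Ω, ∀ v ∈ Ω, ∑ l, al (u.2 l) = ∑ l, al (v.2 l) → u.2 = v.2) →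
  k ^ (p + b) ≤ C * Ω.card → k * V.card ≤ C * k ^ p →
  (∀ u ∈ Ω, ∀ i : Fin p, b ≤ i.val + 1 → ∀ l : Fin b,
    ∑ j, al (u.1 j) - al (u.1 i) + al (u.2 l) ∈ V) → False

/-! ### Sorted tuples -/

/-- the vector of a tuple of letters -/
def vc {k p : ℕ} (t : Fin p → Fin k) : Fin k → ℕ := ∑ i, Pi.single (t i) 1

/-- the weight of a tuple of letters -/
def va {k p : ℕ} (a : Fin k → ℕ) (t : Fin p → Fin k) : ℕ := ∑ i, a (t i)

open Classical in
/-- the tuples with strictly increasing weights whose vector is in `G` -/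
noncomputable def Et {k : ℕ} (a : Fin k → ℕ) (p : ℕ) (G : Finset (Fin k → ℕ)) :
    Finset (Fin p → Fin k) :=
  univ.filter fun t => StrictMono (fun i => a (t i)) ∧ vc t ∈ G

/-- the weights of the elements of `T` are minimal in their classes modulo `m` -/
def Mi {k : ℕ} (m : ℕ) (a : Fin k → ℕ) (T : Finset (Fin k → ℕ)) : Prop :=
  ∀ x ∈ T, ∀ z : Fin k → ℕ, sw a z % m = sw a x % m → sw a x ≤ sw a z

/-- the elements of `T` with distance at least `m` -/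
def Lo {k : ℕ} (m M : ℕ) (a : Fin k → ℕ) (T : Finset (Fin k → ℕ)) : Finset (Fin k → ℕ) :=
  T.filter fun x => 1 ≤ ff m M a x

/-- **VCF**.  PROOF.  (1): `sw a` is additive.  Let `a ∘ t` be strictly increasing; then `t` is injective, so `vc t` is the indicator
function of its range, and `su (vc t) = univ.image t`. -/
def St_Vcf : Prop := ∀ (k p : ℕ) (a : Fin k → ℕ) (t : Fin p → Fin k), sw a (vc t) = va a t ∧
  (StrictMono (fun i => a (t i)) → (∀ i, vc t i ≤ 1) ∧ ∑ i, vc t i = p ∧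
    (∀ i, vc t i ≠ 0 ↔ ∃ j, t j = i) ∧ ∀ f : Fin k → ℝ, ∑ i ∈ su (vc t), f i = ∑ j, f (t j))

/-- **VCU** (from `St_Vcf`).  PROOF.  (1): `a ∘ t` and `a ∘ t'` are strictly increasing with the same range (`St_Vcf`), so they are equal
(`StrictMono.range_inj` or `Finset.orderEmbOfFin_unique`).  (2): `su y` has `p` elements, so has `(su y).image a`;
`Finset.orderEmbOfFin` of it takes values `a i` with `i ∈ su y`: choose `t`. -/
def St_Vcu : Prop := ∀ (k p : ℕ) (a : Fin k → ℕ), Function.Injective a →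
  (∀ t t' : Fin p → Fin k, StrictMono (fun i => a (t i)) → StrictMono (fun i => a (t' i)) →
    vc t = vc t' → t = t') ∧
  (∀ y : Fin k → ℕ, (∀ i, y i ≤ 1) → ∑ i, y i = p →
    ∃ t : Fin p → Fin k, StrictMono (fun i => a (t i)) ∧ vc t = y)

/-- **ETF** (from `St_Vcf`, `St_Vcu`, `St_Res`).  PROOF.  `a` is injective (`Ty.inj` for the unit vectors).  (1): `vc` is a bijection from `Et` to `Gd`
(`St_Vcu`).  (2): `ff = 0`, `St_Res` (1), (2).  (3): `sw a (vc Q) = va a Q` and `Ty.inj` give `vc Q = vc Q'`; `St_Vcu`.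
(4): `Gd ⊆ T`.  (5): the vector of the initial segment is `≤ vc t`, and `T` is a down-set.  (6): `t ↦ M - va a t` is injective on `E`
(by (3), (4)) with values in `range m`; at most `m - e` elements have value `< m - e`.
(7): a subset of `Fin p → Fin k`; (1) and `Gd ⊆ T`. -/
def St_Etf : Prop := ∀ (k m M : ℕ) (a : Fin k → ℕ) (T : Finset (Fin k → ℕ)), Ty m M a T →
  ∀ (p : ℕ) (E : Finset (Fin p → Fin k)), E = Et a p (Gd m M a T p) →
  E.card = (Gd m M a T p).card ∧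
  (∀ t ∈ E, va a t ≤ M ∧ M < va a t + m) ∧
  (∀ (r : ℕ), ∀ Q ∈ Et a r T, ∀ Q' ∈ Et a r T, va a Q % m = va a Q' % m → Q = Q') ∧
  E ⊆ Et a p T ∧
  (∀ (r : ℕ) (hr : r ≤ p), ∀ t ∈ Et a p T, (fun i : Fin r => t (Fin.castLE hr i)) ∈ Et a r T) ∧
  (∀ e : ℕ, e ≤ m → e + E.card ≤ m + (E.filter fun t => va a t + m ≤ M + e).card) ∧
  E.card ≤ k ^ p ∧ E.card ≤ m

/-- **LOV**.  PROOF (model: `Pool/Agent/WLW/Ffp.lean`).  All terms of `SS` are `≥ 0`.  For `x ∈ Lo` outside `JJ T`: `ν x = 0`, `ff x ≥ 1`, so the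
term is `≥ k`. -/
def St_Lov : Prop := ∀ (k m M : ℕ) (a : Fin k → ℕ) (T : Finset (Fin k → ℕ)), Ty m M a T →
  k * ((Lo m M a T).card : ℝ) ≤ k * ((JJ T).card : ℝ) + SS m M a T

/-- **LOR** (from `St_Res`).  PROOF.  The `m` elements of `T` have different residues (`Ty.inj`, `Ty.card`), so some `x ∈ T` has
`sw a x % m = sw a z % m`; by `Mi`, `sw a x ≤ sw a z ≤ M - m`, so `M - sw a x ≥ m`, `ff x ≥ 1`. -/
def St_Lor : Prop := ∀ (k m M : ℕ) (a : Fin k → ℕ) (T : Finset (Fin k → ℕ)), Ty m M a T →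
  Mi m a T → ∀ z : Fin k → ℕ, sw a z + m ≤ M → ∃ x ∈ Lo m M a T, sw a x % m = sw a z % m

/-- **FAL** (from `St_Key`, `St_Etf`, `St_Vcf`, `St_Lor`).  PROOF.  `K` a natural number `≥ 1, C ^ 2 / h, 2 C`, `N = K ^ (3 p ^ 2 + 2 p) + 1`.
Suppose that the set `B` of the pairs has more than `h m ^ 2` elements; let `b = i + 1` and `Ω` the image of `B` under
`(t, t') ↦ (t, (the first b letters of t'))`.  An element of `B` is determined by its image and the other `p - b` letters of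
`t'`, so `|B| ≤ |Ω| k ^ (p - b)`; `h k ^ (2 p) ≤ h C ^ 2 m ^ 2 < C ^ 2 |Ω| k ^ (p - b)`, so `k ^ (p + b) ≤ K |Ω|`.  Let `al j` be the class of `a j` in
`ZMod m` and `V` the set of the classes of `sw a x`, `x ∈ Lo`: `k |V| ≤ C m ≤ 2 C |E| ≤ K k ^ p`.  The sums are injective: `St_Etf` (3), (4), (5).
Membership in `V`: let `u = (t, Q) ∈ Ω`, `Q` from `t'`, `j ≥ i` and `l ≤ i`; the vector `z = vc t - e_(t j) + e_(Q l)` has weight
`va a t - a (t j) + a (Q l) ≤ va a t - a (t i) + a (t' i) < va a t - e ≤ M - m`; `St_Lor`.  `St_Key`. -/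
def St_Fal : Prop := ∀ (p : ℕ) (C h : ℝ), 0 < h → ∃ N : ℕ,
  ∀ (k m M : ℕ) (a : Fin k → ℕ) (T : Finset (Fin k → ℕ)), Ty m M a T → Mi m a T → N ≤ k →
  (k : ℝ) ^ p ≤ C * m → k * ((Lo m M a T).card : ℝ) ≤ C * m →
  ∀ E : Finset (Fin p → Fin k), E = Et a p (Gd m M a T p) → (m : ℝ) ≤ 2 * E.card →
  ∀ (e : ℕ) (i : Fin p), (((E ×ˢ E).filter fun w =>
    va a w.1 + m ≤ M + e ∧ a (w.2 i) + e < a (w.1 i)).card : ℝ) ≤ h * (m : ℝ) ^ 2

open Classical in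
/-- **BET** (from `St_Fal`, `St_Etf`, `St_Res`).  PROOF.  Let `h ≤ 1` (otherwise take `h = 1`), `P = p + 1`, `δ = h / (4 P)`, `N` from `St_Fal` for
`h' = h ^ 2 / (2 P ^ 2)`, and `N ≥ 4 P / h`; `m ≥ k ≥ N` (`St_Res` (7)).  `e` = the integer part of `h m / P`.
`E₁ = {t ∈ E | va a t + m ≤ M + e}` has at least `e - (m - |E|) ≥ h m / P - 1 - h m / (4 P) ≥ h m / (2 P)` elements (`St_Etf` (6), (1)), and it is nonempty.
For `t ∈ E₁` let `B t` be the set of the `t' ∈ E` with `a (t' i) + e < a (t i)` for some `i`.  `∑ t ∈ E₁, |B t| ≤ p h' m ^ 2 < (h m / (2 P)) h m`, so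
`|B t| ≤ h m` for some `t ∈ E₁`.  Let `β i = a (t i) - e` (`e ≤ m < a (t i)`).  `∑ β + p e = va a t > M - m` (`St_Etf` (2)) and `p e ≤ h m`; if
`β i ≤ a (t' i)` fails for some `i`, then `t' ∈ B t`. -/
def St_Bet : Prop := ∀ (p : ℕ) (C h : ℝ), 0 < h → ∃ (δ : ℝ) (N : ℕ), 0 < δ ∧
  ∀ (k m M : ℕ) (a : Fin k → ℕ) (T : Finset (Fin k → ℕ)), Ty m M a T → Mi m a T → N ≤ k →
  (k : ℝ) ^ p ≤ C * m → k * ((Lo m M a T).card : ℝ) ≤ C * m →
  (1 - δ) * m ≤ ((Gd m M a T p).card : ℝ) →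
  ∃ β : Fin p → ℕ, (M : ℝ) ≤ ∑ i, (β i : ℝ) + m + h * m ∧
    (((Et a p (Gd m M a T p)).filter fun t => ¬ ∀ i, β i ≤ a (t i)).card : ℝ) ≤ h * m

/-! ### The sum of the residues -/

/-- **NOD**.  PROOF.  The numbers `(D t + b) % m`, `t ∈ E`, are different elements of `range m`, with sum at most
`∑ r ∈ range m, r = m (m - 1) / 2`.  The `D t` are different elements of `range m`; the `m - |E|` other elements of `range m` are at most `m`. -/
def St_Nod : Prop := ∀ (ι : Type) (E : Finset ι) (D : ι → ℕ) (m b : ℕ), (∀ t ∈ E, D t < m) →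
  (∀ t ∈ E, ∀ t' ∈ E, D t = D t' → t = t') →
  2 * ∑ t ∈ E, (((D t + b) % m : ℕ) : ℝ) ≤ m * ((m : ℝ) - 1) ∧
  (m : ℝ) * ((m : ℝ) - 1) ≤ 2 * ∑ t ∈ E, (D t : ℝ) + 2 * m * ((m : ℝ) - E.card)

open Classical in
/-- **ENW** (from `St_Nod`, `St_Vcf`, `St_Etf`).  PROOF.  Let `E' ⊆ E` be the filtered set.  For `t ∈ E'` and `D = M - va a t < m` (`St_Etf` (2)):
`sw a (vc t - e_(t j)) = va a t - a (t j)`, so `∑ i ∈ su (vc t), rr (vc t - e_i) = ∑ j, (D + a (t j)) % m` (`St_Vcf`), and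
`(D + a (t j)) % m ≤ (a (t j) - β j) + (D + β j) % m`.  So the sum over `j` is at most `(M - D) - ∑ β + ∑ j, (D + β j) % m`.  Sum over
`t ∈ E'` (`D` is injective on `E'` by `St_Etf` (3), (4)) with `St_Nod`: `≤ |E'| (M - ∑ β) - ∑ D + p m (m - 1) / 2`, where
`|E'| (M - ∑ β) ≤ m (m + s)` (as `|E'| ≤ m`, `M - ∑ β ≤ m + s`, `0 ≤ m + s`) and `- ∑ D ≤ - m (m - 1) / 2 + m (m - |E'|)`.  Total
`≤ m ^ 2 + s m + (p - 1) m (m - 1) / 2 + m (m - |E'|)`.  The elements of `Tl T p` which are not in `vc (E')` are at most `m - |E'|`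
(`vc` is injective on `E'`, with values in `Tl T p ⊆ T`), each of them gives at most `p m`. -/
def St_Enw : Prop := ∀ (k m M : ℕ) (a : Fin k → ℕ) (T : Finset (Fin k → ℕ)), Ty m M a T →
  ∀ (p : ℕ) (β : Fin p → ℕ) (s : ℝ), 1 ≤ p → 0 ≤ s → (M : ℝ) ≤ ∑ i, (β i : ℝ) + m + s →
  WW m M a T p ≤ ((p : ℝ) + 1) / 2 * (m : ℝ) ^ 2 + s * m + ((p : ℝ) + 1) * m *
    (m - ((Et a p (Gd m M a T p)).filter fun t => ∀ i, β i ≤ a (t i)).card)

/-- **CIL** (from `St_Bet`, `St_Enw`, `St_Etf`).  PROOF.  `h = ε / (4 (p + 2))`, `δ ≤ h` from `St_Bet`; `s = h m`;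
`|E'| ≥ |E| - h m ≥ (1 - δ - h) m`.  Error `h m ^ 2 + (p + 1) (δ + h) m ^ 2 ≤ ε m ^ 2`. -/
def St_Cil : Prop := ∀ (p : ℕ) (C ε : ℝ), 1 ≤ p → 0 < ε → ∃ (δ : ℝ) (N : ℕ), 0 < δ ∧
  ∀ (k m M : ℕ) (a : Fin k → ℕ) (T : Finset (Fin k → ℕ)), Ty m M a T → Mi m a T → N ≤ k →
  (k : ℝ) ^ p ≤ C * m → k * ((Lo m M a T).card : ℝ) ≤ C * m →
  (1 - δ) * m ≤ ((Gd m M a T p).card : ℝ) →
  WW m M a T p ≤ ((p : ℝ) + 1) / 2 * (m : ℝ) ^ 2 + ε * (m : ℝ) ^ 2

/-! ### The end -/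

/-- **PRL** (from `St_Cil`, `St_Lov`, `St_Rb2`, `St_Qsm`, `St_Ffp`, `St_KKp`, `St_Lwp` and `WLK`: `St_Sml`, `St_Low`, `St_Res`; model:
`Pool/Agent/WLW/PrW.lean` with `c = 0`).  PROOF.  As for `St_PrW`, with `c = 0` and `St_Cil` instead of `Cir p`, for the constant
`max C (3 p + 1)`.  New: `k |Lo| ≤ k |JJ| + SS ≤ (2 p + δ) m + p m ≤ (3 p + 1) m` (`St_Lov`, `St_Sml` (3), `SS ≤ p m`). -/
def St_PrL : Prop := ∀ p : ℕ, 3 ≤ p → ∀ C : ℝ, ∃ N : ℕ,
  ∀ (k m M : ℕ) (a : Fin k → ℕ) (T : Finset (Fin k → ℕ)), Ty m M a T → Mi m a T →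
  N * (Nat.log 2 m + 1) ^ 3 ≤ k → (N * (Nat.log 2 m + 1)) ^ (p + 1) * m < k ^ (p + 1) →
  (k : ℝ) ^ p ≤ C * m → 0 < wil k m M a T

/-- **SEL** (model: `Pool/Agent/WLK/Sem.lean`).  PROOF.  As `WLK.St_Sem`; `Mi`: let `x ∈ T`, `z` arbitrary with
`sw a z % m = sw a x % m`.  `sw a x ∈ insert 0 (A0 S c m)`, and `sw a z ∈ S` (each `a i = sw a e_i` is in `insert 0 (A0 S c m)`, so in `S`).
If `sw a z < sw a x`, then `sw a x = sw a z + j m` with `j ≥ 1`, against `mem_ins`. -/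
def St_Sel : Prop := ∀ (S : AddSubmonoid ℕ) (c m k : ℕ) (A : Finset ℕ), Sg S c m →
  (∀ a, a ∈ A ↔ Prim S a) → A.card = k + 1 → 0 < c →
  ∃ (a : Fin k → ℕ) (T : Finset (Fin k → ℕ)), Ty m (c + m - 1) a T ∧ Mi m a T ∧
    (0 < wil k m (c + m - 1) a T → c < A.card * (elF S 0 c).card)

/-- **FNL** (from `St_Grw`, `St_PrL`, `St_Sel` and `WLK`: `St_Lim`, `St_Pro`, `St_Two`; model: `Pool/Agent/WLW/Fn2.lean`).  PROOF.  As
for `St_Fn2`; if `Win ε m d` holds with `p`, then `(d - 1) ^ p ≤ d ^ p ≤ 2 ^ (p + 1) p! m`, and `St_PrL` with `C = 2 ^ (p + 1) p!` applies. -/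
def St_FnL : Prop := ∀ (ε : ℝ), 0 < ε → ∃ m₀ : ℕ,
  ∀ (S : AddSubmonoid ℕ) (c m : ℕ) (A : Finset ℕ), Sg S c m → (∀ a, a ∈ A ↔ Prim S a) → 0 < c →
  A.card ≠ m → m₀ ≤ m → (m : ℝ) ^ ε ≤ A.card → c < A.card * (elF S 0 c).card

end Pool.Agent.WLW
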