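import Pool.Agent.WLW.StL

/-! # WLW, module Vcf: the vector of a tuple of letters (MP_05ec03_nt) -/

set_option autoImplicit false

namespace Pool.Agent.WLW

open Finset Pool.Agent.WLK

private lemma Vcf_apply {k p : ℕ} (t : Fin p → Fin k) (i : Fin k) :
    vc t i = ∑ j, if t j = i then 1 else 0 := by
  unfold vc
  rw [Finset.sum_apply]
  refine Finset.sum_congr rfl fun j _ => ?_
  rw [Pi.single_apply]
  by_cases h : t j = i
  · rw [if_pos h, if_pos h.symm]
  · rw [if_neg h, if_neg (fun h' => h h'.symm)]

/-- **VCF** -/
theorem thm_Vcf : St_Vcf := by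
  classical
  intro k p a t
  refine ⟨?_, fun hmono => ?_⟩
  · unfold sw va
    simp only [Vcf_apply, Finset.mul_sum]
    rw [Finset.sum_comm]
    refine Finset.sum_congr rfl fun j _ => ?_
    simp
  · have hinj : Function.Injective t := by
      intro j j' h
      exact hmono.injective (by simp only [h])
    have hne : ∀ i, vc t i ≠ 0 ↔ ∃ j, t j = i := by
      intro i
      rw [Vcf_apply]
      constructor
      · intro h
        by_contra hcon
        push Not at hcon
        exact h (Finset.sum_eq_zero fun j _ => if_neg (hcon j))
      · rintro ⟨j, hj⟩ h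
        have h1 : (if t j = i then 1 else 0) = 0 :=
          (Finset.sum_eq_zero_iff.1 h) j (Finset.mem_univ j)
        rw [if_pos hj] at h1
        exact one_ne_zero h1
    have hsu : su (vc t) = univ.image t := by
      ext i
      simp only [su, Finset.mem_filter, Finset.mem_univ, true_and, Finset.mem_image]
      exact hne i
    refine ⟨fun i => ?_, ?_, hne, fun f => ?_⟩
    · rw [Vcf_apply, Finset.sum_boole]
      simp only [Nat.cast_id]
      rw [Finset.card_le_one]
      intro j hj j' hj'
      apply hinj
      rw [(Finset.mem_filter.1 hj).2, (Finset.mem_filter.1 hj').2]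
    · simp only [Vcf_apply]
      rw [Finset.sum_comm]
      simp
    · rw [hsu, Finset.sum_image fun x _ y _ h => hinj h]

end Pool.Agent.WLW
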