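import Pool.Agent.WLW.StL

/-!
# WLW Vcu (helper26): sorted tuples, uniqueness and existence
-/

set_option autoImplicit false

namespace Pool.Agent.WLW

open Finset Pool.Agent.WLK

theorem thm_Vcu (hVcf : St_Vcf) : St_Vcu := by
  intro k p a ha
  refine ⟨?_, ?_⟩
  · intro t t' ht ht' h
    have h1 := ((hVcf k p a t).2 ht).2.2.1
    have h2 := ((hVcf k p a t').2 ht').2.2.1
    have hr : Set.range (fun i => a (t i)) = Set.range (fun i => a (t' i)) := by
      ext v
      constructor
      · rintro ⟨j, rfl⟩
        have h3 : vc t (t j) ≠ 0 := (h1 (t j)).2 ⟨j, rfl⟩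
        rw [h] at h3
        obtain ⟨l, hl⟩ := (h2 (t j)).1 h3
        exact ⟨l, by simp only [hl]⟩
      · rintro ⟨j, rfl⟩
        have h3 : vc t' (t' j) ≠ 0 := (h2 (t' j)).2 ⟨j, rfl⟩
        rw [← h] at h3
        obtain ⟨l, hl⟩ := (h1 (t' j)).1 h3
        exact ⟨l, by simp only [hl]⟩
    have h4 := (StrictMono.range_inj ht ht').1 hr
    funext i
    exact ha (congrFun h4 i)
  · intro y hy hs
    classical
    have hc : ((univ.filter fun i => y i ≠ 0).image a).card = p := by
      rw [card_image_of_injective _ ha, card_eq_sum_ones, ← hs, sum_filter]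
      refine sum_congr rfl fun i _ => ?_
      have := hy i
      split_ifs with h
      · omega
      · omega
    have hm : ∀ j : Fin p, ∃ i : Fin k, y i ≠ 0 ∧
        a i = ((univ.filter fun i => y i ≠ 0).image a).orderEmbOfFin hc j := by
      intro j
      have h1 := orderEmbOfFin_mem ((univ.filter fun i => y i ≠ 0).image a) hc j
      obtain ⟨i, hi, h2⟩ := mem_image.1 h1
      exact ⟨i, (mem_filter.1 hi).2, h2⟩
    choose t ht using hm
    have hmono : StrictMono (fun i => a (t i)) := by
      intro i j hij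
      simp only [(ht i).2, (ht j).2]
      exact (((univ.filter fun i => y i ≠ 0).image a).orderEmbOfFin hc).strictMono hij
    refine ⟨t, hmono, ?_⟩
    obtain ⟨h1, -, h3, -⟩ := (hVcf k p a t).2 hmono
    funext i
    have h4 := h1 i
    have h5 := hy i
    by_cases h6 : y i = 0
    · rw [h6]
      by_contra h7
      obtain ⟨j, hj⟩ := (h3 i).1 h7
      exact (ht j).1 (by rw [hj]; exact h6)
    · have h7 : vc t i ≠ 0 := by
        rw [h3]
        have h8 : a i ∈ Set.range (((univ.filter fun i => y i ≠ 0).image a).orderEmbOfFin hc) := by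
          rw [range_orderEmbOfFin]
          exact mem_coe.2 (mem_image.2 ⟨i, mem_filter.2 ⟨mem_univ _, h6⟩, rfl⟩)
        obtain ⟨j, hj⟩ := h8
        exact ⟨j, ha ((ht j).2.trans hj)⟩
      omega

end Pool.Agent.WLW
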