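import Pool.Agent.WLK.All
import Pool.Agent.WLW.Rb2
import Pool.Agent.WLW.Qsm
import Pool.Agent.WLW.Ffp
import Pool.Agent.WLW.Jlp
import Pool.Agent.WLW.KKp
import Pool.Agent.WLW.LPa
import Pool.Agent.WLW.LPb
import Pool.Agent.WLW.LPc
import Pool.Agent.WLW.Lwp
import Pool.Agent.WLW.Grw
import Pool.Agent.WLW.StL
import Pool.Agent.WLW.KeyL
import Pool.Agent.WLW.Vcf
import Pool.Agent.WLW.Vcu
import Pool.Agent.WLW.Etf
import Pool.Agent.WLW.Lov
import Pool.Agent.WLW.Lor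
import Pool.Agent.WLW.Fal
import Pool.Agent.WLW.Bet
import Pool.Agent.WLW.Nod
import Pool.Agent.WLW.Enw
import Pool.Agent.WLW.Cil
import Pool.Agent.WLW.PrL
import Pool.Agent.WLW.Sel
import Pool.Agent.WLW.FnL

/-!
# WLW: all modules for the theorem without windows (MP_05ec03_nt)
-/

set_option autoImplicit false

namespace Pool.Agent.WLW

open Pool.Agent.WLK

theorem all_Etf : St_Etf := thm_Etf thm_Vcf (thm_Vcu thm_Vcf) thm_Res

theorem all_Fal : St_Fal := thm_Fal thm_Key all_Etf thm_Vcf (thm_Lor thm_Res)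

theorem all_Cil : St_Cil :=
  thm_Cil (thm_Bet all_Fal all_Etf thm_Res) (thm_Enw thm_Nod thm_Vcf all_Etf) all_Etf

theorem all_Rb2 : St_Rb2 := thm_Rb2 all_Idn thm_Dbl thm_Res

theorem all_Qsm : St_Qsm := thm_Qsm all_Err thm_Cnd thm_Sup thm_Res

theorem all_KKp : St_KKp := thm_KKp thm_Shd (thm_Jlp thm_Res)

theorem all_Lwp : St_Lwp := thm_Lwp (thm_LPb thm_LPa thm_Res) thm_LPc thm_Res

theorem all_PrL : St_PrL :=
  thm_PrL all_Cil thm_Lov all_Rb2 all_Qsm thm_Ffp all_KKp all_Lwp all_Sml thm_Low thm_Res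

/-- the theorem for large multiplicity, without windows -/
theorem all_FnL : St_FnL :=
  thm_FnL (thm_Grw thm_Gro) all_PrL thm_Sel (thm_Lim thm_Gro) all_Pro all_Two

end Pool.Agent.WLW
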