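import Pool.Agent.WLW.St

/-!
# WLW, module Ci3 (helper89): the property `Cir 3`, real arithmetic
-/

set_option autoImplicit false

namespace Pool.Agent.WLW

open Finset Pool.Agent.WLK

private theorem Ci3_su {k : ℕ} {y : Fin k → ℕ} (hy : ∑ i, y i = 3) : (su y).card ≤ 3 := by
  calc (su y).card = ∑ i ∈ su y, 1 := by simp
    _ ≤ ∑ i ∈ su y, y i := by
        refine Finset.sum_le_sum fun i hi => ?_
        have h : y i ≠ 0 := by
          have := hi
          unfold su at this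
          exact (Finset.mem_filter.1 this).2
        omega
    _ ≤ ∑ i, y i := Finset.sum_le_sum_of_subset (Finset.subset_univ _)
    _ = 3 := hy

private theorem Ci3_WW {k m M : ℕ} {a : Fin k → ℕ} {T : Finset (Fin k → ℕ)}
    (hr : ∀ x, rr m M a x < m) : WW m M a T 3 ≤ 3 * m * ((Tl T 3).card : ℝ) := by
  unfold WW
  calc ∑ y ∈ Tl T 3, ∑ i ∈ su y, (rr m M a (y - Pi.single i 1) : ℝ)
      ≤ ∑ y ∈ Tl T 3, (3 * m : ℝ) := by
        refine Finset.sum_le_sum fun y hy => ?_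
        have hy3 : ∑ i, y i = 3 := by
          unfold Tl at hy
          exact (Finset.mem_filter.1 hy).2.2
        calc ∑ i ∈ su y, (rr m M a (y - Pi.single i 1) : ℝ) ≤ ∑ i ∈ su y, (m : ℝ) := by
              refine Finset.sum_le_sum fun i _ => ?_
              exact_mod_cast (hr _).le
          _ = (su y).card * (m : ℝ) := by rw [Finset.sum_const, nsmul_eq_mul]
          _ ≤ 3 * m := by
              have h3 : ((su y).card : ℝ) ≤ 3 := by exact_mod_cast Ci3_su hy3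
              exact mul_le_mul_of_nonneg_right h3 (Nat.cast_nonneg m)
    _ = 3 * m * ((Tl T 3).card : ℝ) := by
        rw [Finset.sum_const, nsmul_eq_mul]
        ring

private theorem Ci3_SS {k m M : ℕ} {a : Fin k → ℕ} {T : Finset (Fin k → ℕ)} :
    0 ≤ SS m M a T := by
  unfold SS
  refine Finset.sum_nonneg fun x _ => ?_
  have h : nu T x ≤ k := by
    unfold nu
    have := Finset.card_le_univ (up T x)
    rwa [Fintype.card_fin] at this
  have h' : (nu T x : ℝ) ≤ k := by exact_mod_cast h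
  exact mul_nonneg (by linarith) (Nat.cast_nonneg _)

/-- the arithmetic of the case of small `S` -/
private theorem Ci3_ar {m n W S e R δ ε Ye : ℝ} (hm : 3 ≤ m) (hS : 0 ≤ S) (hS1 : S ≤ 11 / 10 * m)
    (hδ0 : 0 < δ) (hδ : δ ≤ 1 / 100) (hδe : δ ≤ ε / 10) (hmε : 1 ≤ ε * m) (he0 : 0 ≤ e)
    (he : e ≤ 6 * m) (hR0 : 0 ≤ R) (hR : R ≤ 2 * S + 2 * δ * m) (hn1 : 1 ≤ n)
    (hn2 : (2 * S + 2 * δ * m) / 4 ≤ n) (hn3 : n ≤ (2 * S + 2 * δ * m) / 4 + 1)
    (hY : Ye = (m - 1) * e - 2 * W)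
    (h : n * (m - 1) * (12 * e - 36 * m) ≤ 18 * n * Ye + 3 * n ^ 2 * e + (m - 1) * R ^ 2 +
      9 * n * (m - 1) * R) :
    W ≤ 2 * m ^ 2 + 98 / 100 * (m * S) + ε * m ^ 2 := by
  set ρ := 2 * S + 2 * δ * m with hρ
  have hn0 : 0 < n := by linarith
  have hm0 : 0 < m := by linarith
  have hρ0 : 0 ≤ ρ := hR0.trans hR
  subst hY
  have h1 : 36 * n * W ≤ n * (m - 1) * (6 * e + 36 * m) + 3 * n ^ 2 * e + (m - 1) * R ^ 2 +
      9 * n * (m - 1) * R := by nlinarith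
  have a1 : n * (m - 1) * (6 * e + 36 * m) ≤ n * m * (72 * m) := by
    apply mul_le_mul
    · exact mul_le_mul_of_nonneg_left (by linarith) hn0.le
    · linarith
    · nlinarith
    · positivity
  have a2 : 3 * n ^ 2 * e ≤ 3 * n ^ 2 * (6 * m) := mul_le_mul_of_nonneg_left he (by positivity)
  have a3 : (m - 1) * R ^ 2 ≤ m * (4 * n * ρ) := by
    apply mul_le_mul (by linarith) _ (sq_nonneg _) hm0.le
    calc R ^ 2 ≤ ρ ^ 2 := pow_le_pow_left₀ hR0 hR 2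
      _ = ρ * ρ := by ring
      _ ≤ 4 * n * ρ := mul_le_mul_of_nonneg_right (by linarith) hρ0
  have a4 : 9 * n * (m - 1) * R ≤ 9 * n * m * ρ := by
    apply mul_le_mul _ hR hR0 (by positivity)
    exact mul_le_mul_of_nonneg_left (by linarith) (by positivity)
  have h2 : n * (36 * W) ≤ n * (72 * m ^ 2 + 18 * n * m + 4 * m * ρ + 9 * m * ρ) := by nlinarith
  have h3 : 36 * W ≤ 72 * m ^ 2 + 18 * n * m + 4 * m * ρ + 9 * m * ρ := le_of_mul_le_mul_left h2 hn0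
  have h4 : n * m ≤ (ρ / 4 + 1) * m := mul_le_mul_of_nonneg_right hn3 hm0.le
  have h5 : 36 * W ≤ 72 * m ^ 2 + 35 / 2 * (m * ρ) + 18 * m := by nlinarith
  have h6 : m * ρ = 2 * (m * S) + 2 * δ * m ^ 2 := by rw [hρ]; ring
  have h7 : m * 1 ≤ m * (ε * m) := mul_le_mul_of_nonneg_left hmε hm0.le
  have h8 : δ * m ^ 2 ≤ ε / 10 * m ^ 2 := mul_le_mul_of_nonneg_right hδe (by positivity)
  have h9 : 0 ≤ m * S := mul_nonneg hm0.le hS
  have h10 : 0 ≤ ε * m ^ 2 := by nlinarith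
  rw [h6] at h5
  nlinarith

theorem thm_Ci3 (hCiS : St_CiS) (hE3a : St_E3a) (hE3b : St_E3b) (hE3c : St_E3c) (hRes : St_Res) :
    St_Ci3 := by
  refine ⟨98 / 100, by norm_num, ?_⟩
  intro C ε hε
  refine ⟨min (ε / 10) (1 / 100), ⌈1 / ε⌉₊ + 3, by positivity, ?_⟩
  intro k m M a T hT hNk _ hNs _ _
  set δ : ℝ := min (ε / 10) (1 / 100) with hδ
  have hδ0 : 0 < δ := by positivity
  have hδ1 : δ ≤ 1 / 100 := min_le_right _ _
  have hδe : δ ≤ ε / 10 := min_le_left _ _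
  obtain ⟨-, hr, -, -, -, -, hkm⟩ := hRes k m M a T hT
  have hm3 : 3 ≤ m := by omega
  have hm3' : (3 : ℝ) ≤ m := by exact_mod_cast hm3
  have hm0 : 0 < m := by omega
  have hmr : (0 : ℝ) < m := by linarith
  have hmε : 1 ≤ ε * m := by
    have h1 : (⌈1 / ε⌉₊ : ℝ) ≤ m := by
      have : ⌈1 / ε⌉₊ ≤ m := by omega
      exact_mod_cast this
    have h2 : 1 / ε ≤ m := (Nat.le_ceil _).trans h1
    rw [div_le_iff₀ hε] at h2
    linarith
  have hTl : ((Tl T 3).card : ℝ) ≤ m := by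
    have h : (Tl T 3).card ≤ T.card := by
      unfold Tl
      exact Finset.card_filter_le _ _
    rw [hT.card] at h
    exact_mod_cast h
  obtain ⟨hCi, hcard⟩ := hE3a k m M a T hT
  have hY := hE3b k m M a T hT
  have hR := hE3c k m M a T hT
  have hS0 : 0 ≤ SS m M a T := Ci3_SS
  have hW := Ci3_WW (T := T) hr
  have he : ((E3 T).card : ℝ) = 6 * ((Tl T 3).card : ℝ) := by exact_mod_cast hcard
  rcases le_or_gt (SS m M a T) (11 / 10 * m) with hS1 | hS1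
  · set ρ : ℝ := 2 * SS m M a T + 2 * δ * m with hρ
    have hρ0 : 0 ≤ ρ := by positivity
    have hn1 : ρ / 4 ≤ ((⌊ρ / 4⌋₊ + 1 : ℕ) : ℝ) := by
      push_cast
      exact (Nat.lt_floor_add_one _).le
    have hn2 : ((⌊ρ / 4⌋₊ + 1 : ℕ) : ℝ) ≤ ρ / 4 + 1 := by
      push_cast
      have := Nat.floor_le (show 0 ≤ ρ / 4 by positivity)
      linarith
    have hρm : ρ ≤ 222 / 100 * m := by
      have : δ * m ≤ 1 / 100 * m := mul_le_mul_of_nonneg_right hδ1 hmr.le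
      rw [hρ]
      linarith
    have hnm : ⌊ρ / 4⌋₊ + 1 ≤ m := by
      have : ((⌊ρ / 4⌋₊ + 1 : ℕ) : ℝ) ≤ m := by linarith
      exact_mod_cast this
    have hmain := hCiS k m (fun i => ((a i : ℕ) : ZMod m)) ((M + 1 : ℕ) : ZMod m) (E3 T) hm0 hCi
      (⌊ρ / 4⌋₊ + 1) (by omega) hnm
    have hfin := Ci3_ar (m := (m : ℝ)) (n := ((⌊ρ / 4⌋₊ + 1 : ℕ) : ℝ)) (W := WW m M a T 3)
      (S := SS m M a T) (e := ((E3 T).card : ℝ)) (R := ((Rt (E3 T)).card : ℝ)) (δ := δ) (ε := ε)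
      hm3' hS0 hS1 hδ0 hδ1 hδe hmε (Nat.cast_nonneg _) (by rw [he]; linarith) (Nat.cast_nonneg _)
      (hR.trans (by linarith)) (by push_cast; linarith [Nat.cast_nonneg (α := ℝ) ⌊ρ / 4⌋₊]) hn1 hn2
      hY hmain
    have h2 : (((3 : ℕ) : ℝ) + 1) / 2 * (m : ℝ) ^ 2 = 2 * (m : ℝ) ^ 2 := by
      push_cast
      ring
    rw [h2]
    exact hfin
  · have h1 : WW m M a T 3 ≤ 3 * (m : ℝ) ^ 2 := by nlinarith
    have h2 : (m : ℝ) * (11 / 10 * m) ≤ m * SS m M a T := mul_le_mul_of_nonneg_left hS1.le hmr.le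
    have h3 : 0 ≤ ε * (m : ℝ) ^ 2 := by positivity
    have h4 : (((3 : ℕ) : ℝ) + 1) / 2 * (m : ℝ) ^ 2 = 2 * (m : ℝ) ^ 2 := by
      push_cast
      ring
    rw [h4]
    nlinarith

end Pool.Agent.WLW
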