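import Pool.Agent.WLW.St

set_option autoImplicit false

namespace Pool.Agent.WLW

open Finset Pool.Agent.WLK

private lemma CiA_mem {k m : ℕ} {al : Fin k → ZMod m} {A B : Finset (Fin k × Fin k × Fin k)}
    {w : ZMod m} {q : (Fin k × Fin k × Fin k) × (Fin k × Fin k × Fin k)} :
    q ∈ Pr al A B w ↔ q.1 ∈ A ∧ q.2 ∈ B ∧ sg al q.1 + sg al q.2 = w := by
  unfold Pr
  rw [mem_filter, mem_product, and_assoc]

private lemma CiA_Y {k m : ℕ} (al : Fin k → ZMod m) (κ : ZMod m) (hm : 0 < m) (x y : Fin k) :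
    (Y al κ x y : ℝ) ≤ (m : ℝ) - 1 := by
  have : NeZero m := ⟨hm.ne'⟩
  have h : Y al κ x y < m := ZMod.val_lt _
  have h' : Y al κ x y + 1 ≤ m := h
  have : ((Y al κ x y + 1 : ℕ) : ℝ) ≤ (m : ℝ) := by exact_mod_cast h'
  push_cast at this
  linarith

private lemma CiA_cov {k : ℕ} {E : Finset (Fin k × Fin k × Fin k)} {t : Fin k × Fin k × Fin k}
    (ht : t ∈ QQ E) : t ∈ E ∨ t ∈ Rt E := by
  by_cases h : t ∈ E
  · exact Or.inl h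
  · exact Or.inr (by unfold Rt; exact mem_sdiff.2 ⟨ht, h⟩)

private lemma CiA_QQ {k : ℕ} {E : Finset (Fin k × Fin k × Fin k)} {x y z : Fin k}
    (u : Fin k) (ht : (x, y, u) ∈ E) : (x, y, z) ∈ QQ E := by
  unfold QQ
  rw [mem_filter]
  exact ⟨mem_univ _, u, ht⟩

private lemma CiA_four {k m : ℕ} (al : Fin k → ZMod m) (E : Finset (Fin k × Fin k × Fin k))
    (w : ZMod m) (g : (Fin k × Fin k × Fin k) × (Fin k × Fin k × Fin k) → ℝ)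
    (hg : ∀ q, 0 ≤ g q) :
    ∑ q ∈ Pr al (QQ E) (QQ E) w, g q ≤ ∑ q ∈ Pr al E E w, g q + ∑ q ∈ Pr al E (Rt E) w, g q +
      ∑ q ∈ Pr al (Rt E) E w, g q + ∑ q ∈ Pr al (Rt E) (Rt E) w, g q := by
  classical
  have hun : ∀ A B : Finset ((Fin k × Fin k × Fin k) × (Fin k × Fin k × Fin k)),
      ∑ q ∈ A ∪ B, g q ≤ ∑ q ∈ A, g q + ∑ q ∈ B, g q := by
    intro A B
    have h := sum_union_inter (s₁ := A) (s₂ := B) (f := g)
    have h0 : 0 ≤ ∑ q ∈ A ∩ B, g q := sum_nonneg fun q _ => hg q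
    linarith
  have hsub : Pr al (QQ E) (QQ E) w ⊆ ((Pr al E E w ∪ Pr al E (Rt E) w) ∪ Pr al (Rt E) E w) ∪
      Pr al (Rt E) (Rt E) w := by
    intro q hq
    obtain ⟨h1, h2, h3⟩ := CiA_mem.1 hq
    rw [mem_union, mem_union, mem_union]
    rcases CiA_cov h1 with h1 | h1 <;> rcases CiA_cov h2 with h2 | h2
    · exact Or.inl (Or.inl (Or.inl (CiA_mem.2 ⟨h1, h2, h3⟩)))
    · exact Or.inl (Or.inl (Or.inr (CiA_mem.2 ⟨h1, h2, h3⟩)))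
    · exact Or.inl (Or.inr (CiA_mem.2 ⟨h1, h2, h3⟩))
    · exact Or.inr (CiA_mem.2 ⟨h1, h2, h3⟩)
  have h1 := sum_le_sum_of_subset_of_nonneg (f := g) hsub (fun q _ _ => hg q)
  have h2 := hun ((Pr al E E w ∪ Pr al E (Rt E) w) ∪ Pr al (Rt E) E w) (Pr al (Rt E) (Rt E) w)
  have h3 := hun (Pr al E E w ∪ Pr al E (Rt E) w) (Pr al (Rt E) E w)
  have h4 := hun (Pr al E E w) (Pr al E (Rt E) w)
  linarith

private lemma CiA_map {k m : ℕ} (al : Fin k → ZMod m) (κ : ZMod m)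
    (E : Finset (Fin k × Fin k × Fin k)) (hE : Ci al E) (w : ZMod m) :
    ∑ q ∈ Pr al E E w, (Y al κ q.1.2.2 q.2.2.2 : ℝ) ≤
      ∑ q ∈ Pr al (QQ E) (QQ E) w, (Y al κ q.1.2.1 q.1.2.2 : ℝ) := by
  classical
  set f : (Fin k × Fin k × Fin k) × (Fin k × Fin k × Fin k) →
      (Fin k × Fin k × Fin k) × (Fin k × Fin k × Fin k) :=
    fun q => ((q.1.1, q.1.2.2, q.2.2.2), (q.2.1, q.2.2.1, q.1.2.1)) with hf
  have hinj : Set.InjOn f (Pr al E E w : Set _) := by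
    rintro ⟨⟨x1, y1, z1⟩, ⟨x2, y2, z2⟩⟩ _ ⟨⟨u1, v1, w1⟩, ⟨u2, v2, w2⟩⟩ _ h
    simp only [hf, Prod.mk.injEq] at h
    obtain ⟨⟨h1, h2, h3⟩, h4, h5, h6⟩ := h
    subst h1 h2 h3 h4 h5 h6
    rfl
  have him : (Pr al E E w).image f ⊆ Pr al (QQ E) (QQ E) w := by
    intro q' hq'
    obtain ⟨⟨⟨x1, y1, z1⟩, ⟨x2, y2, z2⟩⟩, hq, rfl⟩ := mem_image.1 hq'
    obtain ⟨h1, h2, h3⟩ := CiA_mem.1 hq
    refine CiA_mem.2 ⟨CiA_QQ y1 (hE.s2 _ _ _ h1), CiA_QQ z2 h2, ?_⟩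
    rw [← h3]
    simp only [hf, sg]
    ring
  have h := sum_image (f := fun q : (Fin k × Fin k × Fin k) × (Fin k × Fin k × Fin k) =>
    (Y al κ q.1.2.1 q.1.2.2 : ℝ)) hinj
  have h' : ∑ q ∈ Pr al E E w, (Y al κ q.1.2.2 q.2.2.2 : ℝ) =
      ∑ q ∈ (Pr al E E w).image f, (Y al κ q.1.2.1 q.1.2.2 : ℝ) := h.symm
  rw [h']
  exact sum_le_sum_of_subset_of_nonneg him (fun q _ _ => Nat.cast_nonneg _)

theorem thm_CiA (hMar : St_Mar) (hThr : St_Thr) (hRot : St_Rot) : St_CiA := by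
  intro k m al κ E hm hE w
  obtain ⟨hR1, hR2, hR3, hR4⟩ := hRot k m al E hE
  have hY := CiA_Y al κ hm
  have hm1 : (0 : ℝ) ≤ (m : ℝ) - 1 := by
    have : (1 : ℝ) ≤ m := by exact_mod_cast hm
    linarith
  have h1 : ((m : ℝ) - 1) * ((Pr al E E w).card : ℝ) ≤
      ((Pr al E E w).card : ℝ) * ((3 * κ - 1 - w).val : ℝ) +
      ∑ q ∈ Pr al E E w, (Y al κ q.1.1 q.1.2.1 : ℝ) +
      ∑ q ∈ Pr al E E w, (Y al κ q.2.1 q.2.2.1 : ℝ) +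
      ∑ q ∈ Pr al E E w, (Y al κ q.1.2.2 q.2.2.2 : ℝ) := by
    have h : ∑ q ∈ Pr al E E w, ((m : ℝ) - 1) ≤ ∑ q ∈ Pr al E E w,
        (((3 * κ - 1 - w).val : ℝ) + (Y al κ q.1.1 q.1.2.1 : ℝ) +
       (Y al κ q.2.1 q.2.2.1 : ℝ) + (Y al κ q.1.2.2 q.2.2.2 : ℝ)) := by
      refine sum_le_sum fun q hq => ?_
      have h := hThr k m al κ w hm q.1 q.2 (CiA_mem.1 hq).2.2
      have h' : (m : ℝ) ≤ 1 + ((3 * κ - 1 - w).val : ℝ) + Y al κ q.1.1 q.1.2.1 +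
          Y al κ q.2.1 q.2.2.1 + Y al κ q.1.2.2 q.2.2.2 := by
        exact_mod_cast h
      linarith
    simp only [sum_add_distrib, sum_const, nsmul_eq_mul] at h
    linarith
  -- number of the pairs
  have h2 : ((Pr al E E w).card : ℝ) ≤ 6 * (E.card : ℝ) := by
    have h := (hMar k m al E hE w E (fun _ => 1) (fun _ => zero_le_one)).1
    simpa using h
  have h2R : ((Pr al (Rt E) E w).card : ℝ) ≤ 6 * ((Rt E).card : ℝ) := by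
    have h := (hMar k m al E hE w (Rt E) (fun _ => 1) (fun _ => zero_le_one)).1
    simpa using h
  have hYe : ∑ t ∈ E, (Y al κ t.1 t.2.1 : ℝ) = (Ye al κ E : ℝ) := by
    unfold Ye
    push_cast
    rfl
  have h3 : ∑ q ∈ Pr al E E w, (Y al κ q.1.1 q.1.2.1 : ℝ) ≤ 6 * (Ye al κ E : ℝ) := by
    have h := (hMar k m al E hE w E (fun t => (Y al κ t.1 t.2.1 : ℝ))
      (fun _ => Nat.cast_nonneg _)).1
    rw [hYe] at h
    exact h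
  have h4 : ∑ q ∈ Pr al E E w, (Y al κ q.2.1 q.2.2.1 : ℝ) ≤ 6 * (Ye al κ E : ℝ) := by
    have h := (hMar k m al E hE w E (fun t => (Y al κ t.1 t.2.1 : ℝ))
      (fun _ => Nat.cast_nonneg _)).2
    rw [hYe] at h
    exact h
  have h5 := CiA_map al κ E hE w
  have h6 := CiA_four al E w (fun q => (Y al κ q.1.2.1 q.1.2.2 : ℝ)) (fun _ => Nat.cast_nonneg _)
  have h7 : ∑ q ∈ Pr al E E w, (Y al κ q.1.2.1 q.1.2.2 : ℝ) ≤ 6 * (Ye al κ E : ℝ) := by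
    have h := (hMar k m al E hE w E (fun t => (Y al κ t.2.1 t.2.2 : ℝ))
      (fun _ => Nat.cast_nonneg _)).1
    have h' := hR1 (fun x y _ => (Y al κ x y : ℝ))
    rw [hYe] at h'
    rw [h'] at h
    exact h
  have h8 : ∑ q ∈ Pr al E (Rt E) w, (Y al κ q.1.2.1 q.1.2.2 : ℝ) = (FF al κ E w : ℝ) := by
    have h := hR4 w E (Rt E) (fun t _ => (Y al κ t.2.1 t.2.2 : ℝ))
    have h' := hR3 w (Rt E) (fun x y _ => (Y al κ x y : ℝ))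
    rw [h]
    rw [h']
    unfold FF
    push_cast
    rfl
  have h9 : ∑ q ∈ Pr al (Rt E) E w, (Y al κ q.1.2.1 q.1.2.2 : ℝ) ≤
      6 * ((m : ℝ) - 1) * ((Rt E).card : ℝ) := by
    have h : ∑ q ∈ Pr al (Rt E) E w, (Y al κ q.1.2.1 q.1.2.2 : ℝ) ≤
        ∑ q ∈ Pr al (Rt E) E w, ((m : ℝ) - 1) := sum_le_sum fun q _ => hY _ _
    rw [sum_const, nsmul_eq_mul] at h
    have h' := mul_le_mul_of_nonneg_right h2R hm1
    linarith
  have h10 : ∑ q ∈ Pr al (Rt E) (Rt E) w, (Y al κ q.1.2.1 q.1.2.2 : ℝ) ≤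
      ((m : ℝ) - 1) * ((Pr al (Rt E) (Rt E) w).card : ℝ) := by
    have h : ∑ q ∈ Pr al (Rt E) (Rt E) w, (Y al κ q.1.2.1 q.1.2.2 : ℝ) ≤
        ∑ q ∈ Pr al (Rt E) (Rt E) w, ((m : ℝ) - 1) := sum_le_sum fun q _ => hY _ _
    rw [sum_const, nsmul_eq_mul] at h
    linarith
  have h11 : ((Pr al E E w).card : ℝ) * ((3 * κ - 1 - w).val : ℝ) ≤
      6 * (E.card : ℝ) * ((3 * κ - 1 - w).val : ℝ) :=
    mul_le_mul_of_nonneg_right h2 (Nat.cast_nonneg _)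
  linarith

end Pool.Agent.WLW
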