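import Pool.Agent.WLW.St

/-!
# WLW, module CiB: the second swap inequality (the involution)
-/

set_option autoImplicit false

namespace Pool.Agent.WLW

open Finset Pool.Agent.WLK

private theorem CiB_mem {k m : ℕ} (al : Fin k → ZMod m) (A B : Finset (Fin k × Fin k × Fin k))
    (w : ZMod m) (q : (Fin k × Fin k × Fin k) × (Fin k × Fin k × Fin k)) :
    q ∈ Pr al A B w ↔ q.1 ∈ A ∧ q.2 ∈ B ∧ sg al q.1 + sg al q.2 = w := by
  simp [Pr, and_assoc]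

private theorem CiB_un {α : Type*} [DecidableEq α] (s t : Finset α) (f : α → ℝ)
    (hf : ∀ x, 0 ≤ f x) : ∑ x ∈ s ∪ t, f x ≤ ∑ x ∈ s, f x + ∑ x ∈ t, f x := by
  have h := Finset.sum_union_inter (s₁ := s) (s₂ := t) (f := f)
  have h2 : 0 ≤ ∑ x ∈ s ∩ t, f x := Finset.sum_nonneg fun x _ => hf x
  linarith

private theorem CiB_comm {k m : ℕ} (al : Fin k → ZMod m) (κ : ZMod m) (x y : Fin k) :
    Y al κ x y = Y al κ y x := by
  unfold Y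
  rw [add_comm]

private theorem CiB_mQ {k : ℕ} (E : Finset (Fin k × Fin k × Fin k)) (x y z u : Fin k)
    (h : (x, y, u) ∈ E) : (x, y, z) ∈ QQ E := by
  unfold QQ
  rw [Finset.mem_filter]
  exact ⟨Finset.mem_univ _, u, h⟩

private theorem CiB_spl {k : ℕ} (E : Finset (Fin k × Fin k × Fin k)) (t : Fin k × Fin k × Fin k)
    (h : t ∈ QQ E) : t ∈ E ∨ t ∈ Rt E := by
  by_cases h1 : t ∈ E
  · exact Or.inl h1
  · right
    unfold Rt
    rw [Finset.mem_sdiff]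
    exact ⟨h, h1⟩

/-- the involution -/
private def CiB_ph {k : ℕ} (q : (Fin k × Fin k × Fin k) × (Fin k × Fin k × Fin k)) :
    (Fin k × Fin k × Fin k) × (Fin k × Fin k × Fin k) :=
  ((q.1.1, q.2.2.2, q.1.2.2), (q.2.1, q.2.2.1, q.1.2.1))

/-- the injection -/
private def CiB_ps {k : ℕ} (q : (Fin k × Fin k × Fin k) × (Fin k × Fin k × Fin k)) :
    (Fin k × Fin k × Fin k) × (Fin k × Fin k × Fin k) :=
  ((q.1.1, q.1.2.2, q.2.2.2), (q.2.1, q.2.2.1, q.1.2.1))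

private theorem CiB_php {k : ℕ} (q : (Fin k × Fin k × Fin k) × (Fin k × Fin k × Fin k)) :
    CiB_ph (CiB_ph q) = q := rfl

private theorem CiB_sph {k m : ℕ} (al : Fin k → ZMod m)
    (q : (Fin k × Fin k × Fin k) × (Fin k × Fin k × Fin k)) :
    sg al (CiB_ph q).1 + sg al (CiB_ph q).2 = sg al q.1 + sg al q.2 := by
  simp only [CiB_ph, sg]
  ring

private theorem CiB_sps {k m : ℕ} (al : Fin k → ZMod m)
    (q : (Fin k × Fin k × Fin k) × (Fin k × Fin k × Fin k)) :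
    sg al (CiB_ps q).1 + sg al (CiB_ps q).2 = sg al q.1 + sg al q.2 := by
  simp only [CiB_ps, sg]
  ring

private theorem CiB_inj {k : ℕ} : Function.Injective (CiB_ps (k := k)) := by
  rintro ⟨⟨a, b, c⟩, d, e, f⟩ ⟨⟨a', b', c'⟩, d', e', f'⟩ h
  simp only [CiB_ps, Prod.mk.injEq] at h
  obtain ⟨⟨h1, h2, h3⟩, h4, h5, h6⟩ := h
  subst h1 h2 h3 h4 h5 h6
  rfl

theorem thm_CiB (hMar : St_Mar) (hThr : St_Thr) (hRot : St_Rot) : St_CiB := by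
  intro k m al κ E hm hE w
  obtain ⟨hR1, -, -, -⟩ := hRot k m al E hE
  have hYb : ∀ a b : Fin k, (Y al κ a b : ℝ) ≤ (m : ℝ) - 1 := by
    intro a b
    have : NeZero m := ⟨by omega⟩
    have h1 : Y al κ a b + 1 ≤ m := ZMod.val_lt _
    have h2 : ((Y al κ a b : ℕ) : ℝ) + 1 ≤ m := by exact_mod_cast h1
    linarith
  have hm1 : (0 : ℝ) ≤ (m : ℝ) - 1 := by
    have h2 : (1 : ℝ) ≤ m := by exact_mod_cast hm
    linarith
  have hYe : (Ye al κ E : ℝ) = ∑ t ∈ E, (Y al κ t.1 t.2.1 : ℝ) := by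
    unfold Ye
    push_cast
    rfl
  -- the four marginals
  have h1 : ∑ q ∈ Pr al E E w, (Y al κ q.1.1 q.1.2.1 : ℝ) ≤ 6 * (Ye al κ E : ℝ) := by
    rw [hYe]
    exact (hMar k m al E hE w E (fun t => (Y al κ t.1 t.2.1 : ℝ)) (fun t => Nat.cast_nonneg _)).1
  have h2 : ∑ q ∈ Pr al E E w, (Y al κ q.2.1 q.2.2.1 : ℝ) ≤ 6 * (Ye al κ E : ℝ) := by
    rw [hYe]
    exact (hMar k m al E hE w E (fun t => (Y al κ t.1 t.2.1 : ℝ)) (fun t => Nat.cast_nonneg _)).2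
  have h3 : ∑ q ∈ Pr al E E w, (Y al κ q.1.2.2 q.1.2.1 : ℝ) ≤ 6 * (Ye al κ E : ℝ) := by
    have h := (hMar k m al E hE w E (fun t => (Y al κ t.2.2 t.2.1 : ℝ))
      (fun t => Nat.cast_nonneg _)).1
    have h' : ∑ t ∈ E, (Y al κ t.2.2 t.2.1 : ℝ) = (Ye al κ E : ℝ) := by
      rw [hYe, ← hR1 (fun x y _ => (Y al κ x y : ℝ))]
      refine Finset.sum_congr rfl fun t _ => ?_
      rw [CiB_comm]
    rw [← h']
    exact h
  have h4 : ((Pr al E E w).card : ℝ) ≤ 6 * E.card := by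
    have h := (hMar k m al E hE w E (fun _ => (1 : ℝ)) (fun t => zero_le_one)).1
    simpa using h
  have h4a : ((Pr al (Rt E) E w).card : ℝ) ≤ 6 * (Rt E).card := by
    have h := (hMar k m al E hE w (Rt E) (fun _ => (1 : ℝ)) (fun t => zero_le_one)).1
    simpa using h
  have h4b : ((Pr al E (Rt E) w).card : ℝ) ≤ 6 * (Rt E).card := by
    have h := (hMar k m al E hE w (Rt E) (fun _ => (1 : ℝ)) (fun t => zero_le_one)).2
    simpa using h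
  classical
  -- the good part and the bad part
  obtain ⟨G, hG⟩ : ∃ G, G = (Pr al E E w).filter fun q => CiB_ph q ∈ Pr al E E w := ⟨_, rfl⟩
  obtain ⟨H, hH⟩ : ∃ H, H = (Pr al E E w).filter fun q => ¬ CiB_ph q ∈ Pr al E E w := ⟨_, rfl⟩
  have hsp : ∀ f : (Fin k × Fin k × Fin k) × (Fin k × Fin k × Fin k) → ℝ,
      ∑ q ∈ G, f q + ∑ q ∈ H, f q = ∑ q ∈ Pr al E E w, f q := by
    intro f
    rw [hG, hH]
    exact Finset.sum_filter_add_sum_filter_not _ _ _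
  have h5 : ∑ q ∈ G, (Y al κ q.1.2.2 q.2.2.2 : ℝ) = ∑ q ∈ G, (Y al κ q.1.2.2 q.1.2.1 : ℝ) := by
    refine Finset.sum_nbij' CiB_ph CiB_ph ?_ ?_ ?_ ?_ ?_
    · intro q hq
      rw [hG, Finset.mem_filter] at hq ⊢
      exact ⟨hq.2, hq.1⟩
    · intro q hq
      rw [hG, Finset.mem_filter] at hq ⊢
      exact ⟨hq.2, hq.1⟩
    · intro q _
      rfl
    · intro q _
      rfl
    · intro q _
      rfl
  have h6 : ((m : ℝ) - 1) * (G.card : ℝ) ≤ ((3 * κ - 1 - w).val : ℝ) * G.card +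
      ∑ q ∈ G, (Y al κ q.1.1 q.1.2.1 : ℝ) + ∑ q ∈ G, (Y al κ q.2.1 q.2.2.1 : ℝ) +
      ∑ q ∈ G, (Y al κ q.1.2.2 q.2.2.2 : ℝ) := by
    have h : ∑ q ∈ G, ((m : ℝ) - 1) ≤ ∑ q ∈ G, (((3 * κ - 1 - w).val : ℝ) +
        (Y al κ q.1.1 q.1.2.1 : ℝ) + (Y al κ q.2.1 q.2.2.1 : ℝ) +
        (Y al κ q.1.2.2 q.2.2.2 : ℝ)) := by
      refine Finset.sum_le_sum fun q hq => ?_
      rw [hG, Finset.mem_filter, CiB_mem] at hq
      have h := hThr k m al κ w hm q.1 q.2 hq.1.2.2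
      have h' : (m : ℝ) ≤ 1 + ((3 * κ - 1 - w).val : ℝ) + (Y al κ q.1.1 q.1.2.1 : ℝ) +
        (Y al κ q.2.1 q.2.2.1 : ℝ) + (Y al κ q.1.2.2 q.2.2.2 : ℝ) := by exact_mod_cast h
      linarith
    rw [Finset.sum_add_distrib, Finset.sum_add_distrib, Finset.sum_add_distrib, Finset.sum_const,
      Finset.sum_const, nsmul_eq_mul, nsmul_eq_mul] at h
    linarith
  have hf0 : ∀ q : (Fin k × Fin k × Fin k) × (Fin k × Fin k × Fin k),
      0 ≤ (m : ℝ) - 1 - (Y al κ q.2.1 q.2.2.1 : ℝ) := fun q => by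
    have := hYb q.2.1 q.2.2.1
    linarith
  have h7 : ∑ q ∈ H, ((m : ℝ) - 1 - (Y al κ q.2.1 q.2.2.1 : ℝ)) ≤
      ∑ q ∈ Pr al (Rt E) E w, ((m : ℝ) - 1 - (Y al κ q.2.1 q.2.2.1 : ℝ)) +
      ∑ q ∈ Pr al E (Rt E) w, ((m : ℝ) - 1 - (Y al κ q.2.1 q.2.2.1 : ℝ)) +
      ∑ q ∈ Pr al (Rt E) (Rt E) w, ((m : ℝ) - 1 - (Y al κ q.2.1 q.2.2.1 : ℝ)) := by
    have ha : ∑ q ∈ H, ((m : ℝ) - 1 - (Y al κ q.2.1 q.2.2.1 : ℝ)) =
        ∑ q ∈ H.image CiB_ps, ((m : ℝ) - 1 - (Y al κ q.2.1 q.2.2.1 : ℝ)) := by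
      rw [Finset.sum_image (fun a _ b _ h => CiB_inj h)]
      rfl
    rw [ha]
    refine (Finset.sum_le_sum_of_subset_of_nonneg (t := (Pr al (Rt E) E w ∪ Pr al E (Rt E) w) ∪
      Pr al (Rt E) (Rt E) w) ?_ (fun q _ _ => hf0 q)).trans ?_
    · intro r hr
      rw [Finset.mem_image] at hr
      obtain ⟨q, hq, rfl⟩ := hr
      rw [hH, Finset.mem_filter, CiB_mem, CiB_mem] at hq
      obtain ⟨⟨hq1, hq2, hq3⟩, hq4⟩ := hq
      have hs : sg al (CiB_ps q).1 + sg al (CiB_ps q).2 = w := by rw [CiB_sps, hq3]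
      have hs' : sg al (CiB_ph q).1 + sg al (CiB_ph q).2 = w := by rw [CiB_sph, hq3]
      have hA : (CiB_ps q).1 ∈ E ∨ (CiB_ps q).1 ∈ Rt E :=
        CiB_spl E _ (CiB_mQ E _ _ _ q.1.2.1 (hE.s2 _ _ _ hq1))
      have hB : (CiB_ps q).2 ∈ E ∨ (CiB_ps q).2 ∈ Rt E :=
        CiB_spl E _ (CiB_mQ E _ _ _ q.2.2.2 hq2)
      rw [Finset.mem_union, Finset.mem_union, CiB_mem, CiB_mem, CiB_mem]
      rcases hA with hA | hA
      · rcases hB with hB | hB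
        · exact absurd ⟨hE.s2 _ _ _ hA, hB, hs'⟩ hq4
        · exact Or.inl (Or.inr ⟨hA, hB, hs⟩)
      · rcases hB with hB | hB
        · exact Or.inl (Or.inl ⟨hA, hB, hs⟩)
        · exact Or.inr ⟨hA, hB, hs⟩
    · have hu1 := CiB_un (Pr al (Rt E) E w ∪ Pr al E (Rt E) w) (Pr al (Rt E) (Rt E) w) _ hf0
      have hu2 := CiB_un (Pr al (Rt E) E w) (Pr al E (Rt E) w) _ hf0
      linarith
  have h8 : ∑ q ∈ Pr al (Rt E) E w, ((m : ℝ) - 1 - (Y al κ q.2.1 q.2.2.1 : ℝ)) =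
      ((m : ℝ) - 1) * (Pr al (Rt E) E w).card - FF al κ E w := by
    rw [Finset.sum_sub_distrib, Finset.sum_const, nsmul_eq_mul]
    unfold FF
    push_cast
    ring
  have h9 : ∀ A B : Finset (Fin k × Fin k × Fin k),
      ∑ q ∈ Pr al A B w, ((m : ℝ) - 1 - (Y al κ q.2.1 q.2.2.1 : ℝ)) ≤
      ((m : ℝ) - 1) * (Pr al A B w).card := by
    intro A B
    have h : ∑ q ∈ Pr al A B w, ((m : ℝ) - 1 - (Y al κ q.2.1 q.2.2.1 : ℝ)) ≤
        ∑ q ∈ Pr al A B w, ((m : ℝ) - 1) := by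
      refine Finset.sum_le_sum fun q _ => ?_
      have : (0 : ℝ) ≤ (Y al κ q.2.1 q.2.2.1 : ℝ) := Nat.cast_nonneg _
      linarith
    rw [Finset.sum_const, nsmul_eq_mul] at h
    linarith
  have h9a := h9 E (Rt E)
  have h9b := h9 (Rt E) (Rt E)
  -- the cardinality of Γ
  have h10 : (G.card : ℝ) + H.card = (Pr al E E w).card := by
    have h := hsp (fun _ => 1)
    simpa using h
  have h11 : ∑ q ∈ H, ((m : ℝ) - 1 - (Y al κ q.2.1 q.2.2.1 : ℝ)) =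
      ((m : ℝ) - 1) * H.card - ∑ q ∈ H, (Y al κ q.2.1 q.2.2.1 : ℝ) := by
    rw [Finset.sum_sub_distrib, Finset.sum_const, nsmul_eq_mul]
    ring
  have e1 := hsp (fun q => (Y al κ q.1.1 q.1.2.1 : ℝ))
  have e2 := hsp (fun q => (Y al κ q.2.1 q.2.2.1 : ℝ))
  have e3 := hsp (fun q => (Y al κ q.1.2.2 q.1.2.1 : ℝ))
  have n1 : 0 ≤ ∑ q ∈ H, (Y al κ q.1.1 q.1.2.1 : ℝ) :=
    Finset.sum_nonneg fun q _ => Nat.cast_nonneg _
  have n3 : 0 ≤ ∑ q ∈ H, (Y al κ q.1.2.2 q.1.2.1 : ℝ) :=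
    Finset.sum_nonneg fun q _ => Nat.cast_nonneg _
  have hH0 : (0 : ℝ) ≤ H.card := Nat.cast_nonneg _
  have hW0 : (0 : ℝ) ≤ ((3 * κ - 1 - w).val : ℝ) := Nat.cast_nonneg _
  have f1 : ((3 * κ - 1 - w).val : ℝ) * G.card ≤ ((3 * κ - 1 - w).val : ℝ) * (6 * E.card) :=
    mul_le_mul_of_nonneg_left (by linarith) hW0
  have f2 : ((m : ℝ) - 1) * (Pr al (Rt E) E w).card ≤ ((m : ℝ) - 1) * (6 * (Rt E).card) :=
    mul_le_mul_of_nonneg_left h4a hm1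
  have f3 : ((m : ℝ) - 1) * (Pr al E (Rt E) w).card ≤ ((m : ℝ) - 1) * (6 * (Rt E).card) :=
    mul_le_mul_of_nonneg_left h4b hm1
  have f4 : ((m : ℝ) - 1) * (Pr al E E w).card = ((m : ℝ) - 1) * G.card + ((m : ℝ) - 1) * H.card := by
    rw [← h10]
    ring
  nlinarith [h1, h2, h3]

end Pool.Agent.WLW

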