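import Pool.Agent.WLW.St

/-!
# WLW: degree three, the sum over `w`
-/

set_option autoImplicit false

namespace Pool.Agent.WLW

open Finset Pool.Agent.WLK Pool.Agent.Helper60.Wilf Pool.Agent.Helper82.Wilf

private theorem CiS_id (n : ℕ) : ∑ j ∈ range n, (j : ℝ) = ((n : ℝ) ^ 2 - n) / 2 := by
  induction n with
  | zero => simp
  | succ n ih =>
    rw [Finset.sum_range_succ, ih]
    push_cast
    ring

private theorem CiS_card {k m : ℕ} (al : Fin k → ZMod m) (κ : ZMod m)
    (A : Finset (Fin k × Fin k × Fin k)) (n : ℕ) (hn : n ≤ m) :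
    ∑ j ∈ range n, (Pr al A A (3 * κ - 1 - (j : ZMod m))).card ≤ A.card ^ 2 := by
  classical
  rw [← Finset.card_biUnion]
  · have h1 : (range n).biUnion (fun j => Pr al A A (3 * κ - 1 - ((j : ℕ) : ZMod m))) ⊆ A ×ˢ A := by
      intro q hq
      obtain ⟨j, _, hj⟩ := Finset.mem_biUnion.1 hq
      exact (Finset.mem_filter.1 hj).1
    refine (Finset.card_le_card h1).trans ?_
    rw [Finset.card_product, sq]
  · intro i hi j hj hij
    rw [Function.onFun, Finset.disjoint_left]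
    intro q hq hq'
    have h1 := (Finset.mem_filter.1 hq).2
    have h2 := (Finset.mem_filter.1 hq').2
    rw [h1] at h2
    have h3 : ((i : ℕ) : ZMod m) = ((j : ℕ) : ZMod m) := sub_right_injective h2
    apply hij
    have h4 := congrArg ZMod.val h3
    have hi' : i < m := lt_of_lt_of_le (Finset.mem_range.1 (Finset.mem_coe.1 hi)) hn
    have hj' : j < m := lt_of_lt_of_le (Finset.mem_range.1 (Finset.mem_coe.1 hj)) hn
    rwa [ZMod.val_natCast, ZMod.val_natCast, Nat.mod_eq_of_lt hi', Nat.mod_eq_of_lt hj'] at h4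

/-- **CIS** -/
theorem thm_CiS (hCiA : St_CiA) (hCiB : St_CiB) (hGcd : St_Gcd) : St_CiS := by
  intro k m al κ E hm hE n hn1 hnm
  have hm1 : (0 : ℝ) ≤ (m : ℝ) - 1 := by
    have : (1 : ℝ) ≤ m := by exact_mod_cast hm
    linarith
  have key : ∀ j ∈ range n, ((m : ℝ) - 1) * (12 * E.card - 36 * m) ≤
      (18 * (Ye al κ E : ℝ) + 9 * ((m : ℝ) - 1) * (Rt E).card) + 6 * E.card * (j : ℝ) +
      ((m : ℝ) - 1) * ((Pr al (Rt E) (Rt E) (3 * κ - 1 - (j : ZMod m))).card : ℝ) := by
    intro j hj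
    have hjm : j < m := lt_of_lt_of_le (Finset.mem_range.1 hj) hnm
    have hj' : (3 * κ - 1 - (3 * κ - 1 - (j : ZMod m))).val = j := by
      rw [sub_sub_cancel, ZMod.val_natCast, Nat.mod_eq_of_lt hjm]
    have h1 := hCiA k m al κ E hm hE (3 * κ - 1 - (j : ZMod m))
    have h2 := hCiB k m al κ E hm hE (3 * κ - 1 - (j : ZMod m))
    have h3 := hGcd k m al E hm hE (3 * κ - 1 - (j : ZMod m))
    rw [hj'] at h1 h2
    have h3' : (12 : ℝ) * E.card ≤ (Pr al E E (3 * κ - 1 - (j : ZMod m))).card + 36 * m := by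
      exact_mod_cast h3
    have h4 : ((m : ℝ) - 1) * (12 * E.card - 36 * m) ≤
        ((m : ℝ) - 1) * ((Pr al E E (3 * κ - 1 - (j : ZMod m))).card : ℝ) :=
      mul_le_mul_of_nonneg_left (by linarith) hm1
    linarith
  have hsum := Finset.sum_le_sum key
  rw [Finset.sum_add_distrib, Finset.sum_add_distrib, Finset.sum_const, Finset.sum_const,
    Finset.card_range, nsmul_eq_mul, nsmul_eq_mul, ← Finset.mul_sum, ← Finset.mul_sum,
    CiS_id] at hsum
  have hc := CiS_card al κ (Rt E) n hnm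
  have hc' : ∑ j ∈ range n, ((Pr al (Rt E) (Rt E) (3 * κ - 1 - (j : ZMod m))).card : ℝ) ≤
      ((Rt E).card : ℝ) ^ 2 := by exact_mod_cast hc
  have h5 := mul_le_mul_of_nonneg_left hc' hm1
  have h6 : (0 : ℝ) ≤ (E.card : ℝ) * n := by positivity
  nlinarith [hsum, h5, h6]

end Pool.Agent.WLW
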