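import Pool.Agent.WLK.Defs

/-!
# WLW (helper53): the windows in Wilf's inequality for large embedding dimension (MP_05ec03_nt)

Definitions. Everything about `T`, `sw`, `ff`, `rr`, `nu`, `Tl`, .. is in `Pool/Agent/WLK/Defs.lean`.
-/

set_option autoImplicit false

namespace Pool.Agent.WLW

open Finset Pool.Agent.WLK

/-- the weighted number of the directions which leave `T` -/
noncomputable def SS {k : ℕ} (m M : ℕ) (a : Fin k → ℕ) (T : Finset (Fin k → ℕ)) : ℝ :=
  ∑ x ∈ T, ((k : ℝ) - nu T x) * ff m M a x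

/-- the sum of the residues of the neighbours below the squarefree elements of degree `p` -/
noncomputable def WW {k : ℕ} (m M : ℕ) (a : Fin k → ℕ) (T : Finset (Fin k → ℕ)) (p : ℕ) : ℝ :=
  ∑ y ∈ Tl T p, ∑ i ∈ su y, (rr m M a (y - Pi.single i 1) : ℝ)

/-- the squarefree elements of degree `p` at small distance -/
def Gd {k : ℕ} (m M : ℕ) (a : Fin k → ℕ) (T : Finset (Fin k → ℕ)) (p : ℕ) : Finset (Fin k → ℕ) :=
  (Tl T p).filter fun y => ff m M a y = 0

/-- the main property of the degree `p` -/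
def Cir (p : ℕ) : Prop := ∃ c : ℝ, c < 1 ∧ ∀ C ε : ℝ, 0 < ε → ∃ (δ : ℝ) (N : ℕ), 0 < δ ∧
  ∀ (k m M : ℕ) (a : Fin k → ℕ) (T : Finset (Fin k → ℕ)), Ty m M a T → N ≤ k →
  (k : ℝ) ^ p ≤ C * m → ((Ns T).card : ℝ) ≤ δ * m → ((JJ T).card : ℝ) ≤ δ * m →
  (1 - δ) * m ≤ ((Gd m M a T p).card : ℝ) →
  WW m M a T p ≤ ((p : ℝ) + 1) / 2 * (m : ℝ) ^ 2 + c * (m * SS m M a T) + ε * (m : ℝ) ^ 2

/-! ### Degree three: ordered triples of letters with values in `ZMod m` -/

/-- the sum of the three letters -/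
def sg {k m : ℕ} (al : Fin k → ZMod m) (t : Fin k × Fin k × Fin k) : ZMod m :=
  al t.1 + al t.2.1 + al t.2.2

/-- the residue of a pair of letters -/
def Y {k m : ℕ} (al : Fin k → ZMod m) (κ : ZMod m) (x y : Fin k) : ℕ := (al x + al y - κ).val

/-- symmetric set of triples; every value of the sum has at most six triples -/
structure Ci {k m : ℕ} (al : Fin k → ZMod m) (E : Finset (Fin k × Fin k × Fin k)) : Prop where
  s1 : ∀ x y z, (x, y, z) ∈ E → (y, x, z) ∈ E
  s2 : ∀ x y z, (x, y, z) ∈ E → (x, z, y) ∈ E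
  fib : ∀ s : ZMod m, (E.filter fun t => sg al t = s).card ≤ 6

/-- the triples whose first two letters can be completed to an element of `E` -/
def QQ {k : ℕ} (E : Finset (Fin k × Fin k × Fin k)) : Finset (Fin k × Fin k × Fin k) :=
  univ.filter fun t => ∃ z, (t.1, t.2.1, z) ∈ E

/-- the triples outside `E` whose first two letters can be completed to an element of `E` -/
def Rt {k : ℕ} (E : Finset (Fin k × Fin k × Fin k)) : Finset (Fin k × Fin k × Fin k) := QQ E \ E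

/-- the pairs in `A ×ˢ B` with sum `w` -/
def Pr {k m : ℕ} (al : Fin k → ZMod m) (A B : Finset (Fin k × Fin k × Fin k)) (w : ZMod m) :
    Finset ((Fin k × Fin k × Fin k) × (Fin k × Fin k × Fin k)) :=
  (A ×ˢ B).filter fun q => sg al q.1 + sg al q.2 = w

/-- the sum of the residues of the first two letters over `E` -/
def Ye {k m : ℕ} (al : Fin k → ZMod m) (κ : ZMod m) (E : Finset (Fin k × Fin k × Fin k)) : ℕ :=
  ∑ t ∈ E, Y al κ t.1 t.2.1

/-- the sum of the residues of the first two letters of `t ∈ E` over the pairs `(r, t)` with `r ∈ Rt E` -/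
def FF {k m : ℕ} (al : Fin k → ZMod m) (κ : ZMod m) (E : Finset (Fin k × Fin k × Fin k))
    (w : ZMod m) : ℕ := ∑ q ∈ Pr al (Rt E) E w, Y al κ q.2.1 q.2.2.1

/-- the ordered triples of different letters with `e_x + e_y + e_z ∈ T` -/
def E3 {k : ℕ} (T : Finset (Fin k → ℕ)) : Finset (Fin k × Fin k × Fin k) :=
  univ.filter fun t => t.1 ≠ t.2.1 ∧ t.1 ≠ t.2.2 ∧ t.2.1 ≠ t.2.2 ∧
    Pi.single t.1 1 + Pi.single t.2.1 1 + Pi.single t.2.2 1 ∈ T

/-- the windows for the degrees `p ≥ 3` without the property `Cir p` -/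
def Win2 (ε : ℝ) (P : ℕ → Prop) (m d : ℕ) : Prop := ∃ p : ℕ, 3 ≤ p ∧ (p : ℝ) ≤ 3 / ε ∧ ¬ P p ∧
  (1 - ε) * ((Nat.factorial p : ℝ) * m) < (d : ℝ) ^ p ∧
  (d : ℝ) ^ p < (1 + ε) * ((3 / 2 - 1 / (p : ℝ)) ^ p * ((Nat.factorial p : ℝ) * m))

end Pool.Agent.WLW
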