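import Pool.Agent.WLW.St

/-!
# WLW: the module E3a (helper55)
-/

set_option autoImplicit false

namespace Pool.Agent.WLW

open Finset Pool.Agent.WLK

private theorem E3a_su {k : ℕ} {x y z : Fin k} :
    su (Pi.single x 1 + Pi.single y 1 + Pi.single z 1 : Fin k → ℕ) = {x, y, z} := by
  ext i
  simp only [su, mem_filter, mem_univ, true_and, mem_insert, mem_singleton, Pi.add_apply,
    Pi.single_apply]
  by_cases h1 : i = x <;> by_cases h2 : i = y <;> by_cases h3 : i = z <;> simp [h1, h2, h3]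

private theorem E3a_le {k : ℕ} {x y z : Fin k} (hxy : x ≠ y) (hxz : x ≠ z) (hyz : y ≠ z)
    (i : Fin k) : (Pi.single x 1 + Pi.single y 1 + Pi.single z 1 : Fin k → ℕ) i ≤ 1 := by
  simp only [Pi.add_apply, Pi.single_apply]
  by_cases h1 : i = x
  · subst h1; simp [hxy, hxz]
  · by_cases h2 : i = y
    · subst h2; simp [h1, hyz]
    · simp only [if_neg h1, if_neg h2]; split_ifs <;> simp

private theorem E3a_sum {k : ℕ} (x y z : Fin k) :
    ∑ i, (Pi.single x 1 + Pi.single y 1 + Pi.single z 1 : Fin k → ℕ) i = 3 := by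
  simp only [Pi.add_apply, sum_add_distrib]
  simp [Pi.single_apply]

private theorem E3a_eq {k : ℕ} (u : Fin k → ℕ) (h1 : ∀ i, u i ≤ 1) {x y z : Fin k}
    (hxy : x ≠ y) (hxz : x ≠ z) (hyz : y ≠ z) (hs : su u = {x, y, z}) :
    (Pi.single x 1 + Pi.single y 1 + Pi.single z 1 : Fin k → ℕ) = u := by
  ext i
  have e1 : i ∈ su u ↔ u i ≠ 0 := by simp [su]
  have e2 : i ∈ su u ↔ (Pi.single x 1 + Pi.single y 1 + Pi.single z 1 : Fin k → ℕ) i ≠ 0 := by
    rw [hs, ← E3a_su]; simp only [su, mem_filter, mem_univ, true_and]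
  have l1 := h1 i
  have l2 := E3a_le hxy hxz hyz i
  have e3 := e1.symm.trans e2
  omega

private theorem E3a_card {k : ℕ} (u : Fin k → ℕ) (h1 : ∀ i, u i ≤ 1) (h3 : ∑ i, u i = 3) :
    (su u).card = 3 := by
  rw [← h3, su, card_filter]
  apply sum_congr rfl
  intro i _
  have := h1 i
  split_ifs <;> omega

private theorem E3a_mem {k : ℕ} (T : Finset (Fin k → ℕ)) (t : Fin k × Fin k × Fin k) :
    t ∈ E3 T ↔ t.1 ≠ t.2.1 ∧ t.1 ≠ t.2.2 ∧ t.2.1 ≠ t.2.2 ∧
      Pi.single t.1 1 + Pi.single t.2.1 1 + Pi.single t.2.2 1 ∈ T := by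
  simp only [E3, mem_filter, mem_univ, true_and]

/-- the vector of a triple -/
private def E3a_v {k : ℕ} (t : Fin k × Fin k × Fin k) : Fin k → ℕ :=
  Pi.single t.1 1 + Pi.single t.2.1 1 + Pi.single t.2.2 1

private theorem E3a_fib {k : ℕ} (T : Finset (Fin k → ℕ)) (u : Fin k → ℕ) (hu : u ∈ Tl T 3) :
    ((E3 T).filter fun t => E3a_v t = u).card = 6 := by
  simp only [Tl, mem_filter] at hu
  obtain ⟨huT, h1, h3⟩ := hu
  obtain ⟨p, q, r, hpq, hpr, hqr, hs⟩ := card_eq_three.mp (E3a_card u h1 h3)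
  have key : ((E3 T).filter fun t => E3a_v t = u) =
      {(p, q, r), (p, r, q), (q, p, r), (q, r, p), (r, p, q), (r, q, p)} := by
    ext ⟨x, y, z⟩
    simp only [mem_filter, E3a_mem, E3a_v, mem_insert, mem_singleton, Prod.mk.injEq]
    constructor
    · rintro ⟨⟨hxy, hxz, hyz, hT⟩, hv⟩
      have e : su u = {x, y, z} := by rw [← hv, E3a_su]
      have hx : x ∈ su u := by rw [e]; simp
      have hy : y ∈ su u := by rw [e]; simp
      have hz : z ∈ su u := by rw [e]; simp
      rw [hs] at hx hy hz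
      simp only [mem_insert, mem_singleton] at hx hy hz
      rcases hx with rfl | rfl | rfl <;> rcases hy with rfl | rfl | rfl <;>
        rcases hz with rfl | rfl | rfl <;> simp_all
    · have hh : ∀ {x y z : Fin k}, x ≠ y → x ≠ z → y ≠ z → su u = {x, y, z} →
          (x ≠ y ∧ x ≠ z ∧ y ≠ z ∧ Pi.single x 1 + Pi.single y 1 + Pi.single z 1 ∈ T) ∧
          (Pi.single x 1 + Pi.single y 1 + Pi.single z 1 : Fin k → ℕ) = u := by
        intro x y z hxy hxz hyz h
        have e := E3a_eq u h1 hxy hxz hyz h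
        exact ⟨⟨hxy, hxz, hyz, by rw [e]; exact huT⟩, e⟩
      rintro (⟨rfl, rfl, rfl⟩ | ⟨rfl, rfl, rfl⟩ | ⟨rfl, rfl, rfl⟩ | ⟨rfl, rfl, rfl⟩ |
        ⟨rfl, rfl, rfl⟩ | ⟨rfl, rfl, rfl⟩)
      · exact hh hpq hpr hqr hs
      · exact hh hpr hpq hqr.symm (by rw [hs]; ext j; simp only [mem_insert, mem_singleton]; tauto)
      · exact hh hpq.symm hqr hpr (by rw [hs]; ext j; simp only [mem_insert, mem_singleton]; tauto)
      · exact hh hqr hpq.symm hpr.symm
          (by rw [hs]; ext j; simp only [mem_insert, mem_singleton]; tauto)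
      · exact hh hpr.symm hqr.symm hpq
          (by rw [hs]; ext j; simp only [mem_insert, mem_singleton]; tauto)
      · exact hh hqr.symm hpr.symm hpq.symm
          (by rw [hs]; ext j; simp only [mem_insert, mem_singleton]; tauto)
  rw [key]
  rw [card_insert_of_notMem, card_insert_of_notMem, card_insert_of_notMem, card_insert_of_notMem,
    card_insert_of_notMem, card_singleton]
  all_goals
    simp only [mem_insert, mem_singleton, Prod.mk.injEq]
    simp [hpq, hpr, hqr, hpq.symm, hpr.symm, hqr.symm]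

private theorem E3a_sw {k : ℕ} (a : Fin k → ℕ) (x y z : Fin k) :
    sw a (Pi.single x 1 + Pi.single y 1 + Pi.single z 1) = a x + a y + a z := by
  simp only [sw, Pi.add_apply, mul_add, sum_add_distrib]
  simp [Pi.single_apply]

private theorem E3a_map {k : ℕ} (T : Finset (Fin k → ℕ)) : ∀ t ∈ E3 T, E3a_v t ∈ Tl T 3 := by
  intro t ht
  obtain ⟨h1, h2, h3, h4⟩ := (E3a_mem T t).mp ht
  simp only [E3a_v, Tl, mem_filter]
  exact ⟨h4, E3a_le h1 h2 h3, E3a_sum _ _ _⟩

/-- **E3A** -/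
theorem thm_E3a (hRes : St_Res) : St_E3a := by
  intro k m M a T hT
  refine ⟨⟨?_, ?_, ?_⟩, ?_⟩
  · intro x y z h
    obtain ⟨h1, h2, h3, h4⟩ := (E3a_mem T _).mp h
    refine (E3a_mem T _).mpr ⟨h1.symm, h3, h2, ?_⟩
    simp only at h4 ⊢
    rw [add_comm (Pi.single y 1)]
    exact h4
  · intro x y z h
    obtain ⟨h1, h2, h3, h4⟩ := (E3a_mem T _).mp h
    refine (E3a_mem T _).mpr ⟨h2, h1, h3.symm, ?_⟩
    simp only at h4 ⊢
    rw [add_right_comm]
    exact h4
  · intro s
    by_cases hne : ((E3 T).filter fun t => sg (fun i => ((a i : ℕ) : ZMod m)) t = s).Nonempty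
    · obtain ⟨t₀, ht₀⟩ := hne
      obtain ⟨h0, hs0⟩ := mem_filter.mp ht₀
      have hu := E3a_map T t₀ h0
      have hsub : ((E3 T).filter fun t => sg (fun i => ((a i : ℕ) : ZMod m)) t = s) ⊆
          (E3 T).filter fun t => E3a_v t = E3a_v t₀ := by
        intro t ht
        obtain ⟨h, hs⟩ := mem_filter.mp ht
        refine mem_filter.mpr ⟨h, ?_⟩
        have hu' := E3a_map T t h
        have e : sg (fun i => ((a i : ℕ) : ZMod m)) t = sg (fun i => ((a i : ℕ) : ZMod m)) t₀ :=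
          hs.trans hs0.symm
        have e2 : ((sw a (E3a_v t) : ℕ) : ZMod m) = ((sw a (E3a_v t₀) : ℕ) : ZMod m) := by
          rw [E3a_v, E3a_v, E3a_sw, E3a_sw]
          push_cast
          exact e
        exact hT.inj _ (mem_filter.mp hu').1 _ (mem_filter.mp hu).1
          ((ZMod.natCast_eq_natCast_iff' _ _ _).mp e2)
      calc _ ≤ ((E3 T).filter fun t => E3a_v t = E3a_v t₀).card := card_le_card hsub
        _ = 6 := E3a_fib T _ hu
        _ ≤ 6 := le_rfl
    · rw [not_nonempty_iff_eq_empty] at hne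
      rw [hne]
      simp
  · rw [card_eq_sum_card_fiberwise (E3a_map T), sum_congr rfl (fun u hu => E3a_fib T u hu),
      sum_const, smul_eq_mul, mul_comm]

end Pool.Agent.WLW
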