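import Pool.Agent.WLW.St

/-!
# WLW: the module E3b (helper63)
-/

set_option autoImplicit false

namespace Pool.Agent.WLW

open Finset Pool.Agent.WLK

private theorem E3b_su {k : ℕ} {x y z : Fin k} :
    su (Pi.single x 1 + Pi.single y 1 + Pi.single z 1 : Fin k → ℕ) = {x, y, z} := by
  ext i
  simp only [su, mem_filter, mem_univ, true_and, mem_insert, mem_singleton, Pi.add_apply,
    Pi.single_apply]
  by_cases h1 : i = x <;> by_cases h2 : i = y <;> by_cases h3 : i = z <;> simp [h1, h2, h3]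

private theorem E3b_le {k : ℕ} {x y z : Fin k} (hxy : x ≠ y) (hxz : x ≠ z) (hyz : y ≠ z)
    (i : Fin k) : (Pi.single x 1 + Pi.single y 1 + Pi.single z 1 : Fin k → ℕ) i ≤ 1 := by
  simp only [Pi.add_apply, Pi.single_apply]
  by_cases h1 : i = x
  · subst h1; simp [hxy, hxz]
  · by_cases h2 : i = y
    · subst h2; simp [h1, hyz]
    · simp only [if_neg h1, if_neg h2]; split_ifs <;> simp

private theorem E3b_sum {k : ℕ} (x y z : Fin k) :
    ∑ i, (Pi.single x 1 + Pi.single y 1 + Pi.single z 1 : Fin k → ℕ) i = 3 := by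
  simp only [Pi.add_apply, sum_add_distrib]
  simp [Pi.single_apply]

private theorem E3b_eq {k : ℕ} (u : Fin k → ℕ) (h1 : ∀ i, u i ≤ 1) {x y z : Fin k}
    (hxy : x ≠ y) (hxz : x ≠ z) (hyz : y ≠ z) (hs : su u = {x, y, z}) :
    (Pi.single x 1 + Pi.single y 1 + Pi.single z 1 : Fin k → ℕ) = u := by
  ext i
  have e1 : i ∈ su u ↔ u i ≠ 0 := by simp [su]
  have e2 : i ∈ su u ↔ (Pi.single x 1 + Pi.single y 1 + Pi.single z 1 : Fin k → ℕ) i ≠ 0 := by
    rw [hs, ← E3b_su]; simp only [su, mem_filter, mem_univ, true_and]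
  have l1 := h1 i
  have l2 := E3b_le hxy hxz hyz i
  have e3 := e1.symm.trans e2
  omega

private theorem E3b_card {k : ℕ} (u : Fin k → ℕ) (h1 : ∀ i, u i ≤ 1) (h3 : ∑ i, u i = 3) :
    (su u).card = 3 := by
  rw [← h3, su, card_filter]
  apply sum_congr rfl
  intro i _
  have := h1 i
  split_ifs <;> omega

private theorem E3b_mem {k : ℕ} (T : Finset (Fin k → ℕ)) (t : Fin k × Fin k × Fin k) :
    t ∈ E3 T ↔ t.1 ≠ t.2.1 ∧ t.1 ≠ t.2.2 ∧ t.2.1 ≠ t.2.2 ∧
      Pi.single t.1 1 + Pi.single t.2.1 1 + Pi.single t.2.2 1 ∈ T := by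
  simp only [E3, mem_filter, mem_univ, true_and]

/-- the pair of the vector of a triple and its last letter -/
private def E3b_g {k : ℕ} (t : Fin k × Fin k × Fin k) : (Σ _ : Fin k → ℕ, Fin k) :=
  ⟨Pi.single t.1 1 + Pi.single t.2.1 1 + Pi.single t.2.2 1, t.2.2⟩

private theorem E3b_fib {k : ℕ} (T : Finset (Fin k → ℕ)) (u : Fin k → ℕ) (i : Fin k)
    (hu : u ∈ Tl T 3) (hi : i ∈ su u) :
    ((E3 T).filter fun t => E3b_g t = ⟨u, i⟩).card = 2 := by
  simp only [Tl, mem_filter] at hu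
  obtain ⟨huT, h1, h3⟩ := hu
  have hc : ((su u).erase i).card = 2 := by rw [card_erase_of_mem hi, E3b_card u h1 h3]
  obtain ⟨p, q, hpq, hs⟩ := card_eq_two.mp hc
  have hp : p ∈ (su u).erase i := by rw [hs]; simp
  have hq : q ∈ (su u).erase i := by rw [hs]; simp
  have hpi : p ≠ i := (mem_erase.mp hp).1
  have hqi : q ≠ i := (mem_erase.mp hq).1
  have hsu : su u = {p, q, i} := by
    rw [← insert_erase hi, hs]
    ext j; simp only [mem_insert, mem_singleton]; tauto
  have key : ((E3 T).filter fun t => E3b_g t = ⟨u, i⟩) = {(p, q, i), (q, p, i)} := by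
    ext ⟨x, y, z⟩
    simp only [mem_filter, E3b_mem, E3b_g, mem_insert, mem_singleton, Prod.mk.injEq,
      Sigma.mk.injEq, heq_eq_eq]
    constructor
    · rintro ⟨⟨hxy, hxz, hyz, hT⟩, hv, hz⟩
      subst hz
      have e : su u = {x, y, z} := by rw [← hv, E3b_su]
      have hx : x ∈ (su u).erase z := by rw [e]; simp [hxz]
      have hy : y ∈ (su u).erase z := by rw [e]; simp [hyz]
      rw [hs] at hx hy
      simp only [mem_insert, mem_singleton] at hx hy
      rcases hx with hx | hx <;> rcases hy with hy | hy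
      · exact absurd (hx.trans hy.symm) hxy
      · left; exact ⟨hx, hy, rfl⟩
      · right; exact ⟨hx, hy, rfl⟩
      · exact absurd (hx.trans hy.symm) hxy
    · rintro (⟨rfl, rfl, rfl⟩ | ⟨rfl, rfl, rfl⟩)
      · have := E3b_eq u h1 hpq hpi hqi hsu
        exact ⟨⟨hpq, hpi, hqi, by rw [this]; exact huT⟩, this, rfl⟩
      · have hsu' : su u = {x, y, z} := by
          rw [hsu]; ext j; simp only [mem_insert, mem_singleton]; tauto
        have := E3b_eq u h1 hpq.symm hqi hpi hsu'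
        exact ⟨⟨hpq.symm, hqi, hpi, by rw [this]; exact huT⟩, this, rfl⟩
  rw [key, card_pair]
  intro h
  exact hpq (Prod.mk.inj h).1

private theorem E3b_cnt {k : ℕ} (m M : ℕ) (a : Fin k → ℕ) (T : Finset (Fin k → ℕ)) :
    ∑ t ∈ E3 T, (rr m M a (Pi.single t.1 1 + Pi.single t.2.1 1) : ℝ) = 2 * WW m M a T 3 := by
  have hmap : ∀ t ∈ E3 T, E3b_g t ∈ (Tl T 3).sigma (fun u => su u) := by
    intro t ht
    obtain ⟨h1, h2, h3, h4⟩ := (E3b_mem T t).mp ht
    simp only [E3b_g, mem_sigma, Tl, mem_filter]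
    refine ⟨⟨h4, E3b_le h1 h2 h3, E3b_sum _ _ _⟩, ?_⟩
    rw [E3b_su]; simp
  rw [← sum_fiberwise_of_maps_to hmap]
  rw [WW, mul_sum, sum_sigma]
  apply sum_congr rfl
  intro u hu
  rw [mul_sum]
  apply sum_congr rfl
  intro i hi
  have : ∀ t ∈ (E3 T).filter (fun t => E3b_g t = ⟨u, i⟩),
      (rr m M a (Pi.single t.1 1 + Pi.single t.2.1 1) : ℝ) = rr m M a (u - Pi.single i 1) := by
    intro t ht
    obtain ⟨_, hg⟩ := mem_filter.mp ht
    simp only [E3b_g, Sigma.mk.injEq, heq_eq_eq] at hg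
    obtain ⟨h1, h2⟩ := hg
    rw [← h1, ← h2, add_tsub_cancel_right]
  rw [sum_congr rfl this, sum_const, E3b_fib T u i hu hi]
  simp

private theorem E3b_sw {k : ℕ} (a : Fin k → ℕ) (x y : Fin k) :
    sw a (Pi.single x 1 + Pi.single y 1) = a x + a y := by
  simp only [sw, Pi.add_apply, mul_add, sum_add_distrib]
  simp [Pi.single_apply]

/-- **E3B** -/
theorem thm_E3b (hRes : St_Res) : St_E3b := by
  intro k m M a T hT
  obtain ⟨r1, r2, -, -, -, -, -⟩ := hRes k m M a T hT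
  have hm : 0 < m := by
    have := hT.card
    rw [← this]
    exact card_pos.mpr ⟨0, hT.zero⟩
  have : NeZero m := ⟨hm.ne'⟩
  have hY : ∀ t ∈ E3 T, (Y (fun i => ((a i : ℕ) : ZMod m)) ((M + 1 : ℕ) : ZMod m) t.1 t.2.1 : ℝ) =
      ((m : ℝ) - 1) - rr m M a (Pi.single t.1 1 + Pi.single t.2.1 1) := by
    intro t ht
    obtain ⟨-, -, -, h4⟩ := (E3b_mem T t).mp ht
    have hv : (Pi.single t.1 1 + Pi.single t.2.1 1 : Fin k → ℕ) ∈ T :=
      hT.down _ h4 _ (le_self_add)
    have e1 := r1 _ hv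
    have e2 := r2 (Pi.single t.1 1 + Pi.single t.2.1 1)
    rw [E3b_sw] at e1
    set R := rr m M a (Pi.single t.1 1 + Pi.single t.2.1 1) with hR
    set f := ff m M a (Pi.single t.1 1 + Pi.single t.2.1 1) with hf
    have hval : Y (fun i => ((a i : ℕ) : ZMod m)) ((M + 1 : ℕ) : ZMod m) t.1 t.2.1 =
        m - 1 - R := by
      have hc : ((a t.1 : ℕ) : ZMod m) + ((a t.2.1 : ℕ) : ZMod m) - ((M + 1 : ℕ) : ZMod m) =
          ((m - 1 - R : ℕ) : ZMod m) := by
        have h5 : a t.1 + a t.2.1 + m * (f + 1) = (m - 1 - R) + (M + 1) := by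
          rw [mul_add]; omega
        have h6 : ((a t.1 + a t.2.1 + m * (f + 1) : ℕ) : ZMod m) =
            (((m - 1 - R) + (M + 1) : ℕ) : ZMod m) := by rw [h5]
        rw [Nat.cast_add, Nat.cast_add, Nat.cast_mul, ZMod.natCast_self, zero_mul, add_zero,
          Nat.cast_add (m - 1 - R) (M + 1)] at h6
        rw [h6, add_sub_cancel_right]
      unfold Y
      simp only
      rw [hc, ZMod.val_natCast_of_lt (by omega)]
    rw [hval, Nat.cast_sub (by omega), Nat.cast_sub (by omega)]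
    simp
  rw [Ye, Nat.cast_sum, sum_congr rfl hY, sum_sub_distrib, sum_const, E3b_cnt, nsmul_eq_mul]
  ring

end Pool.Agent.WLW
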