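import Pool.Agent.WLW.St

/-!
# WLW: the triples outside `E3 T` whose first two letters can be completed
-/

set_option autoImplicit false

namespace Pool.Agent.WLW

open Finset Pool.Agent.WLK

private theorem E3c_ne {k : ℕ} {x y : Fin k} (h : x ≠ y) :
    (Pi.single x 1 : Fin k → ℕ) y = 0 := by
  simp [h.symm]

private theorem E3c_single {k : ℕ} {x y : Fin k}
    (h : (Pi.single x 1 : Fin k → ℕ) = Pi.single y 1) : x = y := by
  by_contra hne
  have h1 := congrFun h x
  rw [Pi.single_eq_same, E3c_ne (Ne.symm hne)] at h1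
  exact one_ne_zero h1

private theorem E3c_pair {k : ℕ} {x y x' y' : Fin k}
    (h : (Pi.single x' 1 + Pi.single y' 1 : Fin k → ℕ) = Pi.single x 1 + Pi.single y 1) :
    (x' = x ∧ y' = y) ∨ (x' = y ∧ y' = x) := by
  by_cases hx : x' = x
  · subst hx
    exact Or.inl ⟨rfl, E3c_single (add_left_cancel h)⟩
  · by_cases hy : x' = y
    · subst hy
      rw [add_comm (Pi.single x 1 : Fin k → ℕ)] at h
      exact Or.inr ⟨rfl, E3c_single (add_left_cancel h)⟩
    · exfalso
      have h1 := congrFun h x'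
      rw [Pi.add_apply, Pi.add_apply, Pi.single_eq_same, E3c_ne (Ne.symm hx),
        E3c_ne (Ne.symm hy)] at h1
      omega

/-- the sum of the first two unit vectors, and the last letter -/
private def E3c_ph {k : ℕ} (t : Fin k × Fin k × Fin k) : (Fin k → ℕ) × Fin k :=
  (Pi.single t.1 1 + Pi.single t.2.1 1, t.2.2)

private theorem E3c_fib {k : ℕ} (A : Finset (Fin k × Fin k × Fin k)) :
    A.card ≤ 2 * (A.image E3c_ph).card := by
  classical
  refine Finset.card_le_mul_card_image A 2 ?_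
  intro p hp
  obtain ⟨t, ht, rfl⟩ := Finset.mem_image.1 hp
  have h1 : (A.filter fun u => E3c_ph u = E3c_ph t) ⊆ {t, (t.2.1, t.1, t.2.2)} := by
    intro u hu
    have h2 := (Finset.mem_filter.1 hu).2
    have h3 : (Pi.single u.1 1 + Pi.single u.2.1 1 : Fin k → ℕ) =
        Pi.single t.1 1 + Pi.single t.2.1 1 := (Prod.ext_iff.1 h2).1
    have h4 : u.2.2 = t.2.2 := (Prod.ext_iff.1 h2).2
    rw [Finset.mem_insert, Finset.mem_singleton]
    rcases E3c_pair h3 with ⟨h5, h6⟩ | ⟨h5, h6⟩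
    · exact Or.inl (Prod.ext h5 (Prod.ext h6 h4))
    · exact Or.inr (Prod.ext h5 (Prod.ext h6 h4))
  exact (Finset.card_le_card h1).trans Finset.card_le_two

/-- the pairs of an element which is not maximal and a direction which leaves `T` -/
private def E3c_P {k : ℕ} (T : Finset (Fin k → ℕ)) : Finset ((Fin k → ℕ) × Fin k) :=
  (JJ T ×ˢ univ).filter fun p => p.2 ∉ up T p.1

private theorem E3c_cardP {k : ℕ} (T : Finset (Fin k → ℕ)) :
    ((E3c_P T).card : ℝ) = ∑ v ∈ JJ T, ((k : ℝ) - nu T v) := by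
  classical
  have h1 : (E3c_P T).card = ∑ v ∈ JJ T, (k - nu T v) := by
    unfold E3c_P
    rw [Finset.card_filter, Finset.sum_product]
    refine Finset.sum_congr rfl fun v _ => ?_
    rw [← Finset.card_filter]
    have h2 : (univ.filter fun i : Fin k => i ∉ up T v) = (up T v)ᶜ := by
      ext i
      simp
    show (univ.filter fun i : Fin k => i ∉ up T v).card = k - nu T v
    rw [h2, Finset.card_compl, Fintype.card_fin]
    rfl
  rw [h1, Nat.cast_sum]
  refine Finset.sum_congr rfl fun v _ => ?_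
  rw [Nat.cast_sub]
  exact (Finset.card_le_univ _).trans (le_of_eq (Fintype.card_fin k))

/-- the pairs of a squarefree vector and a letter of its support, with sum in `T` -/
private def E3c_B {k : ℕ} (T : Finset (Fin k → ℕ)) : Finset ((Fin k → ℕ) × Fin k) :=
  (T ×ˢ univ).filter fun p => (∀ i, p.1 i ≤ 1) ∧ p.1 p.2 = 1 ∧ p.1 + Pi.single p.2 1 ∈ T

private theorem E3c_cardB {k : ℕ} (T : Finset (Fin k → ℕ)) : (E3c_B T).card ≤ (Ns T).card := by
  classical
  refine Finset.card_le_card_of_injOn (fun p => p.1 + Pi.single p.2 1) ?_ ?_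
  · intro p hp
    obtain ⟨_, h1, h2, h3⟩ := Finset.mem_filter.1 (Finset.mem_coe.1 hp)
    refine Finset.mem_coe.2 (Finset.mem_filter.2 ⟨h3, fun h => ?_⟩)
    have h4 : (p.1 + Pi.single p.2 1 : Fin k → ℕ) p.2 ≤ 1 := h p.2
    rw [Pi.add_apply, Pi.single_eq_same, h2] at h4
    omega
  · intro p hp q hq hpq
    obtain ⟨_, h1, h2, h3⟩ := Finset.mem_filter.1 (Finset.mem_coe.1 hp)
    obtain ⟨_, h1', h2', h3'⟩ := Finset.mem_filter.1 (Finset.mem_coe.1 hq)
    have hpq' : p.1 + Pi.single p.2 1 = q.1 + Pi.single q.2 1 := hpq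
    have h5 : p.2 = q.2 := by
      by_contra hne
      have h6 := congrFun hpq' p.2
      rw [Pi.add_apply, Pi.add_apply, Pi.single_eq_same, h2, E3c_ne (Ne.symm hne)] at h6
      have h7 := h1' p.2
      omega
    rw [h5] at hpq'
    exact Prod.ext (add_right_cancel hpq') h5

private theorem E3c_img {k : ℕ} (T : Finset (Fin k → ℕ))
    (hd : ∀ x ∈ T, ∀ y : Fin k → ℕ, y ≤ x → y ∈ T) :
    (Rt (E3 T)).image E3c_ph ⊆ E3c_P T ∪ E3c_B T := by
  classical
  intro p hp
  obtain ⟨t, ht, rfl⟩ := Finset.mem_image.1 hp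
  obtain ⟨h1, h2⟩ := Finset.mem_sdiff.1 ht
  obtain ⟨z, hz⟩ := (Finset.mem_filter.1 h1).2
  obtain ⟨hxy, hxz, hyz, hT⟩ := (Finset.mem_filter.1 hz).2
  have hxy' : t.1 ≠ t.2.1 := hxy
  have hT' : (Pi.single t.1 1 + Pi.single t.2.1 1 : Fin k → ℕ) + Pi.single z 1 ∈ T := hT
  have hv : (Pi.single t.1 1 + Pi.single t.2.1 1 : Fin k → ℕ) ∈ T :=
    hd _ hT' _ (le_add_of_nonneg_right zero_le)
  have hJ : (Pi.single t.1 1 + Pi.single t.2.1 1 : Fin k → ℕ) ∈ JJ T := by
    refine Finset.mem_filter.2 ⟨hv, Finset.card_pos.2 ⟨z, ?_⟩⟩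
    exact Finset.mem_filter.2 ⟨Finset.mem_univ _, hT'⟩
  by_cases hu : t.2.2 ∈ up T (Pi.single t.1 1 + Pi.single t.2.1 1)
  · have hu' := (Finset.mem_filter.1 hu).2
    refine Finset.mem_union_right _ (Finset.mem_filter.2
      ⟨Finset.mem_product.2 ⟨hv, Finset.mem_univ _⟩, ?_, ?_, hu'⟩)
    · intro i
      show (Pi.single t.1 1 + Pi.single t.2.1 1 : Fin k → ℕ) i ≤ 1
      rw [Pi.add_apply]
      by_cases hi : i = t.1
      · rw [hi, Pi.single_eq_same, E3c_ne (Ne.symm hxy')]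
      · by_cases hi' : i = t.2.1
        · rw [hi', Pi.single_eq_same, E3c_ne hxy']
        · rw [E3c_ne (Ne.symm hi), E3c_ne (Ne.symm hi')]
          omega
    · show (Pi.single t.1 1 + Pi.single t.2.1 1 : Fin k → ℕ) t.2.2 = 1
      rw [Pi.add_apply]
      by_cases hi : t.2.2 = t.1
      · rw [hi, Pi.single_eq_same, E3c_ne (Ne.symm hxy')]
      · by_cases hi' : t.2.2 = t.2.1
        · rw [hi', Pi.single_eq_same, E3c_ne hxy']
        · exfalso
          exact h2 (Finset.mem_filter.2 ⟨Finset.mem_univ _, hxy', Ne.symm hi, Ne.symm hi', hu'⟩)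
  · exact Finset.mem_union_left _ (Finset.mem_filter.2
      ⟨Finset.mem_product.2 ⟨hJ, Finset.mem_univ _⟩, hu⟩)

/-- **E3C** -/
theorem thm_E3c (hRes : St_Res) : St_E3c := by
  classical
  intro k m M a T hT
  obtain ⟨_, _, _, _, hff, _, _⟩ := hRes k m M a T hT
  have h1 : ((Rt (E3 T)).card : ℝ) ≤ 2 * (((E3c_P T).card : ℝ) + (E3c_B T).card) := by
    have h2 := E3c_fib (Rt (E3 T))
    have h3 := Finset.card_le_card (E3c_img T hT.down)
    have h4 := Finset.card_union_le (E3c_P T) (E3c_B T)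
    have h5 : (Rt (E3 T)).card ≤ 2 * ((E3c_P T).card + (E3c_B T).card) := by omega
    exact_mod_cast h5
  have h6 : ((E3c_B T).card : ℝ) ≤ (Ns T).card := by exact_mod_cast E3c_cardB T
  have hk : ∀ x, 0 ≤ (k : ℝ) - nu T x := by
    intro x
    have h7 : nu T x ≤ k := (Finset.card_le_univ _).trans (le_of_eq (Fintype.card_fin k))
    have h8 : (nu T x : ℝ) ≤ k := by exact_mod_cast h7
    linarith
  have h9 : ((E3c_P T).card : ℝ) ≤ SS m M a T := by
    rw [E3c_cardP]
    unfold SS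
    calc ∑ v ∈ JJ T, ((k : ℝ) - nu T v) ≤ ∑ v ∈ JJ T, ((k : ℝ) - nu T v) * ff m M a v := by
          refine Finset.sum_le_sum fun v hv => ?_
          obtain ⟨hv1, hv2⟩ := Finset.mem_filter.1 hv
          have h10 : (1 : ℝ) ≤ ff m M a v := by exact_mod_cast hff v hv1 hv2
          exact le_mul_of_one_le_right (hk v) h10
      _ ≤ ∑ v ∈ T, ((k : ℝ) - nu T v) * ff m M a v := by
          refine Finset.sum_le_sum_of_subset_of_nonneg (Finset.filter_subset _ _) ?_
          intro v _ _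
          exact mul_nonneg (hk v) (Nat.cast_nonneg _)
  linarith

end Pool.Agent.WLW
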