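import Mathlib

/-!
# WLW: a small library on the Shannon entropy of functions on a finite set (MP_05ec03_nt)

`Ω` is a finite set with the uniform measure, `H Ω f` the entropy of a function `f` on it.
-/

set_option autoImplicit false

namespace Pool.Agent.WLW.Ent

open Finset Classical

variable {W α β γ : Type*}

/-- the size of the fibre of `f` which contains `w` -/
noncomputable def Nn (Ω : Finset W) (f : W → α) (w : W) : ℕ := (Ω.filter fun u => f u = f w).card

/-- the entropy of `f` for the uniform measure on `Ω` -/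
noncomputable def H (Ω : Finset W) (f : W → α) : ℝ :=
  Real.log Ω.card - (∑ w ∈ Ω, Real.log (Nn Ω f w)) / Ω.card

theorem Nn_pos {Ω : Finset W} (f : W → α) {w : W} (hw : w ∈ Ω) : 0 < Nn Ω f w :=
  card_pos.2 ⟨w, mem_filter.2 ⟨hw, rfl⟩⟩

theorem Nn_posR {Ω : Finset W} (f : W → α) {w : W} (hw : w ∈ Ω) : (0 : ℝ) < Nn Ω f w := by
  exact_mod_cast Nn_pos f hw

theorem H_le_log {Ω : Finset W} (hΩ : Ω.Nonempty) (f : W → α) (Λ : Finset α)
    (h : ∀ w ∈ Ω, f w ∈ Λ) : H Ω f ≤ Real.log Λ.card := by
  have hc : (0 : ℝ) < Ω.card := by exact_mod_cast hΩ.card_pos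
  have hΛ : (0 : ℝ) < Λ.card := by
    obtain ⟨w, hw⟩ := hΩ
    exact_mod_cast card_pos.2 ⟨_, h w hw⟩
  have key : ∑ w ∈ Ω, (1 : ℝ) / Nn Ω f w ≤ Λ.card := by
    rw [← sum_fiberwise_of_maps_to h]
    calc ∑ l ∈ Λ, ∑ w ∈ Ω with f w = l, (1 : ℝ) / Nn Ω f w ≤ ∑ l ∈ Λ, (1 : ℝ) := by
          apply sum_le_sum
          intro l _
          have : ∀ w ∈ Ω.filter (fun w => f w = l), (1 : ℝ) / Nn Ω f w =
              1 / ((Ω.filter fun w => f w = l).card : ℝ) := by
            intro w hw
            rw [mem_filter] at hw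
            unfold Nn
            rw [hw.2]
          rw [sum_congr rfl this, sum_const, nsmul_eq_mul]
          by_cases h0 : ((Ω.filter fun w => f w = l).card : ℝ) = 0
          · rw [h0]; simp
          · rw [mul_one_div_cancel h0]
      _ = Λ.card := by simp
  have h2 : ∑ w ∈ Ω, (Real.log Ω.card - Real.log (Nn Ω f w) - Real.log Λ.card) ≤ 0 := by
    calc ∑ w ∈ Ω, (Real.log Ω.card - Real.log (Nn Ω f w) - Real.log Λ.card)
        ≤ ∑ w ∈ Ω, ((Ω.card : ℝ) / Λ.card * (1 / Nn Ω f w) - 1) := by
          apply sum_le_sum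
          intro w hw
          have hn := Nn_posR f hw
          have e : Real.log Ω.card - Real.log (Nn Ω f w) - Real.log Λ.card =
              Real.log ((Ω.card : ℝ) / Λ.card * (1 / Nn Ω f w)) := by
            rw [Real.log_mul (by positivity) (by positivity), Real.log_div hc.ne' hΛ.ne',
              Real.log_div one_ne_zero hn.ne', Real.log_one]
            ring
          rw [e]
          exact Real.log_le_sub_one_of_pos (by positivity)
      _ = (Ω.card : ℝ) / Λ.card * ∑ w ∈ Ω, (1 : ℝ) / Nn Ω f w - Ω.card := by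
          rw [sum_sub_distrib, ← mul_sum]; simp
      _ ≤ (Ω.card : ℝ) / Λ.card * Λ.card - Ω.card := by gcongr
      _ = 0 := by rw [div_mul_cancel₀ _ hΛ.ne']; ring
  rw [sum_sub_distrib, sum_sub_distrib, sum_const, sum_const, nsmul_eq_mul, nsmul_eq_mul] at h2
  unfold H
  have h3 : (∑ w ∈ Ω, Real.log (Nn Ω f w)) / Ω.card ≥ Real.log Ω.card - Real.log Λ.card := by
    rw [ge_iff_le, le_div_iff₀ hc]
    linarith
  linarith

theorem H_inj {Ω : Finset W} (f : W → α) (h : Set.InjOn f Ω) : H Ω f = Real.log Ω.card := by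
  unfold H
  have : ∀ w ∈ Ω, Real.log (Nn Ω f w) = 0 := by
    intro w hw
    have : Nn Ω f w = 1 := by
      unfold Nn
      rw [card_eq_one]
      refine ⟨w, ?_⟩
      ext u
      simp only [mem_filter, mem_singleton]
      constructor
      · rintro ⟨hu, e⟩
        exact h hu hw e
      · rintro rfl
        exact ⟨hw, rfl⟩
    rw [this]; simp
  rw [sum_eq_zero this]; simp

theorem H_mono {Ω : Finset W} (hΩ : Ω.Nonempty) (f : W → α) (g : W → β)
    (h : ∀ u ∈ Ω, ∀ w ∈ Ω, f u = f w → g u = g w) : H Ω g ≤ H Ω f := by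
  unfold H
  have hc : (0 : ℝ) < Ω.card := by exact_mod_cast hΩ.card_pos
  have : ∑ w ∈ Ω, Real.log (Nn Ω f w) ≤ ∑ w ∈ Ω, Real.log (Nn Ω g w) := by
    apply sum_le_sum
    intro w hw
    apply Real.log_le_log (Nn_posR f hw)
    have : Nn Ω f w ≤ Nn Ω g w := by
      apply card_le_card
      intro u hu
      rw [mem_filter] at hu ⊢
      exact ⟨hu.1, h u hu.1 w hw hu.2⟩
    exact_mod_cast this
  have := div_le_div_of_nonneg_right this hc.le
  linarith

theorem H_submod {Ω : Finset W} (hΩ : Ω.Nonempty) (f : W → α) (g : W → β) (h : W → γ)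
    (hf : ∀ u ∈ Ω, ∀ w ∈ Ω, f u = f w → h u = h w)
    (hg : ∀ u ∈ Ω, ∀ w ∈ Ω, g u = g w → h u = h w) :
    H Ω (fun w => (f w, g w)) + H Ω h ≤ H Ω f + H Ω g := by
  have hc : (0 : ℝ) < Ω.card := by exact_mod_cast hΩ.card_pos
  set fg : W → α × β := fun w => (f w, g w) with hfg
  have key : ∑ w ∈ Ω, ((Nn Ω f w : ℝ) * Nn Ω g w) / (Nn Ω fg w * Nn Ω h w) ≤ Ω.card := by
    have e1 : ∀ w ∈ Ω, ((Nn Ω f w : ℝ) * Nn Ω g w) / (Nn Ω fg w * Nn Ω h w) =
        ∑ u ∈ Ω, ∑ v ∈ Ω, if f u = f w ∧ g v = g w then 1 / ((Nn Ω fg w : ℝ) * Nn Ω h w) else 0 := by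
      intro w _
      have h1 : (Nn Ω f w : ℝ) = ∑ u ∈ Ω, if f u = f w then (1 : ℝ) else 0 := by
        unfold Nn; rw [card_filter]; push_cast; rfl
      have h2 : (Nn Ω g w : ℝ) = ∑ v ∈ Ω, if g v = g w then (1 : ℝ) else 0 := by
        unfold Nn; rw [card_filter]; push_cast; rfl
      rw [div_eq_mul_one_div, h1, h2, sum_mul_sum, sum_mul]
      apply sum_congr rfl
      intro u _
      rw [sum_mul]
      apply sum_congr rfl
      intro v _
      by_cases a1 : f u = f w <;> by_cases a2 : g v = g w <;> simp [a1, a2]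
    rw [sum_congr rfl e1, sum_comm]
    calc ∑ u ∈ Ω, ∑ w ∈ Ω, ∑ v ∈ Ω,
          (if f u = f w ∧ g v = g w then 1 / ((Nn Ω fg w : ℝ) * Nn Ω h w) else 0)
        ≤ ∑ u ∈ Ω, (1 : ℝ) := by
          apply sum_le_sum
          intro u hu
          rw [sum_comm]
          have hD := Nn_posR h hu
          calc ∑ v ∈ Ω, ∑ w ∈ Ω,
                (if f u = f w ∧ g v = g w then 1 / ((Nn Ω fg w : ℝ) * Nn Ω h w) else 0)
              ≤ ∑ v ∈ Ω, (if h v = h u then 1 / (Nn Ω h u : ℝ) else 0) := by
                apply sum_le_sum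
                intro v hv
                rw [← sum_filter]
                by_cases hne : (Ω.filter fun w => f u = f w ∧ g v = g w).Nonempty
                · obtain ⟨w0, hw0⟩ := hne
                  rw [mem_filter] at hw0
                  have huv : h v = h u := by
                    rw [hg v hv w0 hw0.1 hw0.2.2, hf u hu w0 hw0.1 hw0.2.1]
                  rw [if_pos huv]
                  have : ∀ w ∈ Ω.filter (fun w => f u = f w ∧ g v = g w),
                      1 / ((Nn Ω fg w : ℝ) * Nn Ω h w) =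
                      1 / (((Ω.filter fun w => f u = f w ∧ g v = g w).card : ℝ) * Nn Ω h u) := by
                    intro w hw
                    rw [mem_filter] at hw
                    have a1 : Nn Ω fg w = (Ω.filter fun w => f u = f w ∧ g v = g w).card := by
                      unfold Nn
                      congr 1
                      ext x
                      simp only [mem_filter, hfg, Prod.mk.injEq, hw.2.1, hw.2.2]
                      constructor
                      · rintro ⟨a, b, c⟩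
                        exact ⟨a, b.symm, c.symm⟩
                      · rintro ⟨a, b, c⟩
                        exact ⟨a, b.symm, c.symm⟩
                    have a2 : Nn Ω h w = Nn Ω h u := by
                      unfold Nn
                      rw [hf u hu w hw.1 hw.2.1]
                    rw [a1, a2]
                  rw [sum_congr rfl this, sum_const, nsmul_eq_mul]
                  have hcp : (0 : ℝ) < ((Ω.filter fun w => f u = f w ∧ g v = g w).card : ℝ) := by
                    exact_mod_cast card_pos.2 ⟨w0, mem_filter.2 hw0⟩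
                  apply le_of_eq
                  field_simp
                · rw [not_nonempty_iff_eq_empty] at hne
                  rw [hne, sum_empty]
                  split_ifs
                  · positivity
                  · exact le_refl _
            _ = 1 := by
                rw [← sum_filter, sum_const, nsmul_eq_mul]
                change (Nn Ω h u : ℝ) * (1 / Nn Ω h u) = 1
                rw [mul_one_div_cancel hD.ne']
      _ = Ω.card := by simp
  have h2 : ∑ w ∈ Ω, (Real.log (Nn Ω f w) + Real.log (Nn Ω g w) - Real.log (Nn Ω fg w) -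
      Real.log (Nn Ω h w)) ≤ 0 := by
    calc ∑ w ∈ Ω, (Real.log (Nn Ω f w) + Real.log (Nn Ω g w) - Real.log (Nn Ω fg w) -
        Real.log (Nn Ω h w))
        ≤ ∑ w ∈ Ω, (((Nn Ω f w : ℝ) * Nn Ω g w) / (Nn Ω fg w * Nn Ω h w) - 1) := by
          apply sum_le_sum
          intro w hw
          have n1 := Nn_posR f hw
          have n2 := Nn_posR g hw
          have n3 := Nn_posR fg hw
          have n4 := Nn_posR h hw
          have e : Real.log (Nn Ω f w) + Real.log (Nn Ω g w) - Real.log (Nn Ω fg w) -
              Real.log (Nn Ω h w) =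
              Real.log (((Nn Ω f w : ℝ) * Nn Ω g w) / (Nn Ω fg w * Nn Ω h w)) := by
            rw [Real.log_div (by positivity) (by positivity), Real.log_mul n1.ne' n2.ne',
              Real.log_mul n3.ne' n4.ne']
            ring
          rw [e]
          exact Real.log_le_sub_one_of_pos (by positivity)
      _ = ∑ w ∈ Ω, ((Nn Ω f w : ℝ) * Nn Ω g w) / (Nn Ω fg w * Nn Ω h w) - Ω.card := by
          rw [sum_sub_distrib]; simp
      _ ≤ 0 := by linarith
  rw [sum_sub_distrib, sum_sub_distrib, sum_add_distrib] at h2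
  unfold H
  have h3 : (∑ w ∈ Ω, Real.log (Nn Ω f w) + ∑ w ∈ Ω, Real.log (Nn Ω g w)) / Ω.card ≤
      (∑ w ∈ Ω, Real.log (Nn Ω fg w) + ∑ w ∈ Ω, Real.log (Nn Ω h w)) / Ω.card := by
    apply div_le_div_of_nonneg_right _ hc.le
    linarith
  rw [add_div, add_div] at h3
  linarith

theorem H_const {Ω : Finset W} (hΩ : Ω.Nonempty) : H Ω (fun _ => ()) = 0 := by
  have hc : (0 : ℝ) < Ω.card := by exact_mod_cast hΩ.card_pos
  unfold H
  have : ∀ w ∈ Ω, Real.log (Nn Ω (fun _ : W => ()) w) = Real.log Ω.card := by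
    intro w _
    unfold Nn
    simp
  rw [sum_congr rfl this, sum_const, nsmul_eq_mul, mul_div_cancel_left₀ _ hc.ne']
  ring

theorem H_pair_le {Ω : Finset W} (hΩ : Ω.Nonempty) (f : W → α) (g : W → β) :
    H Ω (fun w => (f w, g w)) ≤ H Ω f + H Ω g := by
  have := H_submod hΩ f g (fun _ => ()) (fun _ _ _ _ _ => rfl) (fun _ _ _ _ _ => rfl)
  rw [H_const hΩ] at this
  linarith

end Pool.Agent.WLW.Ent
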