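import Pool.Agent.WLW.St

/-!
# WLW, module Gcd (helper77): the number of pairs of triples with sum `w`
-/

set_option autoImplicit false

namespace Pool.Agent.WLW

open Finset Pool.Agent.WLK

private theorem Gcd_num {a b : ℕ} (ha : a ≤ 6) (hb : b ≤ 6) : 6 * a + 6 * b ≤ a * b + 36 := by
  obtain ⟨x, hx⟩ : ∃ x, a + x = 6 := ⟨6 - a, by omega⟩
  obtain ⟨y, hy⟩ : ∃ y, b + y = 6 := ⟨6 - b, by omega⟩
  have h1 : (a + x) * (b + y) = 36 := by rw [hx, hy]
  have h2 : a * (b + y) = a * 6 := by rw [hy]
  have h3 : (a + x) * b = 6 * b := by rw [hx]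
  nlinarith [Nat.zero_le (x * y)]

theorem thm_Gcd : St_Gcd := by
  intro k m al E hm hE w
  have : NeZero m := ⟨hm.ne'⟩
  set c : ZMod m → ℕ := fun s => (E.filter fun t => sg al t = s).card with hc
  have hc6 : ∀ s, c s ≤ 6 := hE.fib
  have hsum : ∑ s : ZMod m, c s = E.card :=
    (Finset.card_eq_sum_card_fiberwise (f := sg al) (s := E) (t := Finset.univ)
      (fun _ _ => Finset.mem_coe.2 (Finset.mem_univ _))).symm
  have hsum2 : ∑ s : ZMod m, c (w - s) = E.card := by
    rw [← hsum]
    exact (Equiv.subLeft w).sum_comp c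
  have hPr : (Pr al E E w).card = ∑ s : ZMod m, c s * c (w - s) := by
    have h1 : (Pr al E E w).card = ∑ t ∈ E, c (w - sg al t) := by
      unfold Pr
      rw [Finset.card_filter, Finset.sum_product]
      refine Finset.sum_congr rfl fun t _ => ?_
      rw [← Finset.card_filter]
      congr 1
      apply Finset.filter_congr
      intro u _
      exact ⟨fun h => by rw [← h, add_sub_cancel_left], fun h => by rw [h, add_sub_cancel]⟩
    have h2 : ∑ t ∈ E, c (w - sg al t) = ∑ s : ZMod m, ∑ t ∈ E.filter (fun t => sg al t = s),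
        c (w - sg al t) :=
      (Finset.sum_fiberwise E (sg al) fun t => c (w - sg al t)).symm
    rw [h1, h2]
    refine Finset.sum_congr rfl fun s _ => ?_
    calc ∑ t ∈ E.filter (fun t => sg al t = s), c (w - sg al t)
        = ∑ t ∈ E.filter (fun t => sg al t = s), c (w - s) :=
          Finset.sum_congr rfl fun t ht => by rw [(Finset.mem_filter.1 ht).2]
      _ = c s * c (w - s) := by rw [Finset.sum_const, smul_eq_mul]
  have hall : ∑ s : ZMod m, (6 * c s + 6 * c (w - s)) ≤ ∑ s : ZMod m, (c s * c (w - s) + 36) :=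
    Finset.sum_le_sum fun s _ => Gcd_num (hc6 s) (hc6 (w - s))
  rw [Finset.sum_add_distrib, Finset.sum_add_distrib, ← Finset.mul_sum, ← Finset.mul_sum, hsum,
    hsum2, ← hPr, Finset.sum_const, Finset.card_univ, ZMod.card, smul_eq_mul] at hall
  omega

end Pool.Agent.WLW
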