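import Pool.Agent.WLW.StL

/-!
# WLW Lor: every vector of small weight has the residue of an element of `Lo`
-/

set_option autoImplicit false

namespace Pool.Agent.WLW

open Finset Pool.Agent.WLK Pool.Agent.Helper60.Wilf Pool.Agent.Helper82.Wilf

theorem thm_Lor (hRes : St_Res) : St_Lor := by
  intro k m M a T hT hMi z hz
  obtain ⟨-, -, -, -, -, -, hkm⟩ := hRes k m M a T hT
  have hm : 0 < m := by omega
  have himg : T.image (fun x => sw a x % m) = range m := by
    refine Finset.eq_of_subset_of_card_le ?_ ?_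
    · intro r hr
      obtain ⟨x, _, rfl⟩ := Finset.mem_image.mp hr
      exact Finset.mem_range.mpr (Nat.mod_lt _ hm)
    · rw [Finset.card_range, Finset.card_image_of_injOn, hT.card]
      intro x hx y hy hxy
      exact hT.inj x hx y hy hxy
  have hmem : sw a z % m ∈ T.image (fun x => sw a x % m) := by
    rw [himg]
    exact Finset.mem_range.mpr (Nat.mod_lt _ hm)
  obtain ⟨x, hx, hxz⟩ := Finset.mem_image.mp hmem
  have hle : sw a x ≤ sw a z := hMi x hx z hxz.symm
  refine ⟨x, Finset.mem_filter.mpr ⟨hx, ?_⟩, hxz⟩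
  unfold ff
  rw [Nat.one_le_div_iff hm]
  omega

end Pool.Agent.WLW
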