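import Pool.Agent.WLW.St

/-!
helper82. Module Mar of WLW: marginals of the set of pairs of triples with a given sum.
-/

set_option autoImplicit false

namespace Pool.Agent.WLW

open Finset Pool.Agent.WLK

private theorem Mar_one {k m : ℕ} (al : Fin k → ZMod m) (E : Finset (Fin k × Fin k × Fin k))
    (hE : Ci al E) (w : ZMod m) (t : Fin k × Fin k × Fin k) :
    ((E.filter fun u => sg al t + sg al u = w).card : ℝ) ≤ 6 := by
  have h1 : (E.filter fun u => sg al t + sg al u = w) = E.filter fun u => sg al u = w - sg al t := by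
    apply Finset.filter_congr
    intro u _
    exact ⟨fun h => by rw [← h, add_sub_cancel_left], fun h => by rw [h, add_sub_cancel]⟩
  rw [h1]
  exact_mod_cast hE.fib _

private theorem Mar_bd {k m : ℕ} (al : Fin k → ZMod m) (E : Finset (Fin k × Fin k × Fin k))
    (hE : Ci al E) (w : ZMod m) (g : Fin k × Fin k × Fin k → ℝ) (hg : ∀ t, 0 ≤ g t)
    (t : Fin k × Fin k × Fin k) :
    ∑ u ∈ E, (if sg al t + sg al u = w then g t else 0) ≤ 6 * g t := by
  rw [← Finset.sum_filter, Finset.sum_const, nsmul_eq_mul]
  exact mul_le_mul_of_nonneg_right (Mar_one al E hE w t) (hg t)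

theorem thm_Mar : St_Mar := by
  intro k m al E hE w A g hg
  constructor
  · unfold Pr
    rw [Finset.sum_filter, Finset.sum_product, Finset.mul_sum]
    exact Finset.sum_le_sum fun t _ => Mar_bd al E hE w g hg t
  · unfold Pr
    rw [Finset.sum_filter, Finset.sum_product_right, Finset.mul_sum]
    refine Finset.sum_le_sum fun t _ => ?_
    refine le_trans (le_of_eq ?_) (Mar_bd al E hE w g hg t)
    refine Finset.sum_congr rfl fun u _ => ?_
    show (if sg al u + sg al t = w then g t else 0) = _
    rw [add_comm]

end Pool.Agent.WLW
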