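import Pool.Agent.WLW.St

/-!
# WLW PrW: assembly for a degree `p` with the property `Cir p` (MP_05ec03_nt)
-/

set_option autoImplicit false

namespace Pool.Agent.WLW

open Finset Pool.Agent.WLK Pool.Agent.Helper60.Wilf Pool.Agent.Helper82.Wilf

private theorem PrW_fin (m S W Q w p c δ₁ δ ε : ℝ)
    (hWW : W ≤ (p + 1) / 2 * m ^ 2 + c * (m * S) + ε * m ^ 2)
    (hR : m * S + (p + 1) * (m * (m - 1) / 2) ≤ W + m * Q + m * w)
    (hQ : m * Q ≤ m * (2 * (δ * m))) (hwm : m * w ≤ 0)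
    (hN9 : (p + 1) / 2 * m ≤ (1 - c) * δ₁ / 4 * m ^ 2)
    (hd9 : 2 * δ * m ^ 2 ≤ (1 - c) * δ₁ / 4 * m ^ 2)
    (e2 : ε * m ^ 2 = (1 - c) * δ₁ / 4 * m ^ 2) (e0 : 0 ≤ (1 - c) * δ₁ * m ^ 2) :
    ((1 - c) * m) * S ≤ ((1 - c) * m) * (δ₁ * m) := by
  linarith

theorem thm_PrW (hRb2 : St_Rb2) (hQsm : St_Qsm) (hFfp : St_Ffp) (hKKp : St_KKp) (hLwp : St_Lwp)
    (hSml : St_Sml) (hLow : St_Low) (hRes : St_Res) : St_PrW := by
  intro p hp hCir C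
  obtain ⟨c, hc, hCir⟩ := hCir
  obtain ⟨h, N₁, hh, hL⟩ := hLwp p hp
  obtain ⟨δ₁, N₂, hδ₁, hK⟩ := hKKp p h (by omega) hh
  have hc1 : 0 < 1 - c := by linarith
  have hcδ : 0 < (1 - c) * δ₁ := mul_pos hc1 hδ₁
  obtain ⟨ε, hεd⟩ : ∃ ε : ℝ, ε = (1 - c) * δ₁ / 4 := ⟨_, rfl⟩
  have hε : 0 < ε := by rw [hεd]; linarith
  obtain ⟨δ₂, N₃, hδ₂, hW⟩ := hCir C ε hε
  obtain ⟨δ, hδ0, hδ1, hδh, hδa, hδb, hδc⟩ : ∃ δ : ℝ, 0 < δ ∧ δ ≤ 1 ∧ 8 * δ ≤ h ∧ 8 * δ ≤ δ₁ ∧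
      8 * δ ≤ δ₂ ∧ 8 * δ ≤ (1 - c) * δ₁ := by
    refine ⟨min 1 (min h (min δ₁ (min δ₂ ((1 - c) * δ₁)))) / 8, ?_, ?_, ?_, ?_, ?_, ?_⟩
    · have : 0 < min 1 (min h (min δ₁ (min δ₂ ((1 - c) * δ₁)))) :=
        lt_min one_pos (lt_min hh (lt_min hδ₁ (lt_min hδ₂ hcδ)))
      linarith
    · have h1 : min 1 (min h (min δ₁ (min δ₂ ((1 - c) * δ₁)))) ≤ 1 := min_le_left _ _
      linarith
    · have h1 : min 1 (min h (min δ₁ (min δ₂ ((1 - c) * δ₁)))) ≤ h :=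
        (min_le_right _ _).trans (min_le_left _ _)
      linarith
    · have h1 : min 1 (min h (min δ₁ (min δ₂ ((1 - c) * δ₁)))) ≤ δ₁ :=
        (min_le_right _ _).trans ((min_le_right _ _).trans (min_le_left _ _))
      linarith
    · have h1 : min 1 (min h (min δ₁ (min δ₂ ((1 - c) * δ₁)))) ≤ δ₂ :=
        (min_le_right _ _).trans ((min_le_right _ _).trans ((min_le_right _ _).trans
          (min_le_left _ _)))
      linarith
    · have h1 : min 1 (min h (min δ₁ (min δ₂ ((1 - c) * δ₁)))) ≤ (1 - c) * δ₁ :=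
        (min_le_right _ _).trans ((min_le_right _ _).trans ((min_le_right _ _).trans
          (min_le_right _ _)))
      linarith
  obtain ⟨N₄, hN₄⟩ := hSml p δ (by omega) hδ0 hδ1
  obtain ⟨N₅, hN₅⟩ := hQsm p δ (by omega) hδ0 hδ1
  obtain ⟨N₆, hN₆⟩ := exists_nat_ge (2 * (p : ℝ) * (2 ^ (p - 1) * C) / δ)
  obtain ⟨N₇, hN₇⟩ := exists_nat_ge ((p : ℝ) / δ)
  obtain ⟨N₈, hN₈⟩ := exists_nat_ge (2 * ((p : ℝ) + 1) / ((1 - c) * δ₁))
  obtain ⟨N, hNa, hNb, hNc, hNd, hNe, hNf, hNg, hNh, hNi⟩ : ∃ N : ℕ, N₁ ≤ N ∧ N₂ ≤ N ∧ N₃ ≤ N ∧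
      N₄ ≤ N ∧ N₅ ≤ N ∧ N₆ ≤ N ∧ N₇ ≤ N ∧ N₈ ≤ N ∧ 1 ≤ N :=
    ⟨N₁ + N₂ + N₃ + N₄ + N₅ + N₆ + N₇ + N₈ + 1, by omega, by omega, by omega, by omega,
      by omega, by omega, by omega, by omega, by omega⟩
  refine ⟨N, ?_⟩
  intro k m M a T hT hk1 hk2 hk3
  by_contra hw
  rw [not_lt] at hw
  have hm : 0 < m := by
    rw [← hT.card]
    exact card_pos.2 ⟨0, hT.zero⟩
  have hmR : (0 : ℝ) < m := by exact_mod_cast hm
  have hNk : N ≤ k := by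
    refine le_trans ?_ hk1
    exact Nat.le_mul_of_pos_right _ (pow_pos (Nat.succ_pos _) _)
  have hkN : (N : ℝ) ≤ k := by exact_mod_cast hNk
  have hk0 : 1 ≤ k := hNi.trans hNk
  have hkR : (1 : ℝ) ≤ k := by exact_mod_cast hk0
  have hkm : k + 1 ≤ m := (hRes k m M a T hT).2.2.2.2.2.2
  have hkmR : (k : ℝ) ≤ m := by
    have : k ≤ m := by omega
    exact_mod_cast this
  obtain ⟨s1, s2, _, s4, _, s6⟩ := hN₄ k m M a T hT hw ((Nat.mul_le_mul_right _ hNd).trans hk1)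
    (lt_of_le_of_lt (Nat.mul_le_mul_right _ (Nat.pow_le_pow_left (Nat.mul_le_mul_right _ hNd) _)) hk2)
  have s7 := hN₅ k m M a T hT hw ((Nat.mul_le_mul_right _ hNe).trans hk1)
    (lt_of_le_of_lt (Nat.mul_le_mul_right _ (Nat.pow_le_pow_left (Nat.mul_le_mul_right _ hNe) _)) hk2)
  have hp3 : (3 : ℝ) ≤ p := by exact_mod_cast hp
  have hp0 : (0 : ℝ) < p := by linarith
  have hS : SS m M a T ≤ ((p : ℝ) / 2 - 1 + δ) * m + 2 * p * (Lw T p).card := s4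
  -- the low elements
  have hLo0 : (0 : ℝ) ≤ ((Lw T p).card : ℝ) := Nat.cast_nonneg _
  have hLo2 : 2 * (p : ℝ) * ((Lw T p).card : ℝ) ≤ δ * m := by
    have e1 : ((Lw T p).card : ℝ) ≤ ((k : ℝ) + 1) ^ (p - 1) := by
      exact_mod_cast (hLow k T p (by omega)).1
    have e2 : ((k : ℝ) + 1) ^ (p - 1) ≤ (2 * (k : ℝ)) ^ (p - 1) :=
      pow_le_pow_left₀ (by linarith) (by linarith) _
    have e3 : (k : ℝ) * (2 * (k : ℝ)) ^ (p - 1) = 2 ^ (p - 1) * (k : ℝ) ^ p := by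
      obtain ⟨q, rfl⟩ : ∃ q, p = q + 1 := ⟨p - 1, by omega⟩
      rw [Nat.add_sub_cancel, mul_pow, pow_succ]
      ring
    have e4 : (k : ℝ) * ((Lw T p).card : ℝ) ≤ 2 ^ (p - 1) * (C * m) := by
      calc (k : ℝ) * ((Lw T p).card : ℝ) ≤ (k : ℝ) * (2 * (k : ℝ)) ^ (p - 1) :=
            mul_le_mul_of_nonneg_left (e1.trans e2) (by linarith)
        _ = 2 ^ (p - 1) * (k : ℝ) ^ p := e3
        _ ≤ _ := mul_le_mul_of_nonneg_left hk3 (by positivity)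
    have e5 : 2 * (p : ℝ) * (2 ^ (p - 1) * C) ≤ k * δ := by
      have hN6R : (N₆ : ℝ) ≤ k := by exact_mod_cast hNf.trans hNk
      rw [div_le_iff₀ hδ0] at hN₆
      exact hN₆.trans (mul_le_mul_of_nonneg_right hN6R hδ0.le)
    have e6 : (k : ℝ) * (2 * (p : ℝ) * ((Lw T p).card : ℝ)) ≤ k * (δ * m) := by
      calc (k : ℝ) * (2 * (p : ℝ) * ((Lw T p).card : ℝ))
          = 2 * (p : ℝ) * ((k : ℝ) * ((Lw T p).card : ℝ)) := by ring
        _ ≤ 2 * (p : ℝ) * (2 ^ (p - 1) * (C * m)) :=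
            mul_le_mul_of_nonneg_left e4 (by linarith)
        _ = (2 * (p : ℝ) * (2 ^ (p - 1) * C)) * m := by ring
        _ ≤ (k * δ) * m := mul_le_mul_of_nonneg_right e5 hmR.le
        _ = k * (δ * m) := by ring
    exact le_of_mul_le_mul_left e6 (by linarith)
  have hLo3 : ((Lw T p).card : ℝ) ≤ δ * m :=
    (le_mul_of_one_le_left hLo0 (by linarith)).trans hLo2
  have hδm : 0 ≤ δ * m := by positivity
  have hδm1 : δ * m ≤ m := mul_le_of_le_one_left hmR.le hδ1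
  have hSp : SS m M a T ≤ p * m := by
    have e1 : ((p : ℝ) / 2 - 1 + δ) * m ≤ ((p : ℝ) - 1) * m :=
      mul_le_mul_of_nonneg_right (by linarith) hmR.le
    linarith
  have hSk : SS m M a T ≤ k * (δ * m) := by
    have hN7R : (N₇ : ℝ) ≤ k := by exact_mod_cast hNg.trans hNk
    rw [div_le_iff₀ hδ0] at hN₇
    have e1 : (p : ℝ) ≤ k * δ := hN₇.trans (mul_le_mul_of_nonneg_right hN7R hδ0.le)
    calc SS m M a T ≤ p * m := hSp
      _ ≤ (k * δ) * m := mul_le_mul_of_nonneg_right e1 hmR.le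
      _ = k * (δ * m) := by ring
  -- the good elements
  have hG0 : ((Tl T p).card : ℝ) ≤ ((Gd m M a T p).card : ℝ) + 2 * (δ * m) := by
    have e1 := hFfp k m M a T hT p
    have e2 : (k : ℝ) * ((JJ T).card : ℝ) ≤ k * (δ * m) :=
      mul_le_mul_of_nonneg_left s1 (by linarith)
    have e3 : (k : ℝ) * ((Tl T p).card : ℝ) ≤ k * (((Gd m M a T p).card : ℝ) + 2 * (δ * m)) := by
      linarith
    exact le_of_mul_le_mul_left e3 (by linarith)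
  have hT1 : (1 - 2 * δ) * m ≤ ((Tl T p).card : ℝ) := by linarith
  have hG1 : (1 - 4 * δ) * m ≤ ((Gd m M a T p).card : ℝ) := by linarith
  have hG2 : (1 - δ₂) * m ≤ ((Gd m M a T p).card : ℝ) :=
    le_trans (mul_le_mul_of_nonneg_right (by linarith) hmR.le) hG1
  have hG3 : (1 - h) * m ≤ ((Gd m M a T p).card : ℝ) :=
    le_trans (mul_le_mul_of_nonneg_right (by linarith) hmR.le) hG1
  have hT2 : (1 - δ₁) * m ≤ ((Tl T p).card : ℝ) :=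
    le_trans (mul_le_mul_of_nonneg_right (by linarith) hmR.le) hT1
  have hJ2 : ((JJ T).card : ℝ) ≤ δ₂ * m :=
    s1.trans (mul_le_mul_of_nonneg_right (by linarith) hmR.le)
  have hN2 : ((Ns T).card : ℝ) ≤ δ₂ * m :=
    s2.trans (mul_le_mul_of_nonneg_right (by linarith) hmR.le)
  have hN3 : ((Ns T).card : ℝ) ≤ δ₁ * m :=
    s2.trans (mul_le_mul_of_nonneg_right (by linarith) hmR.le)
  have hWW := hW k m M a T hT (hNc.trans hNk) hk3 hN2 hJ2 hG2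
  have hR := hRb2 k m M a T hT p
  have hQ : (m : ℝ) * ∑ y ∈ Qs T p, ((sp y : ℝ) + p) ≤ m * (2 * (δ * m)) :=
    mul_le_mul_of_nonneg_left (by linarith) hmR.le
  have hwm : (m : ℝ) * wil k m M a T ≤ 0 := mul_nonpos_of_nonneg_of_nonpos hmR.le hw
  have hN8 : 2 * ((p : ℝ) + 1) ≤ m * ((1 - c) * δ₁) := by
    have hN8R : (N₈ : ℝ) ≤ m := by
      have : (N₈ : ℝ) ≤ k := by exact_mod_cast hNh.trans hNk
      linarith
    rw [div_le_iff₀ hcδ] at hN₈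
    exact hN₈.trans (mul_le_mul_of_nonneg_right hN8R hcδ.le)
  have hN9 : ((p : ℝ) + 1) / 2 * m ≤ (1 - c) * δ₁ / 4 * (m : ℝ) ^ 2 := by
    have e1 := mul_le_mul_of_nonneg_right hN8 hmR.le
    linarith
  have hd9 : 2 * δ * (m : ℝ) ^ 2 ≤ (1 - c) * δ₁ / 4 * (m : ℝ) ^ 2 :=
    mul_le_mul_of_nonneg_right (by linarith) (by positivity)
  have hfin : ((1 - c) * m) * SS m M a T ≤ ((1 - c) * m) * (δ₁ * m) :=
    PrW_fin _ _ _ _ _ _ _ _ _ _ hWW hR hQ hwm hN9 hd9 (by rw [hεd]) (by positivity)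
  have hS1 : SS m M a T ≤ δ₁ * m := le_of_mul_le_mul_left hfin (mul_pos hc1 hmR)
  have hKK := hK k m M a T hT (hNb.trans hNk) hT2 hN3 hS1
  exact hL k m M a T hT (hNa.trans hNk) hKK hG3

end Pool.Agent.WLW
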