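import Pool.Agent.WLW.St

/-!
# WLW: rotations and swaps (MP_05ec03_nt)
-/

set_option autoImplicit false

namespace Pool.Agent.WLW

open Finset

/-- the rotation of a triple -/
private def Rot_r {k : ℕ} (t : Fin k × Fin k × Fin k) : Fin k × Fin k × Fin k :=
  (t.2.1, t.2.2, t.1)

/-- the inverse rotation of a triple -/
private def Rot_l {k : ℕ} (t : Fin k × Fin k × Fin k) : Fin k × Fin k × Fin k :=
  (t.2.2, t.1, t.2.1)

private theorem Rot_lr {k : ℕ} (t : Fin k × Fin k × Fin k) : Rot_l (Rot_r t) = t := rfl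

private theorem Rot_rl {k : ℕ} (t : Fin k × Fin k × Fin k) : Rot_r (Rot_l t) = t := rfl

private theorem Rot_rE {k m : ℕ} {al : Fin k → ZMod m} {E : Finset (Fin k × Fin k × Fin k)}
    (h : Ci al E) {t : Fin k × Fin k × Fin k} (ht : t ∈ E) : Rot_r t ∈ E := by
  obtain ⟨x, y, z⟩ := t
  exact h.s2 y x z (h.s1 x y z ht)

private theorem Rot_lE {k m : ℕ} {al : Fin k → ZMod m} {E : Finset (Fin k × Fin k × Fin k)}
    (h : Ci al E) {t : Fin k × Fin k × Fin k} (ht : t ∈ E) : Rot_l t ∈ E := by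
  obtain ⟨x, y, z⟩ := t
  exact h.s1 x z y (h.s2 x y z ht)

private theorem Rot_sgr {k m : ℕ} (al : Fin k → ZMod m) (t : Fin k × Fin k × Fin k) :
    sg al (Rot_r t) = sg al t := by
  simp only [sg, Rot_r]
  ring

private theorem Rot_sgl {k m : ℕ} (al : Fin k → ZMod m) (t : Fin k × Fin k × Fin k) :
    sg al (Rot_l t) = sg al t := by
  simp only [sg, Rot_l]
  ring

private theorem Rot_mem {k m : ℕ} {al : Fin k → ZMod m} {A B : Finset (Fin k × Fin k × Fin k)}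
    {w : ZMod m} {q : (Fin k × Fin k × Fin k) × (Fin k × Fin k × Fin k)} :
    q ∈ Pr al A B w ↔ (q.1 ∈ A ∧ q.2 ∈ B) ∧ sg al q.1 + sg al q.2 = w := by
  simp only [Pr, mem_filter, mem_product]

theorem thm_Rot : St_Rot := by
  intro k m al E h
  refine ⟨fun g => ?_, fun g => ?_, fun w A g => ?_, fun w A B g => ?_⟩
  · exact sum_nbij' Rot_r Rot_l (fun t ht => Rot_rE h ht) (fun t ht => Rot_lE h ht)
      (fun t _ => Rot_lr t) (fun t _ => Rot_rl t) (fun t _ => rfl)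
  · refine sum_nbij' (fun t => (t.2.1, t.1, t.2.2)) (fun t => (t.2.1, t.1, t.2.2))
      (fun t ht => h.s1 t.1 t.2.1 t.2.2 ht) (fun t ht => h.s1 t.1 t.2.1 t.2.2 ht)
      (fun t _ => rfl) (fun t _ => rfl) (fun t _ => rfl)
  · refine sum_nbij' (fun q => (q.1, Rot_r q.2)) (fun q => (q.1, Rot_l q.2))
      (fun q hq => ?_) (fun q hq => ?_) (fun q _ => rfl) (fun q _ => rfl) (fun q _ => rfl)
    · rw [Rot_mem] at hq ⊢
      refine ⟨⟨hq.1.1, Rot_rE h hq.1.2⟩, ?_⟩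
      rw [Rot_sgr]
      exact hq.2
    · rw [Rot_mem] at hq ⊢
      refine ⟨⟨hq.1.1, Rot_lE h hq.1.2⟩, ?_⟩
      rw [Rot_sgl]
      exact hq.2
  · refine sum_nbij' (fun q => (q.2, q.1)) (fun q => (q.2, q.1))
      (fun q hq => ?_) (fun q hq => ?_) (fun q _ => rfl) (fun q _ => rfl) (fun q _ => rfl)
    · rw [Rot_mem] at hq ⊢
      exact ⟨⟨hq.1.2, hq.1.1⟩, by rw [add_comm]; exact hq.2⟩
    · rw [Rot_mem] at hq ⊢
      exact ⟨⟨hq.1.2, hq.1.1⟩, by rw [add_comm]; exact hq.2⟩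

end Pool.Agent.WLW
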