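import Pool.Agent.WLW.Defs
import Pool.Agent.WLK.St

/-!
# WLW: Wilf's inequality, the windows (MP_05ec03_nt)

Frozen statements of the modules. Every module `Pool/Agent/WLW/<X>.lean` imports this file and proves
`theorem thm_<X> : St_<X>`, with the hypotheses named in the docstring (e.g. `(hMar : St_Mar)`). The
docstrings contain the proofs. `e_i = Pi.single i 1`, `D x = M - sw a x = m ff x + rr x`, `ν = nu T`. Statements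
of the campaign `WLK` (`St_Idn`, `St_Dbl`, `St_Res`, ..) are hypotheses as well.
-/

set_option autoImplicit false

namespace Pool.Agent.WLW

open Finset Pool.Agent.WLK Pool.Agent.Helper60.Wilf Pool.Agent.Helper82.Wilf

/-! ### All degrees -/

/-- **RB2** (from `St_Idn`, `St_Dbl`, `St_Res`; model: `Pool/Agent/WLK/Rbd.lean`).  PROOF.  By `St_Idn`
`m wil = m SS - ∑ ν rr + ∑ rr + ∑ x, ∑ i ∉ up, x i D x` (sums over `T`).  (1) `∑ ν rr = ∑ y ∈ T, ∑ i ∈ su y, rr (y - e_i)`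
(`St_Dbl`); the `y ∈ Tl T p` give `WW`, the others are in `Qs T p` and give at most `m sp y`.
(2) For `y ∉ Qs T p` the last sum is `p D y ≥ p rr y` (`up T y = ∅`), for the others it is `≥ 0 ≥ p rr y - p m`.
(3) `∑ rr = m (m - 1) / 2` (`St_Res` (4)). -/
def St_Rb2 : Prop := ∀ (k m M : ℕ) (a : Fin k → ℕ) (T : Finset (Fin k → ℕ)), Ty m M a T → ∀ p : ℕ,
  m * SS m M a T + ((p : ℝ) + 1) * (m * ((m : ℝ) - 1) / 2) ≤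
    WW m M a T p + m * ∑ y ∈ Qs T p, ((sp y : ℝ) + p) + m * wil k m M a T

/-- **QSM** (from `St_Err`, `St_Cnd`, `St_Sup`, `St_Res`; models: `Pool/Agent/WLK/Err.lean` (the step `cQ`) and
`Pool/Agent/WLK/Sml.lean`).  PROOF.  With `J, N₁, Lo, B, L` as in `St_Err`:
`∑ Qs (sp + p) ≤ (L + p) N₁ + 2 p Lo + 2 B + 2 p J` (`cQ` in `Err.lean`), `k J ≤ 2 L m`, `N₁ ≤ L J`,
`(K - 2) B ≤ 2 (p m + L N₁)`; as in `Sml_ar`, `(L + p) N₁ ≤ δ m / 4`, `2 B ≤ δ m / 4`, `2 p J ≤ δ m / 4`. -/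
def St_Qsm : Prop := ∀ (p : ℕ) (δ : ℝ), 2 ≤ p → 0 < δ → δ ≤ 1 → ∃ N : ℕ,
  ∀ (k m M : ℕ) (a : Fin k → ℕ) (T : Finset (Fin k → ℕ)), Ty m M a T → wil k m M a T ≤ 0 →
  N * (Nat.log 2 m + 1) ^ 3 ≤ k → (N * (Nat.log 2 m + 1)) ^ (p + 1) * m < k ^ (p + 1) →
  ∑ y ∈ Qs T p, ((sp y : ℝ) + p) ≤ δ * m + 2 * p * (Lw T p).card

/-- **FFP**.  PROOF.  All terms of `SS` are `≥ 0` (`ν ≤ k`).  For `y ∈ Tl T p` outside `Gd` and `JJ T`: `ν y = 0`,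
`ff y ≥ 1`, so the term is `≥ k`. -/
def St_Ffp : Prop := ∀ (k m M : ℕ) (a : Fin k → ℕ) (T : Finset (Fin k → ℕ)), Ty m M a T → ∀ p : ℕ,
  k * ((Tl T p).card : ℝ) ≤ k * ((Gd m M a T p).card : ℝ) + k * ((JJ T).card : ℝ) + SS m M a T

/-- **JLP** (from `St_Res`).  PROOF.  `k = (k - ν x) + ν x`.  For `x ∈ Jl T (p - 1) ⊆ JJ T`, `ff x ≥ 1` (`St_Res` (5)), so
`∑ (k - ν) ≤ SS`.  `∑ x ∈ Jl T (p - 1), ν x` is the number of the pairs `(x, i)` with `x + e_i ∈ T`; here `x + e_i` is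
in `Tl T p` (each `y ∈ Tl T p` comes from at most `p` pairs: `i ∈ su y`, `x = y - e_i`) or in `Ns T` with `y i = 2` for
exactly one `i`, the other values `≤ 1` (each such `y` comes from at most one pair). -/
def St_Jlp : Prop := ∀ (k m M : ℕ) (a : Fin k → ℕ) (T : Finset (Fin k → ℕ)), Ty m M a T → ∀ p : ℕ,
  1 ≤ p → k * ((Jl T (p - 1)).card : ℝ) ≤ SS m M a T + p * ((Tl T p).card : ℝ) + (Ns T).card

/-- **KKP** (from `St_Shd`, `St_Jlp`).  PROOF.  Let `t = (Tl T p).card ≤ m`, `δ ≤ 1 / 4` small, `N` large.  `St_Shd` (`l = p`) gives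
`x` with `x.choose p ≤ t`, `p t ≤ (x + 1) J` (`J` = size of `Jl T (p - 1)`); `St_Jlp` gives `k J ≤ p t + 2 δ m ≤ p t (1 + 2 δ)`
(`p t ≥ 2 (3 / 4) m ≥ m`).  So `k p t ≤ (x + 1) p t (1 + 2 δ)`, `k ≤ (x + 1) (1 + 2 δ)`.  If `p ≤ x`,
`(x + 1 - p) ^ p ≤ x.descFactorial p = p! x.choose p ≤ p! m`.  `x + 1 - p ≥ k / (1 + 2 δ) - p ≥ k (1 / (1 + 2 δ) - p / N)`, and
`(1 / (1 + 2 δ) - p / N) ^ p ≥ 1 / (1 + h)` for small `δ`, `1 / N`. -/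
def St_KKp : Prop := ∀ (p : ℕ) (h : ℝ), 2 ≤ p → 0 < h → ∃ (δ : ℝ) (N : ℕ), 0 < δ ∧
  ∀ (k m M : ℕ) (a : Fin k → ℕ) (T : Finset (Fin k → ℕ)), Ty m M a T → N ≤ k →
  (1 - δ) * m ≤ ((Tl T p).card : ℝ) → ((Ns T).card : ℝ) ≤ δ * m → SS m M a T ≤ δ * m →
  (k : ℝ) ^ p ≤ (1 + h) * ((Nat.factorial p : ℝ) * m)

/-- **LPA**.  PROOF.  `y ↦ su y` is injective on `G` with values in the `p`-element subsets of `Fin k`
(`y i = 1` for `i ∈ su y`).  (1) the images are the `p`-element subsets of `Z`.  (2) The images and the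
`p`-element subsets of `Z` are disjoint families of `p`-element subsets of `Fin k`.  (3) For `z ∈ Z` there
are at most `(k - 1).choose (p - 1) ≤ k ^ (p - 1)` subsets which contain `z`. -/
def St_LPa : Prop := ∀ (k p : ℕ) (G : Finset (Fin k → ℕ)),
  (∀ y ∈ G, (∀ i, y i ≤ 1) ∧ ∑ i, y i = p) →
  (∀ Z : Finset (Fin k), (G.filter fun y => su y ⊆ Z).card ≤ Z.card.choose p) ∧
  (∀ Z : Finset (Fin k), (∀ y ∈ G, ¬ su y ⊆ Z) → Z.card.choose p + G.card ≤ k.choose p) ∧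
  (∀ Z : Finset (Fin k), 1 ≤ p → (G.filter fun y => ¬ Disjoint (su y) Z).card ≤ Z.card * k ^ (p - 1))

/-- **LPB** (from `St_LPa`, `St_Res`).  PROOF.  `M > m` (`1 ≤ k`).  Let `b i = p a i - (M - m)` (an integer).  For `y ∈ G = Gd`,
`D y = rr y < m`, so `r y = sw a y - (M - m) ∈ [1, m]`, and `y ↦ r y` is injective (`Ty.inj`); `∑ i ∈ su y, b i = p r y`.
`Lo = {b ≤ 0}`, `Hi = {b > m}`, `A = {0 < b, 2 b ≤ m}`, `B = {m < 2 b, b ≤ m}`.  No `y ∈ G` has `su y ⊆ Lo` (sum `≤ 0 < p r`)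
or `su y ⊆ Hi` (sum `> p m`, as `p ≥ 1`): `St_LPa` (2).  At most `m - G.card` of the `r ∈ [1, m]` are not values.  There are
`m / (2 p)` (rounded down) numbers `r ∈ [1, m]` with `2 p r ≤ m`; for such a `y`, if `su y` is disjoint from
`Lo`, then `0 < b i ≤ p r y`, so `su y ⊆ A`: `St_LPa` (1), (3).  There are at least `m / (2 p)` numbers `r ∈ [1, m]` with
`2 p (m - r) < m`; for such a `y`, if `su y` is disjoint from `Hi`, then `b i ≥ p r - (p - 1) m > m / 2`, so `su y ⊆ B`. -/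
def St_LPb : Prop := ∀ (k m M : ℕ) (a : Fin k → ℕ) (T : Finset (Fin k → ℕ)), Ty m M a T → ∀ p : ℕ,
  1 ≤ p → 1 ≤ k → ∃ lo hi A B : ℕ, A + B ≤ k ∧ lo ≤ k ∧ hi ≤ k ∧
  lo.choose p + (Gd m M a T p).card ≤ k.choose p ∧ hi.choose p + (Gd m M a T p).card ≤ k.choose p ∧
  (m : ℝ) / (2 * p) - 1 - (m - (Gd m M a T p).card) ≤ A.choose p + lo * (k : ℝ) ^ (p - 1) ∧
  (m : ℝ) / (2 * p) - 1 - (m - (Gd m M a T p).card) ≤ B.choose p + hi * (k : ℝ) ^ (p - 1)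

/-- **LPC**.  PROOF.  `P = p!`, `η = 1 / (100 p P)`, `h` small (`8 h ≤ η ^ p`, `h ≤ 1 / (100 p)`), `N` large.  `k.choose p ≤ k ^ p / P ≤ (1 + h) m`,
so `lo.choose p ≤ 2 h m`; and `(1 - h) m ≤ g ≤ k ^ p / P`, so `P m ≤ 2 k ^ p`.  `(lo + 1 - p) ^ p ≤ P lo.choose p ≤ 4 h k ^ p ≤ (η k) ^ p`
(if `p ≤ lo`), so `lo ≤ p + η k`, `lo k ^ (p - 1) ≤ (p / N + η) k ^ p ≤ 2 (p / N + η) P m ≤ m / (20 p)`; the same for `hi`.  So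
`A.choose p, B.choose p ≥ (17 / 20) m / (2 p)`, `A ^ p, B ^ p ≥ (17 / 20) P m / (2 p)`.  With `C = min A B`, `2 C ≤ k`,
`k ^ p ≥ 2 ^ p C ^ p ≥ (17 / 20) (2 ^ p / (2 p)) P m ≥ (17 / 20) (4 / 3) P m > (1 + h) P m`. -/
def St_LPc : Prop := ∀ p : ℕ, 3 ≤ p → ∃ (h : ℝ) (N : ℕ), 0 < h ∧
  ∀ (k m lo hi A B : ℕ) (g : ℝ), N ≤ k → N ≤ m → (k : ℝ) ^ p ≤ (1 + h) * ((Nat.factorial p : ℝ) * m) →
  (1 - h) * m ≤ g → A + B ≤ k → lo ≤ k → hi ≤ k →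
  (lo.choose p : ℝ) + g ≤ k.choose p → (hi.choose p : ℝ) + g ≤ k.choose p →
  (m : ℝ) / (2 * p) - 1 - (m - g) ≤ A.choose p + lo * (k : ℝ) ^ (p - 1) →
  (m : ℝ) / (2 * p) - 1 - (m - g) ≤ B.choose p + hi * (k : ℝ) ^ (p - 1) → False

/-- **LWP** (from `St_LPb`, `St_LPc`, `St_Res`).  PROOF.  `g = (Gd m M a T p).card`; `m ≥ k + 1 ≥ N` (`St_Res` (7)). -/
def St_Lwp : Prop := ∀ p : ℕ, 3 ≤ p → ∃ (h : ℝ) (N : ℕ), 0 < h ∧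
  ∀ (k m M : ℕ) (a : Fin k → ℕ) (T : Finset (Fin k → ℕ)), Ty m M a T → N ≤ k →
  (k : ℝ) ^ p ≤ (1 + h) * ((Nat.factorial p : ℝ) * m) →
  (1 - h) * m ≤ ((Gd m M a T p).card : ℝ) → False

/-- **PRW** (from `St_Rb2`, `St_Qsm`, `St_Ffp`, `St_KKp`, `St_Lwp` and `WLK`: `St_Sml`, `St_Low`, `St_Res`).  PROOF.  `c` from `Cir p`, `h, N` from
`St_Lwp`, `δ₁` from `St_KKp` for this `h`, `ε = (1 - c) δ₁ / 4`, `δ₂` from `Cir p` for `C, ε`, and `δ ≤ 1` with `4 δ ≤ min(h, δ₁, δ₂)`,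
`8 δ ≤ (1 - c) δ₁`; `N` large.  Let `wil ≤ 0`.  `St_Sml`: `|JJ|, |Ns| ≤ δ m`, `(1 - δ) m ≤ Lw + Tl`, `SS ≤ (p / 2 - 1 + δ) m + 2 p Lw`;
`2 p Lw ≤ 2 p (k + 1) ^ (p - 1) ≤ δ m` (`St_Low` (1), `k ^ p ≤ C m`, `k ≥ N`).  So `SS ≤ p m ≤ δ k m`, and `St_Ffp` gives
`Gd ≥ Tl - JJ - δ m ≥ (1 - 4 δ) m`.  `St_Rb2`, `St_Qsm`: `m SS + (p + 1) m (m - 1) / 2 ≤ WW + 2 δ m ^ 2`; with `Cir p`:
`(1 - c) m SS ≤ (ε + 2 δ) m ^ 2 + (p + 1) m / 2 ≤ (1 - c) δ₁ m ^ 2`.  `St_KKp`, `St_Lwp`. -/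
def St_PrW : Prop := ∀ p : ℕ, 3 ≤ p → Cir p → ∀ C : ℝ, ∃ N : ℕ,
  ∀ (k m M : ℕ) (a : Fin k → ℕ) (T : Finset (Fin k → ℕ)), Ty m M a T →
  N * (Nat.log 2 m + 1) ^ 3 ≤ k → (N * (Nat.log 2 m + 1)) ^ (p + 1) * m < k ^ (p + 1) →
  (k : ℝ) ^ p ≤ C * m → 0 < wil k m M a T

/-! ### Degree three -/

/-- **MAR**.  PROOF.  For `t ∈ A` the number of the `u ∈ E` with `sg t + sg u = w` is at most `6` (`Ci.fib` for `w - sg t`). -/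
def St_Mar : Prop := ∀ (k m : ℕ) (al : Fin k → ZMod m) (E : Finset (Fin k × Fin k × Fin k)), Ci al E →
  ∀ (w : ZMod m) (A : Finset (Fin k × Fin k × Fin k)) (g : Fin k × Fin k × Fin k → ℝ),
  (∀ t, 0 ≤ g t) → ∑ q ∈ Pr al A E w, g q.1 ≤ 6 * ∑ t ∈ A, g t ∧
  ∑ q ∈ Pr al E A w, g q.2 ≤ 6 * ∑ t ∈ A, g t

/-- **GCD**.  PROOF.  Let `c s` be the number of the `t ∈ E` with `sg t = s`; `c s ≤ 6`, `∑ s, c s = |E|`,
`|Pr E E w| = ∑ s, c s c (w - s)`, and `(6 - c s) (6 - c (w - s)) ≥ 0`; sum over the `m` elements of `ZMod m`. -/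
def St_Gcd : Prop := ∀ (k m : ℕ) (al : Fin k → ZMod m) (E : Finset (Fin k × Fin k × Fin k)),
  0 < m → Ci al E → ∀ w : ZMod m, 12 * E.card ≤ (Pr al E E w).card + 36 * m

/-- **THR**.  PROOF.  `W = 3 κ - 1 - w`.  The elements `al x₁ + al y₁ - κ + W`, `al x₂ + al y₂ - κ`, `al z₁ + al z₂ - κ` of `ZMod m` have
the sum `-1`, so the sum of their values plus `1` is a positive multiple of `m`; and
`(u + v).val ≤ u.val + v.val`. -/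
def St_Thr : Prop := ∀ (k m : ℕ) (al : Fin k → ZMod m) (κ w : ZMod m), 0 < m →
  ∀ t u : Fin k × Fin k × Fin k, sg al t + sg al u = w →
  m ≤ 1 + (3 * κ - 1 - w).val + Y al κ t.1 t.2.1 + Y al κ u.1 u.2.1 + Y al κ t.2.2 u.2.2

/-- **ROT**.  PROOF.  `E` is invariant under rotations (`Ci.s1`, `Ci.s2`) and `sg` too; (3), (4): swap of the two
components. -/
def St_Rot : Prop := ∀ (k m : ℕ) (al : Fin k → ZMod m) (E : Finset (Fin k × Fin k × Fin k)), Ci al E →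
  (∀ g : Fin k → Fin k → Fin k → ℝ, ∑ t ∈ E, g t.2.1 t.2.2 t.1 = ∑ t ∈ E, g t.1 t.2.1 t.2.2) ∧
  (∀ g : Fin k → Fin k → Fin k → ℝ, ∑ t ∈ E, g t.2.1 t.1 t.2.2 = ∑ t ∈ E, g t.1 t.2.1 t.2.2) ∧
  (∀ (w : ZMod m) (A : Finset (Fin k × Fin k × Fin k)) (g : Fin k → Fin k → Fin k → ℝ),
    ∑ q ∈ Pr al A E w, g q.2.2.1 q.2.2.2 q.2.1 = ∑ q ∈ Pr al A E w, g q.2.1 q.2.2.1 q.2.2.2) ∧
  (∀ (w : ZMod m) (A B : Finset (Fin k × Fin k × Fin k))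
    (g : Fin k × Fin k × Fin k → Fin k × Fin k × Fin k → ℝ),
    ∑ q ∈ Pr al A B w, g q.1 q.2 = ∑ q ∈ Pr al B A w, g q.2 q.1)

/-- **CIA** (from `St_Mar`, `St_Thr`, `St_Rot`).  PROOF.  `Γ = Pr E E w`, `W = (3 κ - 1 - w).val`; write `q = ((x₁, y₁, z₁), (x₂, y₂, z₂))`.
Sum `St_Thr` over `Γ`: `(m - 1) |Γ| ≤ W |Γ| + ∑ Y x₁ y₁ + ∑ Y x₂ y₂ + ∑ Y z₁ z₂`; `|Γ| ≤ 6 |E|`, the second and third sums are
`≤ 6 Ye` (`St_Mar`).  The map `q ↦ ((x₁, z₁, z₂), (x₂, y₂, y₁))` is injective from `Γ` to `Pr (QQ E) (QQ E) w` (`(x₁, z₁)` and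
`(x₂, y₂)` can be completed), and `Y z₁ z₂` is `Y` of the last two letters of the first triple.  `QQ E` is the disjoint
union of `E` and `Rt E` (`E ⊆ QQ E`).  The pairs in `E × E` give `≤ 6 ∑ t ∈ E, Y t.2.1 t.2.2 = 6 Ye` (`St_Mar`, `St_Rot`), the pairs in
`E × Rt` give `FF` (`St_Rot` (3), (4)), the pairs in `Rt × E` give `≤ 6 (m - 1) |Rt|` (`Y ≤ m - 1`, `St_Mar`), and those in `Rt × Rt`
`≤ (m - 1) |Pr Rt Rt w|`. -/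
def St_CiA : Prop := ∀ (k m : ℕ) (al : Fin k → ZMod m) (κ : ZMod m)
  (E : Finset (Fin k × Fin k × Fin k)), 0 < m → Ci al E → ∀ w : ZMod m,
  ((m : ℝ) - 1) * (Pr al E E w).card ≤ 18 * (Ye al κ E : ℝ) + 6 * E.card * (3 * κ - 1 - w).val +
    FF al κ E w + 6 * ((m : ℝ) - 1) * (Rt E).card + ((m : ℝ) - 1) * (Pr al (Rt E) (Rt E) w).card

/-- **CIB** (from `St_Mar`, `St_Thr`, `St_Rot`).  PROOF.  Notation of `St_CiA`.  Let `G` be the set of the `q ∈ Γ` with `(x₁, z₂, z₁) ∈ E` and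
`(x₂, y₂, y₁) ∈ E`.  The map `q ↦ ((x₁, z₂, z₁), (x₂, y₂, y₁))` is an involution of `G`, so `∑_G Y z₁ z₂ = ∑_G Y z₁ y₁`, and
`∑_G Y z₁ y₁ + ∑_(Γ \ G) Y z₁ y₁ = ∑_Γ Y z₁ y₁ ≤ 6 Ye`.  So `∑_G Y z₁ z₂ ≤ 6 Ye`, and by `St_Thr` on `G`
`(m - 1) |G| ≤ W |Γ| + ∑_G Y x₁ y₁ + ∑_G Y x₂ y₂ + 6 Ye`, hence
`(m - 1) |Γ| ≤ W |Γ| + ∑_Γ Y x₁ y₁ + ∑_Γ Y x₂ y₂ + 6 Ye + ∑_(Γ \ G) (m - 1 - Y x₂ y₂)`.
The last sum: `q ↦ ((x₁, z₁, z₂), (x₂, y₂, y₁))` is injective to `Pr (QQ E) (QQ E) w`, for `q ∉ G` one of the two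
triples is in `Rt E` (`(x₁, z₂, z₁) ∈ E` iff `(x₁, z₁, z₂) ∈ E`), and `Y x₂ y₂` is `Y` of the first two letters of the
second triple.  `Rt × E` gives at most `6 (m - 1) |Rt| - FF` (each triple of `Rt` has at most `6` partners and
`Y ≤ m - 1`), `Rt × Rt` at most `(m - 1) |Pr Rt Rt w|`, `E × Rt` at most `6 (m - 1) |Rt|`. -/
def St_CiB : Prop := ∀ (k m : ℕ) (al : Fin k → ZMod m) (κ : ZMod m)
  (E : Finset (Fin k × Fin k × Fin k)), 0 < m → Ci al E → ∀ w : ZMod m,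
  ((m : ℝ) - 1) * (Pr al E E w).card + FF al κ E w ≤
    18 * (Ye al κ E : ℝ) + 6 * E.card * (3 * κ - 1 - w).val +
    12 * ((m : ℝ) - 1) * (Rt E).card + ((m : ℝ) - 1) * (Pr al (Rt E) (Rt E) w).card

/-- **CIS** (from `St_CiA`, `St_CiB`, `St_Gcd`).  PROOF.  For `j < n` let `w = 3 κ - 1 - j`, so `(3 κ - 1 - w).val = j` (`j < m`).
`(St_CiA + St_CiB) / 2` and `St_Gcd`:
`(m - 1) (12 |E| - 36 m) ≤ 18 Ye + 6 |E| j + 9 (m - 1) |Rt| + (m - 1) |Pr Rt Rt w|`.  Sum over `j < n`: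
`∑ j = n (n - 1) / 2`, and the sets `Pr Rt Rt w` for different `w` are disjoint subsets of `Rt ×ˢ Rt`. -/
def St_CiS : Prop := ∀ (k m : ℕ) (al : Fin k → ZMod m) (κ : ZMod m)
  (E : Finset (Fin k × Fin k × Fin k)), 0 < m → Ci al E → ∀ n : ℕ, 1 ≤ n → n ≤ m →
  n * ((m : ℝ) - 1) * (12 * E.card - 36 * m) ≤ 18 * n * (Ye al κ E : ℝ) + 3 * (n : ℝ) ^ 2 * E.card +
    ((m : ℝ) - 1) * ((Rt E).card : ℝ) ^ 2 + 9 * n * ((m : ℝ) - 1) * (Rt E).card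

/-- **E3A** (from `St_Res`).  PROOF.  `Ci.s1`, `Ci.s2`: the condition in `E3` is symmetric.  For `t ∈ E3 T` the vector
`y = e_x + e_y + e_z` is in `Tl T 3`, and every `y ∈ Tl T 3` comes from exactly `6` triples (the orderings of its
support); `sg t` is the class of `sw a y` modulo `m`, which determines `y` (`Ty.inj`). -/
def St_E3a : Prop := ∀ (k m M : ℕ) (a : Fin k → ℕ) (T : Finset (Fin k → ℕ)), Ty m M a T →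
  Ci (fun i => ((a i : ℕ) : ZMod m)) (E3 T) ∧ (E3 T).card = 6 * (Tl T 3).card

/-- **E3B** (from `St_Res`).  PROOF.  For `t = (x, y, z) ∈ E3 T` the vector `v = e_x + e_y` is in `T`, so `sw a v ≤ M`, and
`Y = (sw a v - (M + 1)).val = m - 1 - rr v` (`M - sw a v = m ff v + rr v`).  `v = u - e_z` for `u = e_x + e_y + e_z ∈ Tl T 3`;
for `u ∈ Tl T 3` and `z ∈ su u` there are two orderings `(x, y)` of the rest. -/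
def St_E3b : Prop := ∀ (k m M : ℕ) (a : Fin k → ℕ) (T : Finset (Fin k → ℕ)), Ty m M a T →
  (Ye (fun i => ((a i : ℕ) : ZMod m)) ((M + 1 : ℕ) : ZMod m) (E3 T) : ℝ) =
    ((m : ℝ) - 1) * (E3 T).card - 2 * WW m M a T 3

/-- **E3C** (from `St_Res`).  PROOF.  Let `(x, y, z) ∈ Rt (E3 T)`.  Then `x ≠ y` and `v = e_x + e_y ∈ JJ T` (squarefree of degree
`2`), and `z ∉ up T v` or `z ∈ {x, y}` with `v + e_z ∈ T`.  For fixed `v` there are two pairs `(x, y)`; the first case gives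
at most `2 ∑ v, (k - ν v) ≤ 2 SS` triples (`ff v ≥ 1`), and the second at most `2 |Ns T|`: `(x, y, z) ↦ v + e_z ∈ Ns T`
is injective on the triples with `z = x`, and on those with `z = y` (the coordinate with value `2` is `z`). -/
def St_E3c : Prop := ∀ (k m M : ℕ) (a : Fin k → ℕ) (T : Finset (Fin k → ℕ)), Ty m M a T →
  ((Rt (E3 T)).card : ℝ) ≤ 2 * SS m M a T + 2 * (Ns T).card

/-- **CI3** (from `St_CiS`, `St_E3a`, `St_E3b`, `St_E3c`, `St_Res`).  PROOF.  `c = 98 / 100`.  Let `W = WW m M a T 3`, `S = SS m M a T ≥ 0`,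
`e = |E3 T| = 6 |Tl T 3| ≤ 6 m`, `R = |Rt (E3 T)| ≤ ρ = 2 S + 2 δ m`, `δ = ε / 10` (and `≤ 1 / 100`).  If `S > 11 m / 10`:
`W ≤ 3 m |Tl T 3| ≤ 3 m ^ 2 ≤ 2 m ^ 2 + c m S`.  Let `S ≤ 11 m / 10`.  `St_CiS` with `Ye = (m - 1) e - 2 W`:
`36 n W ≤ n (m - 1) (6 e + 36 m) + 3 n ^ 2 e + (m - 1) R ^ 2 + 9 n (m - 1) R ≤ 72 n m ^ 2 + 18 n ^ 2 m + m ρ ^ 2 + 9 n m ρ`, so
`W ≤ 2 m ^ 2 + n m / 2 + m ρ ^ 2 / (36 n) + m ρ / 4`.  Let `n = ⌈ρ / 4⌉ + 1`-like with `ρ / 4 ≤ n ≤ ρ / 4 + 1`, `1 ≤ n ≤ m` (`m` large):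
`W ≤ 2 m ^ 2 + (1 / 8 + 1 / 9 + 1 / 4) m ρ + m / 2`, and `2 (1 / 8 + 1 / 9 + 1 / 4) < 98 / 100`; `m / 2 ≤ (ε / 2) m ^ 2` for `m ≥ k ≥ N`. -/
def St_Ci3 : Prop := Cir 3

/-! ### The end -/

/-- **GRW** (from `WLK.St_Gro`).  PROOF.  Let `N` be the maximum of the `N₃ p` for `p ≤ Q = ⌊3 / ε⌋` (and `≥ 1`), `L = Nat.log 2 m`.
`d - 1 ≥ d / 2 ≥ m ^ ε / 2`.  `N (L + 1) ^ 3 ≤ m ^ ε / 2` for large `m`.
`(d - 1) ^ (p + 1) ≥ (d / 2) ^ (p + 1) ≥ d (1 - ε) p! m / 2 ^ (p + 1) ≥ m ^ ε m / 2 ^ (p + 1)` (`p! ≥ 6`), and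
`(2 N (L + 1)) ^ (p + 1) ≤ (2 N (L + 1)) ^ (Q + 1) < m ^ ε` for large `m`. -/
def St_Grw : Prop := ∀ (ε : ℝ), 0 < ε → ε ≤ 1 / 2 → ∀ N₃ : ℕ → ℕ, ∃ m₀ : ℕ, ∀ m d p : ℕ, m₀ ≤ m →
  (m : ℝ) ^ ε ≤ d → 3 ≤ p → (p : ℝ) ≤ 3 / ε →
  (1 - ε) * ((Nat.factorial p : ℝ) * m) < (d : ℝ) ^ p →
  N₃ p * (Nat.log 2 m + 1) ^ 3 ≤ d - 1 ∧
  (N₃ p * (Nat.log 2 m + 1)) ^ (p + 1) * m < (d - 1) ^ (p + 1)

/-- **FN2** (from `St_Grw`, `St_PrW` and `WLK`: `St_Lim`, `St_Pro`, `St_Two`, `St_Sem`; model: `Pool/Agent/WLK/Fin.lean`).  PROOF.  As in `WLK.Fin`;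
if `Win ε m d` holds with `p`, then `Cir p`, `(d - 1) ^ p ≤ d ^ p ≤ 2 ^ (p + 1) p! m`, and `St_PrW` with `C = 2 ^ (p + 1) p!`
applies (`N₃ p` its `N`; if `Cir p` is false, `N₃ p = 0`). -/
def St_Fn2 : Prop := ∀ (ε : ℝ), 0 < ε → ∃ m₀ : ℕ,
  ∀ (S : AddSubmonoid ℕ) (c m : ℕ) (A : Finset ℕ), Sg S c m → (∀ a, a ∈ A ↔ Prim S a) → 0 < c →
  A.card ≠ m → m₀ ≤ m → (m : ℝ) ^ ε ≤ A.card → ¬ Win2 ε Cir m A.card →
  c < A.card * (elF S 0 c).card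

end Pool.Agent.WLW
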