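import Pool.Agent.WLW.St

/-! Module Thr of WLW: three residues with sum `-1`. -/

set_option autoImplicit false

namespace Pool.Agent.WLW

/-- [Thr] The sum of the four residues plus one is a positive multiple of `m`. -/
theorem thm_Thr : St_Thr := by
  intro k m al κ w hm t u htu
  haveI : NeZero m := ⟨hm.ne'⟩
  have h0 : ((1 + (3 * κ - 1 - w).val + Y al κ t.1 t.2.1 + Y al κ u.1 u.2.1 +
      Y al κ t.2.2 u.2.2 : ℕ) : ZMod m) = 0 := by
    unfold Y
    push_cast
    rw [ZMod.natCast_zmod_val, ZMod.natCast_zmod_val, ZMod.natCast_zmod_val,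
      ZMod.natCast_zmod_val]
    unfold sg at htu
    rw [← htu]
    ring
  have h1 := (ZMod.natCast_eq_zero_iff _ _).1 h0
  exact Nat.le_of_dvd (by omega) h1

end Pool.Agent.WLW
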